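import Mathlib

/-!
# SmN, block F: Shapiro's lemma for the permutation module `X → ZMod 2`, by explicit formulas

`G` acts on `X` (transitively, `r x • x = x0`); `W = X → ZMod 2` with `(s a) x = a (s⁻¹ x)`.
* degree 1: `sh r b s x = b (r x * s * (r (s⁻¹ x))⁻¹)` for a homomorphism `b` on the stabiliser of
  `x0`; the component at `x` of a cocycle on the stabiliser of `x`; a cocycle on a subgroup `D` all of
  whose components vanish is a coboundary.
* degree 2: if the `x0`-component of a 2-cocycle is a coboundary on the stabiliser of `x0` then the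
  2-cocycle is a coboundary.
-/

set_option autoImplicit false

namespace Pool.Agent.SmN.F

open MulAction

variable {G X : Type*} [Group G] [MulAction G X]

theorem z2_add_self (a : ZMod 2) : a + a = 0 := CharTwo.add_self_eq_zero a

/-- 1-cocycles on `D` with values in `X → ZMod 2`. -/
def IsCoc (D : Subgroup G) (c : G → X → ZMod 2) : Prop :=
  ∀ s ∈ D, ∀ t ∈ D, ∀ x, c (s * t) x = c s x + c t (s⁻¹ • x)

theorem IsCoc.mono {D D' : Subgroup G} (h : D' ≤ D) {c : G → X → ZMod 2} (hc : IsCoc D c) :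
    IsCoc D' c := fun s hs t ht x => hc s (h hs) t (h ht) x

theorem IsCoc.add {D : Subgroup G} {c d : G → X → ZMod 2} (hc : IsCoc D c) (hd : IsCoc D d) :
    IsCoc D (fun s x => c s x + d s x) := by
  intro s hs t ht x
  change c (s * t) x + d (s * t) x = c s x + d s x + (c t (s⁻¹ • x) + d t (s⁻¹ • x))
  rw [hc s hs t ht x, hd s hs t ht x]
  ring

theorem IsCoc.one {D : Subgroup G} {c : G → X → ZMod 2} (hc : IsCoc D c) (x : X) : c 1 x = 0 := by
  have h := hc 1 D.one_mem 1 D.one_mem x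
  rw [mul_one, inv_one, one_smul] at h
  exact left_eq_add.1 h

theorem IsCoc.inv {D : Subgroup G} {c : G → X → ZMod 2} (hc : IsCoc D c) {s : G} (hs : s ∈ D)
    (x : X) : c s⁻¹ x = c s (s • x) := by
  have h := hc s⁻¹ (D.inv_mem hs) s hs x
  rw [inv_mul_cancel, hc.one, inv_inv] at h
  have h1 : c s⁻¹ x + c s (s • x) = 0 := h.symm
  exact CharTwo.add_eq_zero.1 h1

/-- The component at `x` is invariant under conjugation. -/
theorem IsCoc.conj {D : Subgroup G} {c : G → X → ZMod 2} (hc : IsCoc D c) {g s : G} (hg : g ∈ D)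
    (hs : s ∈ D) {x : X} (hx : s • x = x) : c (g * s * g⁻¹) (g • x) = c s x := by
  have hx' : s⁻¹ • x = x := by rw [inv_smul_eq_iff, hx]
  rw [hc (g * s) (D.mul_mem hg hs) g⁻¹ (D.inv_mem hg), hc g hg s hs, mul_inv_rev, mul_smul,
    inv_smul_smul, hx', hc.inv hg]
  rw [add_comm (c g (g • x)), add_assoc, z2_add_self, add_zero]

/-- A cocycle on `D` all of whose components vanish is a coboundary. -/
theorem IsCoc.cob {D : Subgroup G} {c : G → X → ZMod 2} (hc : IsCoc D c)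
    (h0 : ∀ x : X, ∃ g ∈ D, ∀ s ∈ D, s • (g • x) = g • x → c s (g • x) = 0) :
    ∃ z : X → ZMod 2, ∀ s ∈ D, ∀ x, c s x = z x + z (s⁻¹ • x) := by
  classical
  -- representatives of the orbits
  let S := orbitRel D X
  let rep : X → X := fun x => (Quotient.mk S x).out
  have hrep : ∀ x, ∃ t : D, t • x = rep x := by
    intro x
    have h1 : (Quotient.mk S x).out ≈ x := Quotient.mk_out (s := S) x
    have h2 : (Quotient.mk S x).out ∈ orbit D x := h1
    exact h2
  choose t ht using hrep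
  have hrep2 : ∀ (x : X) (s : G), s ∈ D → rep (s • x) = rep x := by
    intro x s hs
    have h1 : (Quotient.mk S (s • x)) = Quotient.mk S x := by
      apply Quotient.sound
      exact ⟨⟨s, hs⟩, rfl⟩
    change (Quotient.mk S (s • x)).out = (Quotient.mk S x).out
    rw [h1]
  have hz : ∀ x : X, ∀ s ∈ D, s • x = x → c s x = 0 := by
    intro x s hs hx
    obtain ⟨g, hg, h1⟩ := h0 x
    rw [← hc.conj hg hs hx]
    refine h1 _ (D.mul_mem (D.mul_mem hg hs) (D.inv_mem hg)) ?_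
    rw [mul_smul, inv_smul_smul, mul_smul, hx]
  refine ⟨fun x => c (t x) (rep x), fun s hs x => ?_⟩
  change c s x = c (t x) (rep x) + c (t (s⁻¹ • x)) (rep (s⁻¹ • x))
  have hy : rep (s⁻¹ • x) = rep x := hrep2 x s⁻¹ (D.inv_mem hs)
  set g : G := (t x : G) with hg
  set g' : G := (t (s⁻¹ • x) : G) with hg'
  have h1 : g • x = rep x := ht x
  have h2 : g' • (s⁻¹ • x) = rep x := by
    have := ht (s⁻¹ • x)
    rw [hy] at this
    exact this
  have h1' : g⁻¹ • rep x = x := by rw [← h1, inv_smul_smul]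
  have h2' : g'⁻¹ • rep x = s⁻¹ • x := by rw [← h2, inv_smul_smul]
  have hgD : g ∈ D := (t x).2
  have hgD' : g' ∈ D := (t (s⁻¹ • x)).2
  have h3 : (g * s * g'⁻¹) • rep x = rep x := by
    rw [mul_smul, h2', mul_smul, smul_inv_smul, h1]
  have h4 := hz (rep x) (g * s * g'⁻¹) (D.mul_mem (D.mul_mem hgD hs) (D.inv_mem hgD')) h3
  rw [hc (g * s) (D.mul_mem hgD hs) g'⁻¹ (D.inv_mem hgD'), hc g hgD s hs, h1', mul_inv_rev, mul_smul,
    h1', hc.inv hgD', h2] at h4
  have h5 : c s x = c g (rep x) + c g' (rep x) := by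
    have h6 : c s x + (c g (rep x) + c g' (rep x)) = 0 := by
      rw [← h4]; ring
    exact CharTwo.add_eq_zero.1 h6
  rw [hy, h5]

/-- The Shapiro lift. -/
def sh (r : X → G) (b : G → ZMod 2) (s : G) (x : X) : ZMod 2 :=
  b (r x * s * (r (s⁻¹ • x))⁻¹)

section

variable {x0 : X} {r : X → G} (hr : ∀ x, r x • x = x0)

include hr

theorem r_inv (x : X) : (r x)⁻¹ • x0 = x := by rw [← hr x, inv_smul_smul]

theorem sh_mem (s : G) (x : X) : r x * s * (r (s⁻¹ • x))⁻¹ ∈ stabilizer G x0 := by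
  rw [mem_stabilizer_iff, mul_smul, r_inv hr, mul_smul, smul_inv_smul, hr]

theorem sh_coc {b : G → ZMod 2}
    (hb : ∀ s ∈ stabilizer G x0, ∀ t ∈ stabilizer G x0, b (s * t) = b s + b t) :
    IsCoc ⊤ (sh r b) := by
  intro s _ t _ x
  unfold sh
  rw [← hb _ (sh_mem hr s x) _ (sh_mem hr t (s⁻¹ • x))]
  congr 1
  rw [mul_inv_rev, mul_smul]
  group

omit hr in
/-- The component at `x` of the Shapiro lift. -/
theorem sh_self (b : G → ZMod 2) {s : G} {x : X} (hx : s • x = x) :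
    sh r b s x = b (r x * s * (r x)⁻¹) := by
  have hx' : s⁻¹ • x = x := by rw [inv_smul_eq_iff, hx]
  unfold sh
  rw [hx']

/-- Every cocycle is the Shapiro lift of its `x0`-component, up to a coboundary. -/
theorem coc_sh {c : G → X → ZMod 2} (hc : IsCoc ⊤ c) :
    ∃ z : X → ZMod 2, ∀ s x, c s x = sh r (fun t => c t x0) s x + (z x + z (s⁻¹ • x)) := by
  refine ⟨fun x => c (r x) x0, fun s x => ?_⟩
  have h := hc (r x * s) trivial (r (s⁻¹ • x))⁻¹ trivial x0
  rw [hc (r x) trivial s trivial, r_inv hr, hc.inv trivial, mul_inv_rev, mul_smul, r_inv hr, hr] at h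
  unfold sh
  change c s x = c (r x * s * (r (s⁻¹ • x))⁻¹) x0 + (c (r x) x0 + c (r (s⁻¹ • x)) x0)
  rw [h]
  have h1 := z2_add_self (c (r x) x0)
  have h2 := z2_add_self (c (r (s⁻¹ • x)) x0)
  linear_combination (-1 : ZMod 2) * h1 - h2

end

/-- 2-cocycles of `G` with values in `X → ZMod 2`. -/
def IsCoc2 (c : G → G → X → ZMod 2) : Prop :=
  ∀ s t u x, c s t x + c (s * t) u x = c t u (s⁻¹ • x) + c s (t * u) x

section

variable {x0 : X} {r : X → G} (hr : ∀ x, r x • x = x0) {c : G → G → X → ZMod 2}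

/-- The key identity. -/
theorem coc2_key (hc : IsCoc2 c) {s t : G} {gx gy gz : G} {x : X} (hx : gx • x = x0)
    (hs : (gx * s * gy⁻¹) • x0 = x0) :
    c s t x = c (gx * s * gy⁻¹) (gy * t * gz⁻¹) x0
      + (c gx s x0 + c (gx * s * gy⁻¹) gy x0) + (c gy t x0 + c (gy * t * gz⁻¹) gz x0)
      + (c gx (s * t) x0 + c (gx * (s * t) * gz⁻¹) gz x0) := by
  have hx' : gx⁻¹ • x0 = x := by rw [← hx, inv_smul_smul]
  have hs' : (gx * s * gy⁻¹)⁻¹ • x0 = x0 := by rw [inv_smul_eq_iff, hs]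
  have h1 := hc gx s t x0
  rw [hx'] at h1
  have h2 := hc (gx * s * gy⁻¹) (gy * t * gz⁻¹) gz x0
  rw [hs', inv_mul_cancel_right, show gx * s * gy⁻¹ * (gy * t * gz⁻¹) = gx * (s * t) * gz⁻¹ by group]
    at h2
  have h3 := hc (gx * s * gy⁻¹) gy t x0
  rw [hs', inv_mul_cancel_right] at h3
  have e2 := z2_add_self (c (gx * s * gy⁻¹) gy x0)
  have e4 := z2_add_self (c (gy * t * gz⁻¹) gz x0)
  have e5 := z2_add_self (c gx (s * t) x0)
  linear_combination (-1 : ZMod 2) * h1 + h3 - h2 - e2 - e5 - e4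

include hr

/-- Shapiro's lemma in degree 2. -/
theorem coc2_cob (hc : IsCoc2 c) {be : G → ZMod 2}
    (hb : ∀ s ∈ stabilizer G x0, ∀ t ∈ stabilizer G x0, c s t x0 = be s + be t + be (s * t)) :
    ∀ s t x, c s t x =
      (be (r x * s * (r (s⁻¹ • x))⁻¹) + c (r x) s x0
        + c (r x * s * (r (s⁻¹ • x))⁻¹) (r (s⁻¹ • x)) x0)
      + (be (r (s⁻¹ • x) * t * (r (t⁻¹ • s⁻¹ • x))⁻¹) + c (r (s⁻¹ • x)) t x0
        + c (r (s⁻¹ • x) * t * (r (t⁻¹ • s⁻¹ • x))⁻¹) (r (t⁻¹ • s⁻¹ • x)) x0)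
      + (be (r x * (s * t) * (r ((s * t)⁻¹ • x))⁻¹) + c (r x) (s * t) x0
        + c (r x * (s * t) * (r ((s * t)⁻¹ • x))⁻¹) (r ((s * t)⁻¹ • x)) x0) := by
  intro s t x
  have hst : (s * t)⁻¹ • x = t⁻¹ • s⁻¹ • x := by rw [mul_inv_rev, mul_smul]
  have h1 := coc2_key hc (s := s) (t := t) (gx := r x) (gy := r (s⁻¹ • x))
    (gz := r (t⁻¹ • s⁻¹ • x)) (hr x) (sh_mem hr s x)
  have h2 := hb _ (sh_mem hr s x) _ (sh_mem hr t (s⁻¹ • x))
  rw [show r x * s * (r (s⁻¹ • x))⁻¹ * (r (s⁻¹ • x) * t * (r (t⁻¹ • s⁻¹ • x))⁻¹)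
    = r x * (s * t) * (r (t⁻¹ • s⁻¹ • x))⁻¹ by group] at h2
  rw [h1, h2, hst]
  ring

/-- The `x0`-component at a conjugate of a local group. -/
theorem coc2_loc (hc : IsCoc2 c) {D : Subgroup G} {x : X} {b : G → ZMod 2}
    (hb : ∀ s ∈ D, s • x = x → ∀ t ∈ D, t • x = x → c s t x = b s + b t + b (s * t)) :
    ∀ s ∈ D, s • x = x → ∀ t ∈ D, t • x = x →
      c (r x * s * (r x)⁻¹) (r x * t * (r x)⁻¹) x0 =
        (b s + c (r x) s x0 + c (r x * s * (r x)⁻¹) (r x) x0)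
        + (b t + c (r x) t x0 + c (r x * t * (r x)⁻¹) (r x) x0)
        + (b (s * t) + c (r x) (s * t) x0 + c (r x * (s * t) * (r x)⁻¹) (r x) x0) := by
  intro s hs hsx t ht htx
  have h0 : (r x * s * (r x)⁻¹) • x0 = x0 := by
    rw [mul_smul, r_inv hr, mul_smul, hsx, hr]
  have h1 := coc2_key hc (s := s) (t := t) (gx := r x) (gy := r x) (gz := r x) (hr x) h0
  rw [hb s hs hsx t ht htx] at h1
  have e1 := z2_add_self (c (r x) s x0 + c (r x * s * (r x)⁻¹) (r x) x0)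
  have e2 := z2_add_self (c (r x) t x0 + c (r x * t * (r x)⁻¹) (r x) x0)
  have e3 := z2_add_self (c (r x) (s * t) x0 + c (r x * (s * t) * (r x)⁻¹) (r x) x0)
  linear_combination (-1 : ZMod 2) * h1 - e1 - e2 - e3

end

end Pool.Agent.SmN.F
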