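import Pool.Agent.Lib.SmN.F.VL

/-!
# SmN, block F: the local pairing is nondegenerate on the classes of cocycles

`ndV`: if every family of local values at the places of `L` over `v` is the family of a global
quadratic character, then an element of `CP v` orthogonal to `CP v` is a coboundary.
-/

set_option autoImplicit false

open Finset

namespace Pool.Agent.SmN.F

open MulAction Loc

variable {G V V1 Pl : Type*} [Group G] [AddCommGroup V] [DistribMulAction G V]
    [AddCommGroup V1] [Module (ZMod 2) V1] {S : Sys G V V1 Pl} {q : Pl → ℕ} {X : Type*}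
    [Fintype X] [MulAction G X] {E : Pl → X → ℕ × ℕ × ℕ}
    {i : V1 →ₗ[ZMod 2] (X → ZMod 2)} {p : (X → ZMod 2) →ₗ[ZMod 2] V1}
    {x0 : X} {r : X → G}

/-- A local cocycle whose components vanish at the generators is a coboundary. -/
theorem cob_of_comp_zero (hL : LocD S q) (hP : PermOk S X i p) (hE : OrbE S q E)
    (hG : ∀ v, LG S.NN (S.D v) (S.sg v) (S.phi v) (q v) X)
    (inf_mem : ∀ N ∈ S.NN, ∀ N' ∈ S.NN, N ⊓ N' ∈ S.NN) {v : Pl} {c : G → V1}
    (hcf : S.TFOn (S.D v) c) (hc : Coc S.ac (S.D v) c)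
    (h1 : ∀ o : orbitRel.Quotient (S.D v) X, i (c (sgx S E v o.out)) o.out = 0)
    (h2 : ∀ o : orbitRel.Quotient (S.D v) X, i (c (phx S E v o.out)) o.out = 0) :
    ∃ z : V1, ∀ s ∈ S.D v, c s = S.ac s z - z := by
  let C : G → X → ZMod 2 := fun s x => i (c s) x
  have hC : IsCoc (S.D v) C := isCoc_i hP hc
  obtain ⟨z, hz⟩ := hC.cob (by
    intro x
    set o : orbitRel.Quotient (S.D v) X := Quotient.mk _ x with ho
    have h3 : o.out ∈ orbit (S.D v) x := Quotient.mk_out (s := orbitRel (S.D v) X) x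
    obtain ⟨g, hg⟩ := h3
    refine ⟨g, g.2, ?_⟩
    change (g : G) • x = o.out at hg
    rw [hg]
    intro s hs hsx
    obtain ⟨N1, hN1, h4⟩ := hcf
    obtain ⟨N0, hN0, h0⟩ := hP.triv
    have hN : N1 ⊓ N0 ∈ S.NN := inf_mem _ hN1 _ hN0
    obtain ⟨a, m, ham⟩ := (hE.efj v o.out).gen (hG v) hN (fun n hn x => h0 n hn.2 x) hs hsx
    set u : G := ((S.sg v ^ (E v o.out).1) ^ a *
      (S.sg v ^ (E v o.out).2.2 * S.phi v ^ (E v o.out).2.1) ^ m) with hu
    have hsu : s = u * (u⁻¹ * s) := by group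
    have hsm := sgx_mem (E := E) hL v o.out
    have hpm := phx_mem (E := E) hL v o.out
    have huD : u ∈ S.D v := (S.D v).mul_mem ((S.D v).zpow_mem hsm a) ((S.D v).pow_mem hpm m)
    have hnD : u⁻¹ * s ∈ S.D v := (S.D v).mul_mem ((S.D v).inv_mem huD) hs
    have hval : i (c s) o.out = i (c u) o.out := by
      rw [hsu, h4 u huD _ ham.1 hnD]
    change i (c s) o.out = 0
    rw [hval]
    have hsf := (hE.efj v o.out).sg_fix
    have hpf := (hE.efj v o.out).ph_fix
    change sgx S E v o.out • o.out = o.out at hsf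
    change phx S E v o.out • o.out = o.out at hpf
    have g1 : C (sgx S E v o.out) o.out = 0 := h1 o
    have g2 : C (phx S E v o.out) o.out = 0 := h2 o
    have g3 : ∀ n : ℤ, C (sgx S E v o.out ^ n) o.out = 0 := by
      intro n
      obtain ⟨k, rfl | rfl⟩ := n.eq_nat_or_neg
      · rw [zpow_natCast, hC.pow_fix hsm hsf, g1, mul_zero]
      · have h5 : sgx S E v o.out ^ k • o.out = o.out := by
          induction k with
          | zero => rw [pow_zero, one_smul]
          | succ k ih => rw [pow_succ, mul_smul, hsf, ih]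
        rw [zpow_neg, zpow_natCast, hC.inv ((S.D v).pow_mem hsm k), h5,
          hC.pow_fix hsm hsf, g1, mul_zero]
    have g4 : C (phx S E v o.out ^ m) o.out = 0 := by
      rw [hC.pow_fix hpm hpf, g2, mul_zero]
    have h6 := hC (sgx S E v o.out ^ a) ((S.D v).zpow_mem hsm a) (phx S E v o.out ^ m)
      ((S.D v).pow_mem hpm m) o.out
    have h7 : (sgx S E v o.out ^ a)⁻¹ • o.out = o.out := by
      have h8 : sgx S E v o.out ∈ stabilizer G o.out := hsf
      exact (stabilizer G o.out).inv_mem ((stabilizer G o.out).zpow_mem h8 a)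
    rw [h7, g3, g4, add_zero] at h6
    exact h6)
  refine ⟨p z, fun s hs => ?_⟩
  have h3 : i (c s) = (fun x => z (s⁻¹ • x)) + z := by
    funext x
    have h4 : i (c s) x = z x + z (s⁻¹ • x) := hz s hs x
    rw [h4, add_comm]
    rfl
  have h5 : p z = - p z := by
    have h6 : p z + p z = 0 := by
      rw [← map_add]
      have : z + z = 0 := by
        funext x
        exact z2_add_self _
      rw [this, map_zero]
    exact eq_neg_of_add_eq_zero_left h6
  rw [← hP.p_i (c s), h3, map_add, hP.p_ac, sub_eq_add_neg, ← h5]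

/-- The pairing `sym` is nondegenerate. -/
theorem sym_nd {ep : ZMod 2} {x : ZMod 2 × ZMod 2} (h : ∀ y, sym ep x y = 0) : x = 0 := by
  obtain ⟨a, b⟩ := x
  have h1 := h (0, 1)
  have h2 := h (1, 0)
  revert h1 h2
  unfold sym
  revert a b ep
  decide

/-- The local pairing is nondegenerate on the classes of cocycles. -/
theorem ndV (hL : LocD S q) (hP : PermOk S X i p) (hE : OrbE S q E)
    (hG : ∀ v, LG S.NN (S.D v) (S.sg v) (S.phi v) (q v) X)
    (inf_mem : ∀ N ∈ S.NN, ∀ N' ∈ S.NN, N ⊓ N' ∈ S.NN) (hr : ∀ x, r x • x = x0) {v : Pl}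
    (hs : ∀ a : orbitRel.Quotient (S.D v) X → ZMod 2 × ZMod 2, ∃ b : G → ZMod 2,
      S.HomH (stabilizer G x0) b ∧ ∀ o, lp S E r v o.out b = a o)
    {x : V1 × V1} (hx : x ∈ S.CP v) (h0 : ∀ y ∈ S.CP v, S.sy v y x = 0) :
    ∃ z, x = S.cob v z := by
  classical
  have : Finite (orbitRel.Quotient (S.D v) X) := Quotient.finite _
  have : Fintype (orbitRel.Quotient (S.D v) X) := Fintype.ofFinite _
  have hx' := hx
  obtain ⟨c, hcf, hc, hcl⟩ := hx
  have hc' : Coc S.ac (S.D v) c := hc
  have key : ∀ o : orbitRel.Quotient (S.D v) X,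
      ((i (c (sgx S E v o.out)) o.out, i (c (phx S E v o.out)) o.out) : ZMod 2 × ZMod 2) = 0 := by
    intro o
    refine sym_nd (ep := epx q E v o.out) fun y => ?_
    obtain ⟨b, hb, hb2⟩ := hs (Pi.single o y)
    have hbc := sh_cocG hr hP hL.normal inf_mem hb
    have hy : S.loc v (fun s => p (sh r b s)) ∈ S.CP v :=
      ⟨_, tfOn_of_tf hbc.1 _, fun s _ t _ => hbc.2 s t, rfl⟩
    have h1 := h0 _ hy
    rw [← hL.sy_comm v x hx' _ hy, ← hcl, sy_orb hL hP hE inf_mem v hc' hcf
      ((sh_coc hr hb.2).mono le_top) (tfOn_of_tf (sh_tf hr hP hL.normal inf_mem hb.1) _),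
      finsum_eq_sum_of_fintype, Finset.sum_eq_single o] at h1
    · rw [lp_sh hE, hb2, Pi.single_eq_same] at h1
      exact h1
    · intro o' _ ho'
      rw [lp_sh hE, hb2, Pi.single_eq_of_ne ho']
      unfold sym
      simp
    · intro ho
      exact absurd (Finset.mem_univ o) ho
  obtain ⟨z, hz⟩ := cob_of_comp_zero hL hP hE hG inf_mem hcf hc'
    (fun o => congrArg Prod.fst (key o)) (fun o => congrArg Prod.snd (key o))
  exact ⟨z, by rw [← hcl]; exact Prod.ext (hz _ (hL.sg_mem v)) (hz _ (hL.phi_mem v))⟩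

end Pool.Agent.SmN.F
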