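import Pool.Agent.Lib.SmN.F.LPl
import Pool.Agent.Lib.SmN.F.Shap
import Pool.Agent.Lib.GBU.LagH
import Pool.Agent.Lib.GBU.Pic
import Pool.Agent.Lib.GBC.E.Main

/-!
# SmN, block F: the statements over `L` for the instance

`S` with `NN = NP K Om`, `D = dvK`, `sg = sgK`, `phi = phK`; `X` a `Gal(Om / K)`-set with stabiliser of
`x0` equal to `Gal(Om / L)`. The statements `LOk` follow from `GBU/LagH` over `L` with
`sg u = r x sg^e (r x)⁻¹`, `ph u = r x sg^j ph^f (r x)⁻¹` for `u = pL v x`.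
-/

set_option autoImplicit false
set_option linter.unusedSectionVars false

open IsLocalRing

namespace Pool.Agent.SmN.F

open MulAction Pool.Agent.GBU Pool.Agent.BSDFF Pool.Agent.Lib.SmD Loc

section open_

variable {K L Om : Type} [Field K] [Field L] [Field Om] [Algebra K L] [Algebra K Om]
  [Algebra L Om] [IsScalarTower K L Om]

/-- The preimage of an open subgroup in `Gal(Om / L)` is open. -/
theorem isOpen_comap_res [Algebra.IsAlgebraic L Om] {N : Subgroup (Om ≃ₐ[K] Om)}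
    (hN : IsOpen (N : Set (Om ≃ₐ[K] Om))) :
    IsOpen (N.comap (res K : (Om ≃ₐ[L] Om) →* (Om ≃ₐ[K] Om)) : Set (Om ≃ₐ[L] Om)) := by
  obtain ⟨E, hE, hEN⟩ := (krullTopology_mem_nhds_one_iff K Om _).1 (hN.mem_nhds N.one_mem)
  let b := Module.finBasis K E
  let A : Set Om := Set.range fun i => ((b i : E) : Om)
  have hfin : FiniteDimensional L (IntermediateField.adjoin L A) :=
    IntermediateField.finiteDimensional_adjoin fun x _ => Algebra.IsIntegral.isIntegral x
  refine Subgroup.isOpen_mono ?_ (IntermediateField.fixingSubgroup_isOpen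
    (IntermediateField.adjoin L A))
  intro s hs
  rw [Subgroup.mem_comap]
  apply hEN
  rw [SetLike.mem_coe, IntermediateField.mem_fixingSubgroup_iff]
  intro x hx
  have h1 : ∀ i, res K s ((b i : E) : Om) = ((b i : E) : Om) := by
    intro i
    rw [IntermediateField.mem_fixingSubgroup_iff] at hs
    exact hs _ (IntermediateField.subset_adjoin L A ⟨i, rfl⟩)
  have h3 := b.sum_repr ⟨x, hx⟩
  have h4 : x = ∑ i, (b.repr ⟨x, hx⟩ i) • ((b i : E) : Om) := by
    have h5 := congrArg (fun y : E => (y : Om)) h3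
    beta_reduce at h5
    rw [AddSubmonoidClass.coe_finsetSum] at h5
    exact h5.symm
  rw [h4, map_sum]
  refine Finset.sum_congr rfl fun i _ => ?_
  rw [map_smul, h1]

end open_

section ext

variable {K L Om : Type} [Field K] [Field L] [Field Om] [Algebra K L] [Algebra K Om]
  [Algebra L Om] [IsScalarTower K L Om]

open Classical in
/-- Extension by zero of a function on `Gal(Om / L)`. -/
noncomputable def extZ (c : (Om ≃ₐ[L] Om) → ZMod 2) (s : Om ≃ₐ[K] Om) : ZMod 2 :=
  if h : s ∈ rg K L Om then c h.choose else 0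

theorem extZ_res (c : (Om ≃ₐ[L] Om) → ZMod 2) (s : Om ≃ₐ[L] Om) : extZ c (res K s) = c s := by
  have h : res K s ∈ rg K L Om := ⟨s, rfl⟩
  rw [extZ, dif_pos h]
  congr 1
  exact res_injective K h.choose_spec

end ext

variable {k K L : Type} [Field k] [Finite k] [Field K] [Algebra k K] [Algebra (RatFunc k) K]
  [IsScalarTower k (RatFunc k) K] [FiniteDimensional (RatFunc k) K]
  [Algebra.IsSeparable (RatFunc k) K]
  [Field L] [Algebra k L] [Algebra (RatFunc k) L]
  [IsScalarTower k (RatFunc k) L] [FiniteDimensional (RatFunc k) L]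
  [Algebra.IsSeparable (RatFunc k) L] [Algebra K L] [FiniteDimensional K L]
  {Om : Type} [Field Om] [Algebra K Om] [IsSepClosure K Om] [Algebra L Om] [IsSepClosure L Om]
  [IsScalarTower K L Om]
  {X : Type} [MulAction (Om ≃ₐ[K] Om) X]
  {V V1 : Type} [AddCommGroup V] [DistribMulAction (Om ≃ₐ[K] Om) V] [AddCommGroup V1]
  [Module (ZMod 2) V1]

/-- `S` has the standard `NN`, `D`, `sg`, `phi`. -/
structure IsStd (S : Sys (Om ≃ₐ[K] Om) V V1 (Place k K)) : Prop where
  NN : S.NN = NP K Om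
  D : ∀ v, S.D v = dvK Om v
  sg : ∀ v, S.sg v = sgK Om v
  phi : ∀ v, S.phi v = phK Om v

variable {S : Sys (Om ≃ₐ[K] Om) V V1 (Place k K)}

theorem lg_std (h2 : (2 : k) ≠ 0) (hS : IsStd S)
    (htriv : ∃ N ∈ NP K Om, ∀ n ∈ N, ∀ x : X, n • x = x) (v : Place k K) :
    LG S.NN (S.D v) (S.sg v) (S.phi v) (qK v) X := by
  have hgal : IsGalois K Om := inferInstance
  rw [hS.NN, hS.D, hS.sg, hS.phi]
  exact ⟨fun N hN => NP.normal hN, fun N hN N' hN' => inf_mem_NP hN hN', fun N hN => NP.finiteIndex hN,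
    odd_qK h2 v, sgK_mem h2 v, phK_mem v, fun N hN s hs => genK h2 v hN hs,
    fun N hN => frobK h2 v hN, htriv⟩

section point

variable {x0 : X} {r : X → (Om ≃ₐ[K] Om)} (hr : ∀ x, r x • x = x0)
  (hst : stabilizer (Om ≃ₐ[K] Om) x0 = rg K L Om) {E : Place k K → X → ℕ × ℕ × ℕ}

include hr hst

theorem conj_mem_rg {s : Om ≃ₐ[K] Om} {x : X} : r x * s * (r x)⁻¹ ∈ rg K L Om ↔ s • x = x := by
  have h1 : (r x)⁻¹ • x0 = x := by rw [← hr x, inv_smul_smul]
  rw [← hst, mem_stabilizer_iff, mul_smul, mul_smul, h1]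
  constructor
  · intro h
    have h3 := congrArg (fun y => (r x)⁻¹ • y) h
    simp only [inv_smul_smul] at h3
    rw [h3, h1]
  · intro h
    rw [h, hr]

/-- The local data at `pL v x`. -/
theorem lval_pL (h2 : (2 : k) ≠ 0) (hS : IsStd S)
    (htriv : ∃ N ∈ NP K Om, ∀ n ∈ N, ∀ x : X, n • x = x) (hE : OrbE S (fun v => qK v) E)
    (v : Place k K) (x : X) {s p : Om ≃ₐ[L] Om}
    (hs : res K s = r x * sgx S E v x * (r x)⁻¹) (hp : res K p = r x * phx S E v x * (r x)⁻¹) :
    LVal (pL L r v x) s p ∧ epsK (pL L r v x) = epx (fun v => qK v) E v x := by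
  have hgalK : IsGalois K Om := inferInstance
  have hgalL : IsGalois L Om := inferInstance
  obtain ⟨N0, hN0, h0⟩ := htriv
  have hle : N0 ≤ rg K L Om := by
    rw [← hst]
    exact fun n hn => h0 n hn x0
  obtain ⟨e_pos, f_pos, sg_fix, ph_fix, e_min, f_min⟩ := hE.efj v x
  set e := (E v x).1 with he
  set f := (E v x).2.1 with hf
  set j := (E v x).2.2 with hj
  set w := wx r v x with hw
  set τ := r x * sgK Om v * (r x)⁻¹ with hτd
  set φ := r x * phK Om v * (r x)⁻¹ with hφd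
  have hτ : IsTG K w τ := isTG_tr (sgK_tg h2 v)
  have hφ : IsFrob K w φ := isFrob_tr (phK_frob v)
  have hwr : below L w = (pL L r v x).ring := (pL_ring r v x).symm
  have hfin : Finite (ResidueField (below L w)) := finite_residue_of_below hwr
  rw [hS.sg, hS.phi] at ph_fix f_min
  rw [hS.sg] at sg_fix e_min
  have hτe : τ ^ e = r x * sgx S E v x * (r x)⁻¹ := by
    unfold sgx
    rw [hτd, conj_pow, hS.sg]
  have hpw : τ ^ j * φ ^ f = r x * phx S E v x * (r x)⁻¹ := by
    unfold phx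
    rw [hτd, hφd, conj_pow, conj_pow, hS.sg, hS.phi, ← hj, ← hf]
    group
  have htg : IsTG L w s := by
    refine hτ.sub hN0 hle e_pos (fun i hi h => ?_) (hs.trans hτe.symm)
    rw [hτd, conj_pow, conj_mem_rg hr hst] at h
    have h3 := e_min i (by rw [zpow_natCast]; exact h)
    exact Nat.le_of_dvd hi (Int.natCast_dvd_natCast.1 h3)
  have hres : resCard (below L w) = resCard (below K w) ^ f := by
    refine resCard_sub hφ f_pos ⟨τ ^ j, (iner K w).pow_mem hτ.mem j, ?_⟩ fun i hi h => ?_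
    · rw [hpw, ← hp]
      exact ⟨p, rfl⟩
    · obtain ⟨m, hm⟩ := (exists_iner_iff hτ hN0 hle i).1 h
      have h3 : τ ^ m * φ ^ i = r x * (sgK Om v ^ m * phK Om v ^ i) * (r x)⁻¹ := by
        rw [hτd, hφd, conj_pow, conj_pow]
        group
      rw [h3, conj_mem_rg hr hst] at hm
      exact f_min i m hi (by rw [zpow_natCast]; exact hm)
  have hfr : IsFrob L w p := by
    refine isFrob_sub hφ hres ((iner K w).pow_mem hτ.mem j) ?_
    rw [hp, hpw]
  refine ⟨lVal h2 hwr htg hfr, ?_⟩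
  have h4 : qK (pL L r v x) = qK v ^ f := by
    rw [← resCard_below hwr, hres, resCard_below (below_wx r v x)]
  unfold epsK epx qx
  rw [h4]

end point

section main

variable [Fintype X] {x0 : X} {r : X → (Om ≃ₐ[K] Om)} {E : Place k K → X → ℕ × ℕ × ℕ}

theorem homO_of_homH (hS : IsStd S) (hst : stabilizer (Om ≃ₐ[K] Om) x0 = rg K L Om)
    {b : (Om ≃ₐ[K] Om) → ZMod 2} (hb : S.HomH (stabilizer (Om ≃ₐ[K] Om) x0) b) :
    HomO (fun s : Om ≃ₐ[L] Om => b (res K s)) := by
  have halg : Algebra.IsAlgebraic L Om := (IsSepClosure.separable (k := L) (K := Om)).isAlgebraic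
  obtain ⟨⟨N, hN, h1⟩, h3⟩ := hb
  rw [hst] at h1 h3
  rw [hS.NN] at hN
  refine ⟨fun s t => ?_, N.comap (res K), isOpen_comap_res (NP.isOpen hN), fun s hs => ?_⟩
  · rw [map_mul]
    exact h3 _ ⟨s, rfl⟩ _ ⟨t, rfl⟩
  · have h4 := h1 1 (rg K L Om).one_mem _ hs ⟨s, rfl⟩
    have h5 := h3 1 (rg K L Om).one_mem 1 (rg K L Om).one_mem
    rw [mul_one] at h5
    rw [one_mul] at h4
    change b (res K s) = 0
    rw [h4]
    exact left_eq_add.1 h5

theorem homH_extZ (h2 : (2 : k) ≠ 0) (hS : IsStd S)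
    (hst : stabilizer (Om ≃ₐ[K] Om) x0 = rg K L Om)
    (htriv : ∃ N ∈ NP K Om, ∀ n ∈ N, ∀ x : X, n • x = x) {c : (Om ≃ₐ[L] Om) → ZMod 2}
    (hc : HomO c) : S.HomH (stabilizer (Om ≃ₐ[K] Om) x0) (extZ c) := by
  have hgalK : IsGalois K Om := inferInstance
  have h2' : (2 : L) ≠ 0 := two_ne_K h2
  obtain ⟨N0, hN0, h0⟩ := htriv
  have hle : N0 ≤ rg K L Om := by
    rw [← hst]
    exact fun n hn => h0 n hn x0
  obtain ⟨N', hN', h1⟩ := hc.tf h2'
  obtain ⟨N, hN, hNN0, hNN'⟩ := exists_NP_le_map hN0 hle hN'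
  rw [hst]
  constructor
  · rw [Sys.TFOn, hS.NN]
    refine ⟨N, hN, ?_⟩
    rintro _ ⟨s, rfl⟩ n hn _
    obtain ⟨n', hn', rfl⟩ := hNN' hn
    rw [← map_mul, extZ_res, extZ_res, h1 s n' hn']
  · rintro _ ⟨s, rfl⟩ _ ⟨t, rfl⟩
    rw [← map_mul, extZ_res, extZ_res, extZ_res, hc.add]

/-- The Hasse principle for `H^2(L, ZMod 2)`. -/
def HasseZ (L Om : Type) [Field L] [Field Om] [Algebra L Om] : Prop :=
  ∀ c : (Om ≃ₐ[L] Om) → (Om ≃ₐ[L] Om) → ZMod 2,
    (∃ U : Subgroup (Om ≃ₐ[L] Om), IsOpen (U : Set (Om ≃ₐ[L] Om)) ∧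
      ∀ s t, ∀ m ∈ U, ∀ n ∈ U, c (s * m) (t * n) = c s t) →
    (∀ s t u, c s t + c (s * t) u = c t u + c s (t * u)) →
    (∀ w : ValuationSubring Om, w ≠ ⊤ → ∃ b : (Om ≃ₐ[L] Om) → ZMod 2,
      (∃ U : Subgroup (Om ≃ₐ[L] Om), IsOpen (U : Set (Om ≃ₐ[L] Om)) ∧
        ∀ s ∈ dec L w, ∀ n ∈ U, n ∈ dec L w → b (s * n) = b s) ∧
      ∀ s ∈ dec L w, ∀ t ∈ dec L w, c s t = b s + b t + b (s * t)) →
    ∃ b : (Om ≃ₐ[L] Om) → ZMod 2,
      (∃ U : Subgroup (Om ≃ₐ[L] Om), IsOpen (U : Set (Om ≃ₐ[L] Om)) ∧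
        ∀ s, ∀ n ∈ U, b (s * n) = b s) ∧
      ∀ s t, c s t = b s + b t + b (s * t)

/-- From locally constant to `NP`-finite. -/
theorem hasse_std (hH : HasseZ L Om) (h2 : (2 : k) ≠ 0) (hS : IsStd S)
    (hst : stabilizer (Om ≃ₐ[K] Om) x0 = rg K L Om)
    (htriv : ∃ N ∈ NP K Om, ∀ n ∈ N, ∀ x : X, n • x = x)
    (c : (Om ≃ₐ[K] Om) → (Om ≃ₐ[K] Om) → ZMod 2) (hcf : S.TF2 c)
    (hc : ∀ s ∈ stabilizer (Om ≃ₐ[K] Om) x0, ∀ t ∈ stabilizer (Om ≃ₐ[K] Om) x0,
      ∀ u ∈ stabilizer (Om ≃ₐ[K] Om) x0, c s t + c (s * t) u = c t u + c s (t * u))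
    (hloc : ∀ (v : Place k K) (g : Om ≃ₐ[K] Om), ∃ b : (Om ≃ₐ[K] Om) → ZMod 2,
        S.TFOn (stabilizer (Om ≃ₐ[K] Om) x0 ⊓ (S.D v).map (MulAut.conj g).toMonoidHom) b ∧
        ∀ s ∈ stabilizer (Om ≃ₐ[K] Om) x0, g⁻¹ * s * g ∈ S.D v →
          ∀ t ∈ stabilizer (Om ≃ₐ[K] Om) x0, g⁻¹ * t * g ∈ S.D v →
          c s t = b s + b t + b (s * t)) :
      ∃ b : (Om ≃ₐ[K] Om) → ZMod 2, S.TFOn (stabilizer (Om ≃ₐ[K] Om) x0) b ∧
        ∀ s ∈ stabilizer (Om ≃ₐ[K] Om) x0, ∀ t ∈ stabilizer (Om ≃ₐ[K] Om) x0,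
          c s t = b s + b t + b (s * t) := by
  have hgalK : IsGalois K Om := inferInstance
  have halgK : Algebra.IsAlgebraic K Om := (IsSepClosure.separable (k := K) (K := Om)).isAlgebraic
  have halg : Algebra.IsAlgebraic L Om := (IsSepClosure.separable (k := L) (K := Om)).isAlgebraic
  have h2' : (2 : L) ≠ 0 := two_ne_K h2
  rw [hst] at hc hloc ⊢
  obtain ⟨N1, hN1, h1⟩ := hcf
  rw [hS.NN] at hN1
  obtain ⟨b0, ⟨U, hU, hb0⟩, hb1⟩ := hH (fun s t => c (res K s) (res K t))
    ⟨N1.comap (res K), isOpen_comap_res (NP.isOpen hN1), fun s t m hm n hn => by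
      change c (res K (s * m)) (res K (t * n)) = c (res K s) (res K t)
      rw [map_mul, map_mul]
      exact h1 _ _ _ hm _ hn⟩
    (fun s t u => by
      have := hc (res K s) ⟨s, rfl⟩ (res K t) ⟨t, rfl⟩ (res K u) ⟨u, rfl⟩
      rw [← map_mul, ← map_mul] at this
      exact this)
    (by
      intro w hw
      obtain ⟨v, hv⟩ := exists_place_below k K w hw
      obtain ⟨g, hg⟩ := exists_tr (K := K) (w := abK Om v) (w' := w) (by rw [below_abK, hv])
      obtain ⟨b, ⟨N, hN, h3⟩, h4⟩ := hloc v g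
      rw [hS.NN] at hN
      have hdec : ∀ s : Om ≃ₐ[L] Om, s ∈ dec L w → g⁻¹ * res K s * g ∈ S.D v := by
        intro s hs
        rw [hS.D, ← mem_dec_tr, ← hg]
        exact (res_mem_dec K).2 hs
      refine ⟨fun s => b (res K s), ⟨N.comap (res K), isOpen_comap_res (NP.isOpen hN), ?_⟩, ?_⟩
      · intro s hs n hn hnd
        change b (res K (s * n)) = b (res K s)
        have hm : ∀ t : Om ≃ₐ[L] Om, t ∈ dec L w →
            res K t ∈ rg K L Om ⊓ (S.D v).map (MulAut.conj g).toMonoidHom := by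
          intro t ht
          refine ⟨⟨t, rfl⟩, g⁻¹ * res K t * g, hdec t ht, ?_⟩
          change g * (g⁻¹ * res K t * g) * g⁻¹ = res K t
          group
        rw [map_mul]
        exact h3 _ (hm s hs) _ hn (hm n hnd)
      · intro s hs t ht
        have := h4 _ ⟨s, rfl⟩ (hdec s hs) _ ⟨t, rfl⟩ (hdec t ht)
        rw [← map_mul] at this
        exact this)
  refine ⟨extZ b0, ?_, ?_⟩
  · -- `b0` is a homomorphism on `comap N1`, up to the value at `1`
    obtain ⟨N0, hN0, h0⟩ := htriv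
    have hle : N0 ≤ rg K L Om := by
      rw [← hst]
      exact fun n hn => h0 n hn x0
    set W : Subgroup (Om ≃ₐ[L] Om) := N1.comap (res K) with hW
    have hWn : W.Normal := (NP.normal hN1).comap _
    -- `b0 (s n) = b0 s + b0 n + c 1 1` for `n ∈ W`
    have h5 : ∀ s : Om ≃ₐ[L] Om, ∀ n ∈ W, b0 (s * n) = b0 s + b0 n + c (res K s) 1 := by
      intro s n hn
      have h6 := hb1 s n
      have h7 : c (res K s) (res K n) = c (res K s) 1 := by
        have := h1 (res K s) 1 1 N1.one_mem (res K n) hn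
        rw [mul_one, one_mul] at this
        exact this
      beta_reduce at h6
      rw [h7] at h6
      have e1 : ∀ a b c d : ZMod 2, d = a + b + c → c = a + b + d := by decide
      exact e1 _ _ _ _ h6
    have h8 : ∀ s : Om ≃ₐ[L] Om, c (res K s) 1 = b0 1 := by
      intro s
      have h9 := hb1 s 1
      beta_reduce at h9
      rw [mul_one, map_one] at h9
      have e1 : ∀ a b d : ZMod 2, d = a + b + a → d = b := by decide
      exact e1 _ _ _ h9
    -- the homomorphism on `W`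
    let W0 : Subgroup (Om ≃ₐ[L] Om) :=
      { carrier := {n | n ∈ W ∧ b0 n = b0 1}
        one_mem' := ⟨W.one_mem, rfl⟩
        mul_mem' := by
          rintro a b ⟨ha, ha'⟩ ⟨hb, hb'⟩
          refine ⟨W.mul_mem ha hb, ?_⟩
          rw [h5 a b hb, h8, ha', hb']
          have e1 : ∀ a : ZMod 2, a + a + a = a := by decide
          exact e1 _
        inv_mem' := by
          rintro a ⟨ha, ha'⟩
          refine ⟨W.inv_mem ha, ?_⟩
          have h10 := h5 a⁻¹ a ha
          rw [inv_mul_cancel, h8, ha'] at h10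
          have e1 : ∀ a b : ZMod 2, a = b + a + a → b = a := by decide
          exact e1 _ _ h10 }
    have hW0U : U ⊓ W ≤ W0 := by
      intro n hn
      refine ⟨hn.2, ?_⟩
      have := hb0 1 n hn.1
      rwa [one_mul] at this
    have hWo : IsOpen (W : Set (Om ≃ₐ[L] Om)) := isOpen_comap_res (NP.isOpen hN1)
    have hW0o : IsOpen (W0 : Set (Om ≃ₐ[L] Om)) := by
      refine Subgroup.isOpen_mono hW0U ?_
      rw [Subgroup.coe_inf]
      exact hU.inter hWo
    have hW0n : W0.Normal := by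
      constructor
      rintro n ⟨hn, hn'⟩ s
      have hm : s * n * s⁻¹ ∈ W := hWn.conj_mem _ hn s
      refine ⟨hm, ?_⟩
      have h10 := hb1 (s * n * s⁻¹) s
      beta_reduce at h10
      have h11 : c (res K (s * n * s⁻¹)) (res K s) = c 1 (res K s) := by
        have := h1 1 (res K s) (res K (s * n * s⁻¹)) hm 1 N1.one_mem
        rw [one_mul, mul_one] at this
        exact this
      have h12 := hb1 1 s
      beta_reduce at h12
      rw [map_one, one_mul] at h12
      rw [h11, h12, inv_mul_cancel_right, h5 s n hn, h8, hn'] at h10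
      have e1 : ∀ a s y : ZMod 2, a + s + s = y + s + (s + a + a) → y = a := by decide
      exact e1 _ _ _ h10
    -- the index
    let gW : W →* Multiplicative (ZMod 2) :=
      { toFun := fun n => Multiplicative.ofAdd (b0 n + b0 1)
        map_one' := by
          change Multiplicative.ofAdd (b0 1 + b0 1) = 1
          rw [z2_add_self]; rfl
        map_mul' := by
          intro a b
          change Multiplicative.ofAdd (b0 ((a : Om ≃ₐ[L] Om) * (b : Om ≃ₐ[L] Om)) + b0 1) =
            Multiplicative.ofAdd ((b0 a + b0 1) + (b0 b + b0 1))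
          rw [h5 _ _ b.2, h8]
          congr 1
          ring }
    have hker : W0.subgroupOf W = gW.ker := by
      ext n
      rw [Subgroup.mem_subgroupOf, MonoidHom.mem_ker]
      constructor
      · rintro ⟨_, h10⟩
        change Multiplicative.ofAdd (b0 n + b0 1) = 1
        rw [h10, z2_add_self]; rfl
      · intro h10
        have h11 : b0 n + b0 1 = 0 := h10
        exact ⟨n.2, CharTwo.add_eq_zero.1 h11⟩
    have hidx : W0.index ∣ 2 * N1.index := by
      have hle0 : W0 ≤ W := fun n hn => hn.1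
      rw [← Subgroup.relIndex_mul_index hle0]
      refine mul_dvd_mul ?_ ?_
      · rw [Subgroup.relIndex, hker, Subgroup.index_ker]
        have h13 : Nat.card gW.range ∣ Nat.card (Multiplicative (ZMod 2)) :=
          Subgroup.card_subgroup_dvd_card gW.range
        rwa [Nat.card_congr Multiplicative.toAdd, Nat.card_zmod] at h13
      · rw [hW, Subgroup.index_comap]
        have := NP.normal hN1
        exact Subgroup.relIndex_dvd_index_of_normal N1 _
    have hW0NP : W0 ∈ NP L Om := by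
      refine ⟨hW0n, hW0o, fun h0' => ?_⟩
      obtain ⟨m, hm⟩ := hidx
      have h14 : ((2 * N1.index : ℕ) : L) = 0 := by rw [hm, Nat.cast_mul, h0', zero_mul]
      rw [Nat.cast_mul, Nat.cast_ofNat] at h14
      rcases mul_eq_zero.1 h14 with h | h
      · exact h2' h
      · refine NP.index_ne hN1 ((algebraMap K L).injective ?_)
        rw [map_natCast, map_zero]
        exact h
    obtain ⟨N, hN, hNN0, hNN'⟩ := exists_NP_le_map hN0 hle hW0NP
    rw [Sys.TFOn, hS.NN]
    refine ⟨N, hN, ?_⟩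
    rintro _ ⟨s, rfl⟩ n hn _
    obtain ⟨n', hn', rfl⟩ := hNN' hn
    rw [← map_mul, extZ_res, extZ_res, h5 s n' hn'.1, h8, hn'.2]
    have e1 : ∀ a s : ZMod 2, s + a + a = s := by decide
    exact e1 _ _
  · rintro _ ⟨s, rfl⟩ _ ⟨t, rfl⟩
    rw [← map_mul, extZ_res, extZ_res, extZ_res]
    exact hb1 s t


section bij

variable (L S) in
/-- The place of `L` attached to an orbit. -/
noncomputable def pO (r : X → (Om ≃ₐ[K] Om))
    (o : Σ v : Place k K, orbitRel.Quotient (S.D v) X) : Place k L := pL L r o.1 o.2.out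

variable (hr : ∀ x, r x • x = x0) (hst : stabilizer (Om ≃ₐ[K] Om) x0 = rg K L Om)

include hr hst

theorem pL_mk (hS : IsStd S) (v : Place k K) (x : X) :
    pL L r v x = pO L S r ⟨v, Quotient.mk _ x⟩ := by
  have h1 : (Quotient.mk (orbitRel (S.D v) X) x).out ∈ orbit (S.D v) x :=
    Quotient.mk_out (s := orbitRel (S.D v) X) x
  obtain ⟨d, hd⟩ := h1
  unfold pO
  have h3 : (Quotient.mk (orbitRel (S.D v) X) x).out = (d : Om ≃ₐ[K] Om) • x := hd.symm
  change pL L r v x = pL L r v (Quotient.mk (orbitRel (S.D v) X) x).out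
  rw [h3, pL_smul hr hst]
  rw [← hS.D]
  exact d.2

theorem pO_bij (hS : IsStd S) : Function.Bijective (pO L S r) := by
  constructor
  · rintro ⟨v, o⟩ ⟨v', o'⟩ h
    obtain ⟨hv, d, hd, hdx⟩ := pL_inj (L := L) hr hst h
    change v = v' at hv
    subst hv
    change d • o.out = o'.out at hdx
    have h1 : o = o' := by
      rw [← Quotient.out_eq o, ← Quotient.out_eq o']
      refine (Quotient.sound (s := orbitRel (S.D v) X) ?_).symm
      refine ⟨⟨d, by rw [hS.D]; exact hd⟩, hdx⟩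
    rw [h1]
  · intro u
    obtain ⟨v, x, h⟩ := pL_surj (L := L) hr hst u
    exact ⟨⟨v, Quotient.mk _ x⟩, by rw [← pL_mk hr hst hS, h]⟩

end bij

/-- A sum over the places of `L` above `T`. -/
theorem sum_above {P : Type} {Q : Place k K → Type} [∀ v, Finite (Q v)] (e : (Σ v, Q v) ≃ P)
    (T : Finset (Place k K)) (f : P → ZMod 2) :
    ∑ᶠ u ∈ {u : P | (e.symm u).1 ∈ T}, f u = ∑ v ∈ T, ∑ᶠ o : Q v, f (e ⟨v, o⟩) := by
  classical
  have : ∀ v, Fintype (Q v) := fun v => Fintype.ofFinite _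
  have h1 : {u : P | (e.symm u).1 ∈ T} = e '' ((T.sigma fun v => (Finset.univ : Finset (Q v)) :
      Finset (Σ v, Q v)) : Set (Σ v, Q v)) := by
    ext u
    constructor
    · intro hu
      refine ⟨e.symm u, ?_, e.apply_symm_apply u⟩
      rw [Finset.mem_coe, Finset.mem_sigma]
      exact ⟨hu, Finset.mem_univ _⟩
    · rintro ⟨o, ho, rfl⟩
      rw [Finset.mem_coe, Finset.mem_sigma] at ho
      rw [Set.mem_ofPred_eq, e.symm_apply_apply]
      exact ho.1
  rw [h1, finsum_mem_image e.injective.injOn, finsum_mem_coe_finset, Finset.sum_sigma]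
  refine Finset.sum_congr rfl fun v _ => ?_
  rw [finsum_eq_sum_of_fintype]

theorem sum_all {P : Type} {Q : Place k K → Type} [∀ v, Finite (Q v)] (e : (Σ v, Q v) ≃ P)
    (f : P → ZMod 2) (hf : (Function.support f).Finite) :
    ∑ᶠ u, f u = ∑ᶠ v, ∑ᶠ o : Q v, f (e ⟨v, o⟩) := by
  classical
  set T : Finset (Place k K) := hf.toFinset.image fun u => (e.symm u).1 with hT
  have h1 : ∑ᶠ u, f u = ∑ᶠ u ∈ {u : P | (e.symm u).1 ∈ T}, f u := by
    rw [← finsum_mem_univ]
    refine finsum_mem_inter_support_eq' f _ _ fun u hu => ?_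
    refine iff_of_true trivial ?_
    rw [Set.mem_ofPred_eq, hT, Finset.mem_image]
    exact ⟨u, hf.mem_toFinset.2 hu, rfl⟩
  rw [h1, sum_above e T f]
  rw [finsum_eq_sum_of_support_subset]
  intro v hv
  rw [Finset.mem_coe, hT, Finset.mem_image]
  have h3 : ∃ o : Q v, f (e ⟨v, o⟩) ≠ 0 := by
    by_contra h4
    push Not at h4
    apply hv
    change ∑ᶠ o : Q v, f (e ⟨v, o⟩) = 0
    rw [finsum_congr h4, finsum_zero]
  obtain ⟨o, ho⟩ := h3
  exact ⟨e ⟨v, o⟩, hf.mem_toFinset.2 ho, by rw [e.symm_apply_apply]⟩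

/-- The statements over `L` for the instance. -/
theorem lOk [Nonempty X] (h2 : (2 : k) ≠ 0) (hS : IsStd S) (hr : ∀ x, r x • x = x0)
    (hst : stabilizer (Om ≃ₐ[K] Om) x0 = rg K L Om)
    (htriv : ∃ N ∈ NP K Om, ∀ n ∈ N, ∀ x : X, n • x = x) (hE : OrbE S (fun v => qK v) E)
    (hH : HasseZ L Om) : ∃ T0 : Finset (Place k K), LOk S (fun v => qK v) E x0 r T0 := by
  classical
  have hgalK : IsGalois K Om := inferInstance
  have h2' : (2 : L) ≠ 0 := two_ne_K h2
  -- the elements over `L`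
  have hsL : ∀ v x, ∃ s : Om ≃ₐ[L] Om, res K s = r x * sgx S E v x * (r x)⁻¹ := by
    intro v x
    obtain ⟨s, hs⟩ := (conj_mem_rg (L := L) hr hst (s := sgx S E v x) (x := x)).2 (hE.efj v x).sg_fix
    exact ⟨s, hs⟩
  have hpL : ∀ v x, ∃ s : Om ≃ₐ[L] Om, res K s = r x * phx S E v x * (r x)⁻¹ := by
    intro v x
    obtain ⟨s, hs⟩ := (conj_mem_rg (L := L) hr hst (s := phx S E v x) (x := x)).2 (hE.efj v x).ph_fix
    exact ⟨s, hs⟩
  choose s' hs' using hsL
  choose p' hp' using hpL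
  have hLV := fun v x => lval_pL (L := L) hr hst h2 hS htriv hE v x (hs' v x) (hp' v x)
  let e : (Σ v : Place k K, orbitRel.Quotient (S.D v) X) ≃ Place k L :=
    Equiv.ofBijective _ (pO_bij (L := L) hr hst hS)
  have he : ∀ v o, e ⟨v, o⟩ = pL L r v o.out := fun v o => rfl
  have hfinQ : ∀ v : Place k K, Finite (orbitRel.Quotient (S.D v) X) := fun v => Quotient.finite _
  let sgL : Place k L → (Om ≃ₐ[L] Om) := fun u => s' (e.symm u).1 (e.symm u).2.out
  let phL : Place k L → (Om ≃ₐ[L] Om) := fun u => p' (e.symm u).1 (e.symm u).2.out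
  have hsgL : ∀ v o, sgL (e ⟨v, o⟩) = s' v o.out := fun v o => by
    change s' (e.symm (e ⟨v, o⟩)).1 (e.symm (e ⟨v, o⟩)).2.out = _
    rw [e.symm_apply_apply]
  have hphL : ∀ v o, phL (e ⟨v, o⟩) = p' v o.out := fun v o => by
    change p' (e.symm (e ⟨v, o⟩)).1 (e.symm (e ⟨v, o⟩)).2.out = _
    rw [e.symm_apply_apply]
  have H : LocVals sgL phL := by
    intro u
    have h1 := (hLV (e.symm u).1 (e.symm u).2.out).1
    have h3 : pL L r (e.symm u).1 (e.symm u).2.out = u := e.apply_symm_apply u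
    rw [h3] at h1
    exact h1
  -- values
  have hlp : ∀ (b : (Om ≃ₐ[K] Om) → ZMod 2) v x,
      lp S E r v x b = (b (res K (s' v x)), b (res K (p' v x))) := by
    intro b v x
    rw [hs', hp']
    rfl
  have hlpc : ∀ (c : (Om ≃ₐ[L] Om) → ZMod 2) v x,
      lp S E r v x (extZ c) = (c (s' v x), c (p' v x)) := by
    intro c v x
    rw [hlp, extZ_res, extZ_res]
  -- the first value depends only on the place of `L`
  have hfst : ∀ {c : (Om ≃ₐ[L] Om) → ZMod 2}, HomO c → ∀ v x, c (s' v x) = c (sgL (pL L r v x)) := by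
    intro c hc v x
    obtain ⟨a, ha, hca⟩ := hc.kummer h2'
    rw [hca, hca, (hLV v x).1.chi_sg h2' ha, (H _).chi_sg h2' ha]
  -- the finite set
  obtain ⟨geo, _⟩ := Pool.Agent.GBC.exists_geo k L
  obtain ⟨SL, hSLf, -, hSLne, hSLP⟩ := exists_S geo (∅ : Set (Place k L)) Set.finite_empty
  obtain ⟨N0, hN0, h0⟩ := id htriv
  have hunr := unrK (Om := Om) h2 (NP.isOpen hN0)
  have hpe : ∀ v x, pL L r v x = e ⟨v, Quotient.mk _ x⟩ := fun v x => pL_mk hr hst hS v x
  have hpes : ∀ v x, (e.symm (pL L r v x)).1 = v := by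
    intro v x
    rw [hpe, e.symm_apply_apply]
  set T0 : Finset (Place k K) := (hSLf.toFinset.image fun u => (e.symm u).1) ∪ hunr.toFinset
    with hT0
  have hST : ∀ T : Finset (Place k K), T0 ⊆ T → SL ⊆ {u : Place k L | (e.symm u).1 ∈ T} := by
    intro T hT u hu
    apply hT
    rw [hT0, Finset.mem_union, Finset.mem_image]
    exact Or.inl ⟨u, hSLf.mem_toFinset.2 hu, rfl⟩
  have hSTf : ∀ T : Finset (Place k K), {u : Place k L | (e.symm u).1 ∈ T}.Finite := by
    intro T
    have : ∀ v : Place k K, Fintype (orbitRel.Quotient (S.D v) X) := fun v => Fintype.ofFinite _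
    refine ((T.sigma fun v => (Finset.univ : Finset (orbitRel.Quotient (S.D v) X))).finite_toSet.image
      e).subset ?_
    intro u hu
    refine ⟨e.symm u, ?_, e.apply_symm_apply u⟩
    rw [Finset.mem_coe, Finset.mem_sigma]
    exact ⟨hu, Finset.mem_univ _⟩
  refine ⟨T0, ?_, ?_, ?_, ?_, ?_, ?_⟩
  · -- unramified
    intro v hv x
    rw [hS.sg]
    refine h0 _ ?_ x
    by_contra h
    apply hv
    rw [hT0, Finset.mem_union]
    exact Or.inr (hunr.mem_toFinset.2 h)
  · -- reciprocity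
    intro b b' hb hb'
    have hc := homO_of_homH (L := L) hS hst hb
    have hc' := homO_of_homH (L := L) hS hst hb'
    have h1 := recipK h2 H hc hc'
    obtain ⟨a, ha, hca⟩ := hc.kummer h2'
    obtain ⟨a', ha', hca'⟩ := hc'.kummer h2'
    rw [sum_all e _ ?_] at h1
    · rw [← h1]
      refine finsum_congr fun v => finsum_congr fun o => ?_
      rw [hsgL, hphL, hlp, hlp]
      unfold symK sym
      rw [he, (hLV v o.out).2]
    · refine (Pool.Agent.GBU.even_bad (k := k) h2 ha ha').1.subset fun u hu => ?_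
      rw [Function.mem_support] at hu
      intro h3
      apply hu
      rw [hca, hca, hca', hca', (H u).sym_eq_zero_iff h2 ha ha']
      exact h3
  · -- injectivity
    intro T hT b hb hu ht
    have hc := homO_of_homH (L := L) hS hst hb
    have h1 := lag_inj h2 H (hSTf T) (hSLP.mono (hST T hT)) hc ?_ ?_
    · intro s hs
      rw [hst] at hs
      obtain ⟨s, rfl⟩ := hs
      exact h1 s
    · intro u hu'
      obtain ⟨⟨v, o⟩, rfl⟩ := e.surjective u
      rw [Set.mem_ofPred_eq, e.symm_apply_apply] at hu'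
      rw [hsgL]
      have h3 := hu v hu' o.out
      rw [hlp] at h3
      exact h3
    · intro u hu'
      obtain ⟨⟨v, o⟩, rfl⟩ := e.surjective u
      rw [Set.mem_ofPred_eq, e.symm_apply_apply] at hu'
      rw [hsgL, hphL]
      have h3 := ht v hu' o.out
      rw [hlp] at h3
      exact Prod.mk.inj h3
  · -- duality
    intro T hT xi horth
    obtain ⟨om, hom, h1, h3⟩ := lag_surj h2 H (hSTf T) (hSLP.mono (hST T hT))
      (fun u => xi (e.symm u).1 (e.symm u).2) (by
        intro c hc hcu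
        rw [sum_above e T]
        rw [← horth (extZ c) (homH_extZ h2 hS hst htriv hc) ?_]
        · refine Finset.sum_congr rfl fun v _ => finsum_congr fun o => ?_
          rw [hsgL, hphL, hlpc, e.symm_apply_apply]
          unfold symK sym
          rw [he, (hLV v o.out).2]
        · intro v hv x
          rw [hlpc, hfst hc]
          refine hcu _ ?_
          rw [Set.mem_ofPred_eq, hpes]
          exact hv)
    refine ⟨extZ om, homH_extZ h2 hS hst htriv hom, ?_, ?_⟩
    · intro v hv x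
      rw [hlpc, hfst hom]
      refine h1 _ ?_
      rw [Set.mem_ofPred_eq, hpes]
      exact hv
    · intro v hv o
      have h4 := h3 (e ⟨v, o⟩) (by rw [Set.mem_ofPred_eq, e.symm_apply_apply]; exact hv)
      rw [hsgL, hphL, e.symm_apply_apply] at h4
      rw [hlpc]
      exact h4
  · -- one ramified place
    intro T hT w hw o
    have hu0 : e ⟨w, o⟩ ∉ {u : Place k L | (e.symm u).1 ∈ T} := by
      rw [Set.mem_ofPred_eq, e.symm_apply_apply]
      exact hw
    obtain ⟨c, hc, h1, h3⟩ := lag_ram h2 H (hSLP.mono (hST T hT)) hu0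
    refine ⟨extZ c, homH_extZ h2 hS hst htriv hc, ?_, ?_, ?_⟩
    · intro v hv hvw x
      rw [hlpc, hfst hc]
      refine h3 _ (by rw [Set.mem_ofPred_eq, hpes]; exact hv) fun h => hvw ?_
      have := congrArg (fun u => (e.symm u).1) h
      beta_reduce at this
      rw [hpes, e.symm_apply_apply] at this
      exact this
    · intro x hx
      rw [hlpc, hfst hc]
      have h4 : pL L r w x = e ⟨w, o⟩ := by
        obtain ⟨d, hd⟩ := hx
        change (d : Om ≃ₐ[K] Om) • o.out = x at hd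
        rw [← hd, pL_smul hr hst w o.out (by rw [← hS.D]; exact d.2)]
        exact (he w o).symm
      rw [h4]
      exact h1
    · intro x hx
      rw [hlpc, hfst hc]
      refine h3 _ (by rw [Set.mem_ofPred_eq, hpes]; exact hw) fun h => hx ?_
      obtain ⟨-, d, hd, hdx⟩ := pL_inj (L := L) hr hst (h.trans (he w o))
      refine ⟨⟨d⁻¹, by rw [hS.D]; exact (dvK Om w).inv_mem hd⟩, ?_⟩
      change d⁻¹ • o.out = x
      rw [← hdx, inv_smul_smul]
  · exact fun c hcf hc hloc => hasse_std hH h2 hS hst htriv c hcf hc hloc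

end main

end Pool.Agent.SmN.F
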