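import Pool.Agent.Lib.SmN.F.LOk
import Pool.Agent.Lib.GBU.Plc
import Pool.Agent.Lib.GBU.Sub
import Pool.Agent.Lib.SmD.Conj

/-!
# SmN, block F: the places of `L` above the places of `K`

`L / K` finite, `Gal(Om / L)` = stabiliser of `x0 : X`. For `(v, x)` the place `pL v x` of `L` is the one
below `r x • abK v`. Every place of `L` is some `pL v x`, and `pL v x = pL v' x'` iff `v = v'` and
`x, x'` are in the same orbit of `D v`.
-/

set_option autoImplicit false
set_option linter.unusedSectionVars false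

open IsLocalRing

namespace Pool.Agent.SmN.F

open MulAction Pool.Agent.GBU Pool.Agent.BSDFF Pool.Agent.Lib.SmD

section tr

variable {K Om : Type*} [Field K] [Field Om] [Algebra K Om]

/-- The image of a valuation subring under an automorphism. -/
def tr (g : Om ≃ₐ[K] Om) (w : ValuationSubring Om) : ValuationSubring Om :=
  w.comap (((g⁻¹ : Om ≃ₐ[K] Om) : Om ≃+* Om) : Om →+* Om)

theorem mem_tr {g : Om ≃ₐ[K] Om} {w : ValuationSubring Om} {x : Om} :
    x ∈ tr g w ↔ g⁻¹ x ∈ w := Iff.rfl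

theorem below_tr (g : Om ≃ₐ[K] Om) (w : ValuationSubring Om) : below K (tr g w) = below K w := by
  ext x
  rw [ValuationSubring.mem_comap, ValuationSubring.mem_comap, mem_tr, AlgEquiv.commutes]

theorem tr_mul (g h : Om ≃ₐ[K] Om) (w : ValuationSubring Om) : tr (g * h) w = tr g (tr h w) := by
  ext x
  rw [mem_tr, mem_tr, mem_tr, mul_inv_rev, AlgEquiv.mul_apply]

theorem tr_ne_top {g : Om ≃ₐ[K] Om} {w : ValuationSubring Om} (hw : w ≠ ⊤) : tr g w ≠ ⊤ := by
  intro h
  apply hw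
  rw [eq_top_iff]
  intro x _
  have h1 : g x ∈ tr g w := by rw [h]; trivial
  rw [mem_tr, ← AlgEquiv.mul_apply, inv_mul_cancel] at h1
  exact h1

theorem mem_dec_iff_tr {g : Om ≃ₐ[K] Om} {w : ValuationSubring Om} : g ∈ dec K w ↔ tr g w = w := by
  rw [mem_dec]
  constructor
  · intro h
    ext x
    rw [mem_tr, ← h, ← AlgEquiv.mul_apply, mul_inv_cancel, AlgEquiv.one_apply]
  · intro h x
    have h1 : g x ∈ tr g w ↔ x ∈ w := by
      rw [mem_tr, ← AlgEquiv.mul_apply, inv_mul_cancel, AlgEquiv.one_apply]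
    rw [h] at h1
    exact h1

theorem mem_dec_tr {g s : Om ≃ₐ[K] Om} {w : ValuationSubring Om} :
    s ∈ dec K (tr g w) ↔ g⁻¹ * s * g ∈ dec K w := by
  rw [mem_dec, mem_dec]
  constructor
  · intro h x
    have h1 := h (g x)
    rw [mem_tr, mem_tr, ← AlgEquiv.mul_apply g⁻¹ g, inv_mul_cancel, AlgEquiv.one_apply] at h1
    exact h1
  · intro h x
    have h1 := h (g⁻¹ x)
    rw [mem_tr, mem_tr]
    have h2 : (g⁻¹ * s * g) (g⁻¹ x) = g⁻¹ (s x) := by
      rw [← AlgEquiv.mul_apply, mul_assoc, mul_assoc, mul_inv_cancel, mul_one, AlgEquiv.mul_apply]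
    rw [h2] at h1
    exact h1

theorem val_lt_tr {g : Om ≃ₐ[K] Om} {w : ValuationSubring Om} {x : Om} :
    (tr g w).valuation x < 1 ↔ w.valuation (g⁻¹ x) < 1 := by
  rw [← ValuationSubring.mem_nonunits_iff, ← ValuationSubring.mem_nonunits_iff,
    ValuationSubring.mem_nonunits_iff_or, ValuationSubring.mem_nonunits_iff_or, mem_tr, map_inv₀,
    map_eq_zero_iff _ (AlgEquiv.injective _)]

theorem mem_iner_tr {g s : Om ≃ₐ[K] Om} {w : ValuationSubring Om} :
    s ∈ iner K (tr g w) ↔ g⁻¹ * s * g ∈ iner K w := by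
  rw [mem_iner, mem_iner, mem_dec_tr]
  refine and_congr_right fun _ => ⟨fun h x hx => ?_, fun h x hx => ?_⟩
  · have h1 := h (g x) (by
      rw [mem_tr, ← AlgEquiv.mul_apply, inv_mul_cancel, AlgEquiv.one_apply]
      exact hx)
    rw [val_lt_tr, map_sub, ← AlgEquiv.mul_apply g⁻¹ g, inv_mul_cancel, AlgEquiv.one_apply] at h1
    exact h1
  · rw [mem_tr] at hx
    have h1 := h _ hx
    rw [val_lt_tr, map_sub]
    have h2 : (g⁻¹ * s * g) (g⁻¹ x) = g⁻¹ (s x) := by
      rw [← AlgEquiv.mul_apply, mul_assoc, mul_assoc, mul_inv_cancel, mul_one, AlgEquiv.mul_apply]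
    rw [h2] at h1
    exact h1

theorem isFrob_tr {g φ : Om ≃ₐ[K] Om} {w : ValuationSubring Om} (h : IsFrob K w φ) :
    IsFrob K (tr g w) (g * φ * g⁻¹) := by
  refine ⟨?_, fun x hx => ?_⟩
  · rw [mem_dec_tr]
    have h1 : g⁻¹ * (g * φ * g⁻¹) * g = φ := by group
    rw [h1]
    exact h.mem
  · rw [mem_tr] at hx
    rw [val_lt_tr, below_tr, map_sub, map_pow]
    have h2 : g⁻¹ ((g * φ * g⁻¹) x) = φ (g⁻¹ x) := by
      rw [← AlgEquiv.mul_apply, ← AlgEquiv.mul_apply]
      congr 1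
      group
    rw [h2]
    exact h.frob _ hx

theorem isTG_tr {g τ : Om ≃ₐ[K] Om} {w : ValuationSubring Om} (h : IsTG K w τ) :
    IsTG K (tr g w) (g * τ * g⁻¹) := by
  refine ⟨?_, fun N hN σ hσ => ?_⟩
  · rw [mem_iner_tr]
    have h1 : g⁻¹ * (g * τ * g⁻¹) * g = τ := by group
    rw [h1]
    exact h.mem
  · obtain ⟨n, hn⟩ := h.gen N hN _ (mem_iner_tr.1 hσ)
    refine ⟨n, ?_⟩
    have h1 : ((g * τ * g⁻¹) ^ n)⁻¹ * σ = g * ((τ ^ n)⁻¹ * (g⁻¹ * σ * g)) * g⁻¹ := by
      rw [conj_pow]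
      group
    rw [h1]
    exact (NP.normal hN).conj_mem _ hn _

/-- Places above the same place are conjugate. -/
theorem exists_tr [IsGalois K Om] {w w' : ValuationSubring Om} (h : below K w = below K w') :
    ∃ g : Om ≃ₐ[K] Om, w' = tr g w := by
  obtain ⟨σ, hσ⟩ := conj K w w' h
  refine ⟨σ, ?_⟩
  ext x
  rw [mem_tr, ← hσ, ← AlgEquiv.mul_apply, mul_inv_cancel, AlgEquiv.one_apply]

theorem tr_res {L : Type*} [Field L] [Algebra K L] [Algebra L Om] [IsScalarTower K L Om]
    (h : Om ≃ₐ[L] Om) (w : ValuationSubring Om) : tr (res K h) w = tr h w := by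
  ext x
  rw [mem_tr, mem_tr, ← map_inv]
  exact Iff.rfl

end tr

section match_

variable {k K L : Type} [Field k] [Finite k] [Field K] [Algebra k K] [Algebra (RatFunc k) K]
  [IsScalarTower k (RatFunc k) K] [FiniteDimensional (RatFunc k) K]
  [Algebra.IsSeparable (RatFunc k) K]
  [Field L] [Algebra k L] [Algebra (RatFunc k) L]
  [IsScalarTower k (RatFunc k) L] [FiniteDimensional (RatFunc k) L]
  [Algebra.IsSeparable (RatFunc k) L] [Algebra K L] [FiniteDimensional K L]
  {Om : Type} [Field Om] [Algebra K Om] [IsSepClosure K Om] [Algebra L Om] [IsSepClosure L Om]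
  [IsScalarTower K L Om]
  {X : Type} [MulAction (Om ≃ₐ[K] Om) X]

/-- The place of `Om` attached to `(v, x)`. -/
noncomputable def wx (r : X → (Om ≃ₐ[K] Om)) (v : Place k K) (x : X) : ValuationSubring Om :=
  tr (r x) (abK Om v)

theorem wx_ne_top (r : X → (Om ≃ₐ[K] Om)) (v : Place k K) (x : X) : wx r v x ≠ ⊤ :=
  tr_ne_top (abK_ne_top Om v)

theorem below_wx (r : X → (Om ≃ₐ[K] Om)) (v : Place k K) (x : X) :
    below K (wx r v x) = v.ring := by
  unfold wx
  rw [below_tr, below_abK]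

variable (L) in
theorem exists_pL (r : X → (Om ≃ₐ[K] Om)) (v : Place k K) (x : X) :
    ∃ u : Place k L, u.ring = below L (wx r v x) := by
  have : Algebra.IsAlgebraic L Om := (IsSepClosure.separable (k := L) (K := Om)).isAlgebraic
  exact exists_place_below k L _ (wx_ne_top r v x)

variable (L) in
/-- The place of `L` attached to `(v, x)`. -/
noncomputable def pL (r : X → (Om ≃ₐ[K] Om)) (v : Place k K) (x : X) : Place k L :=
  (exists_pL L r v x).choose

theorem pL_ring (r : X → (Om ≃ₐ[K] Om)) (v : Place k K) (x : X) :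
    (pL L r v x).ring = below L (wx r v x) := (exists_pL L r v x).choose_spec

variable {x0 : X} {r : X → (Om ≃ₐ[K] Om)} (hr : ∀ x, r x • x = x0)
  (hst : stabilizer (Om ≃ₐ[K] Om) x0 = rg K L Om)

include hr hst

theorem pL_smul (v : Place k K) (x : X) {d : Om ≃ₐ[K] Om} (hd : d ∈ dvK Om v) :
    pL L r v (d • x) = pL L r v x := by
  apply Place.ext'
  rw [pL_ring, pL_ring]
  -- `h = r (d x) d (r x)⁻¹` fixes `x0`
  have h1 : r (d • x) * d * (r x)⁻¹ ∈ rg K L Om := by
    rw [← hst, mem_stabilizer_iff, mul_smul, mul_smul]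
    have h2 : (r x)⁻¹ • x0 = x := by rw [← hr x, inv_smul_smul]
    rw [h2, hr]
  obtain ⟨h, hh⟩ := h1
  have h3 : wx r v (d • x) = tr h (wx r v x) := by
    rw [← tr_res (K := K), hh]
    unfold wx
    rw [← tr_mul]
    have h4 : r (d • x) * d * (r x)⁻¹ * r x = r (d • x) * d := by group
    rw [h4, tr_mul, mem_dec_iff_tr.1 hd]
  rw [h3, below_tr]

theorem pL_inj {v v' : Place k K} {x x' : X} (h : pL L r v x = pL L r v' x') :
    v = v' ∧ ∃ d ∈ dvK Om v, d • x = x' := by
  have hgal : IsGalois L Om := inferInstance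
  have h1 : below L (wx r v x) = below L (wx r v' x') := by
    rw [← pL_ring, ← pL_ring, h]
  have hv : v = v' := by
    apply Place.ext'
    rw [← below_wx r v x, ← below_wx r v' x', ← below_below K (L := L), h1, below_below]
  subst hv
  refine ⟨rfl, ?_⟩
  obtain ⟨g, hg⟩ := exists_tr h1
  rw [← tr_res (K := K)] at hg
  unfold wx at hg
  refine ⟨(r x')⁻¹ * res K g * r x, ?_, ?_⟩
  · rw [mem_dec_iff_tr, tr_mul, tr_mul, ← hg, ← tr_mul, inv_mul_cancel]
    ext y
    rw [mem_tr, inv_one, AlgEquiv.one_apply]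
  · rw [mul_smul, mul_smul, hr]
    have h2 : res K g • x0 = x0 := by
      have h3 : res K g ∈ stabilizer (Om ≃ₐ[K] Om) x0 := by rw [hst]; exact ⟨g, rfl⟩
      exact h3
    rw [h2, ← hr x', inv_smul_smul]

theorem pL_surj (u : Place k L) : ∃ v x, pL L r v x = u := by
  have hgal : IsGalois K Om := inferInstance
  have hgal' : IsGalois L Om := inferInstance
  have halg : Algebra.IsAlgebraic K Om := (IsSepClosure.separable (k := K) (K := Om)).isAlgebraic
  obtain ⟨v, hv⟩ := exists_place_below k K (abK Om u) (abK_ne_top Om u)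
  have h1 : below K (abK Om v) = below K (abK Om u) := by rw [below_abK, hv]
  obtain ⟨g, hg⟩ := exists_tr h1
  refine ⟨v, g⁻¹ • x0, Place.ext' ?_⟩
  rw [pL_ring]
  set x := g⁻¹ • x0 with hx
  have h2 : r x * g⁻¹ ∈ rg K L Om := by
    rw [← hst, mem_stabilizer_iff, mul_smul, ← hx, hr]
  obtain ⟨h, hh⟩ := h2
  have h3 : wx r v x = tr h (abK Om u) := by
    rw [← tr_res (K := K), hh, hg, ← tr_mul]
    unfold wx
    congr 1
    group
  rw [h3, below_tr, below_abK]

end match_

end Pool.Agent.SmN.F
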