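import Pool.Agent.Lib.SmN.Loc.Orb

/-!
# SmN, block F: the orbit formula for a local group acting on `X`

`D` a subgroup of `G` generated modulo every `N` in `NN` by `ph`, `sg`, with `ph sg = sg ^ q ph`
modulo every `N`, acting on the finite set `X` through some `N0` in `NN`. For `x : X` there are
`e, f, j` with: `sg ^ e`, `sg ^ j * ph ^ f` fix `x`, they generate the stabiliser of `x` in `D` modulo
every `N`, and for every `NN`-finite 2-cocycle `B` of `D` in `X → ZMod 2` the invariant of `B · · x`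
with respect to them is the sum over the orbit of `x` of the invariants of `B · · x'`.
-/

set_option autoImplicit false

open Finset

namespace Pool.Agent.SmN.F

open MulAction Loc

variable {G X : Type*} [Group G] [MulAction G X]

/-- The local data used here. -/
structure LG (NN : Set (Subgroup G)) (D : Subgroup G) (sg ph : G) (q : ℕ) (X : Type*)
    [MulAction G X] : Prop where
  normal : ∀ N ∈ NN, N.Normal
  inf_mem : ∀ N ∈ NN, ∀ N' ∈ NN, N ⊓ N' ∈ NN
  fin : ∀ N ∈ NN, N.FiniteIndex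
  q_odd : Odd q
  sg_mem : sg ∈ D
  ph_mem : ph ∈ D
  gen : ∀ N ∈ NN, ∀ s ∈ D, ∃ t ∈ Subgroup.closure {ph, sg}, t⁻¹ * s ∈ N
  rel : ∀ N ∈ NN, (sg ^ q)⁻¹ * (ph * sg * ph⁻¹) ∈ N
  triv : ∃ N ∈ NN, ∀ n ∈ N, ∀ x : X, n • x = x

/-- The properties of the exponents `e, f, j` at `x`. -/
structure Efj (D : Subgroup G) (sg ph : G) (x : X) (e f j : ℕ) : Prop where
  e_pos : 0 < e
  f_pos : 0 < f
  sg_fix : sg ^ e • x = x
  ph_fix : (sg ^ j * ph ^ f) • x = x
  e_min : ∀ l : ℤ, sg ^ l • x = x → (e : ℤ) ∣ l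
  f_min : ∀ (n : ℕ) (a : ℤ), 0 < n → (sg ^ a * ph ^ n) • x = x → f ≤ n

variable {NN : Set (Subgroup G)} {D : Subgroup G} {sg ph : G} {q : ℕ}

section quot

variable (D) (N : Subgroup G)

/-- The quotient of `D` by `N ⊓ D`. -/
abbrev Dq [N.Normal] : Type _ := D ⧸ (N.subgroupOf D)

end quot

theorem exists_efj_orbit [Finite X] (h : LG NN D sg ph q X) (x : X) :
    ∃ e f j : ℕ, Efj D sg ph x e f j ∧ (∀ y ∈ orbit D x, sg ^ e • y = y) ∧
      ∀ w : orbit D x → ZMod 2,
        ∑ i ∈ range f, ∑ l ∈ range e,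
          w ((⟨sg, h.sg_mem⟩ ^ j * ⟨ph, h.ph_mem⟩ ^ i * ⟨sg, h.sg_mem⟩ ^ (q * l) : D)⁻¹ •
            ⟨x, mem_orbit_self x⟩) = ∑ᶠ r', w r' := by
  classical
  have : Finite (orbit D x) := inferInstance
  have : Fintype (orbit D x) := Fintype.ofFinite _
  obtain ⟨N, hN, hX⟩ := h.triv
  set s0 : D := ⟨sg, h.sg_mem⟩ with hs0
  set p0 : D := ⟨ph, h.ph_mem⟩ with hp0
  set π : D →* Equiv.Perm (orbit D x) := MulAction.toPermHom D (orbit D x) with hπ
  have hπa : ∀ (s : D) (y : orbit D x), π s y = s • y := fun _ _ => rfl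
  have hN1 : ∀ s : D, (s : G) ∈ N → π s = 1 := by
    intro s hs
    ext y
    rw [hπa, Equiv.Perm.one_apply, orbit.coe_smul]
    exact hX _ hs _
  have h1 : π p0 * π s0 = π s0 ^ q * π p0 := by
    have h2 := hN1 ((s0 ^ q)⁻¹ * (p0 * s0 * p0⁻¹)) (by
      have := h.rel N hN
      simpa [hs0, hp0] using this)
    rw [map_mul, map_inv, inv_mul_eq_one] at h2
    rw [← map_mul, ← map_pow, h2, ← map_mul, inv_mul_cancel_right]
  have ht : ∀ y z : orbit D x, ∃ k ∈ Subgroup.closure ({π p0, π s0} : Set (Equiv.Perm _)),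
      k y = z := by
    intro y z
    obtain ⟨d, hd⟩ := MulAction.exists_smul_eq D y z
    obtain ⟨t, ht, htN⟩ := h.gen N hN d d.2
    have hcl : Subgroup.closure ({ph, sg} : Set G) ≤ D := by
      rw [Subgroup.closure_le]
      rintro _ (rfl | rfl)
      · exact h.ph_mem
      · exact h.sg_mem
    have hmap : ∀ t ∈ Subgroup.closure ({ph, sg} : Set G), ∀ ht : t ∈ D,
        π ⟨t, ht⟩ ∈ Subgroup.closure ({π p0, π s0} : Set (Equiv.Perm _)) := by
      intro t ht htD
      induction ht using Subgroup.closure_induction with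
      | mem t ht' =>
        rcases ht' with rfl | rfl
        · exact Subgroup.subset_closure (Or.inl rfl)
        · exact Subgroup.subset_closure (Or.inr rfl)
      | one =>
        have : (⟨1, htD⟩ : D) = 1 := rfl
        rw [this, map_one]
        exact Subgroup.one_mem _
      | mul a b ha hb iha ihb =>
        have : (⟨a * b, htD⟩ : D) = ⟨a, hcl ha⟩ * ⟨b, hcl hb⟩ := rfl
        rw [this, map_mul]
        exact Subgroup.mul_mem _ (iha _) (ihb _)
      | inv a ha iha =>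
        have : (⟨a⁻¹, htD⟩ : D) = (⟨a, hcl ha⟩ : D)⁻¹ := rfl
        rw [this, map_inv]
        exact Subgroup.inv_mem _ (iha _)
    refine ⟨π ⟨t, hcl ht⟩, hmap t ht _, ?_⟩
    have h3 : π d = π ⟨t, hcl ht⟩ := by
      have h4 := hN1 ((⟨t, hcl ht⟩ : D)⁻¹ * d) htN
      rw [map_mul, map_inv, inv_mul_eq_one] at h4
      exact h4.symm
    rw [← h3, hπa, hd]
  obtain ⟨e, f, j, he0, hf0, he, hj, hd, hm, hw⟩ := exists_efj h1 ht ⟨x, mem_orbit_self x⟩
  have hco : ∀ (s : D) (y : orbit D x), ((π s y : orbit D x) : X) = (s : G) • (y : X) := by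
    intro s y
    rw [hπa, orbit.coe_smul]
    rfl
  refine ⟨e, f, j, ⟨he0, hf0, ?_, ?_, ?_, ?_⟩, ?_, ?_⟩
  · have h4 := hco (s0 ^ e) ⟨x, mem_orbit_self x⟩
    rw [map_pow, he] at h4
    exact h4.symm
  · have h4 := hco (s0 ^ j * p0 ^ f) ⟨x, mem_orbit_self x⟩
    rw [map_mul, map_pow, map_pow, hj] at h4
    exact h4.symm
  · intro l hl
    refine hd l (Subtype.ext ?_)
    rw [← map_zpow, hco]
    exact hl
  · intro n a hn hna
    refine hm n a hn (Subtype.ext ?_)
    rw [← map_zpow, ← map_pow, ← map_mul, hco]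
    exact hna
  · intro y hy
    have h4 := hco (s0 ^ e) ⟨y, hy⟩
    rw [map_pow, he] at h4
    exact h4.symm
  · intro w
    rw [finsum_eq_sum_of_fintype, ← hw w]
    refine sum_congr rfl fun i _ => sum_congr rfl fun l _ => ?_
    rw [← map_pow, ← map_pow, ← map_pow, ← map_mul, ← map_mul, ← map_inv]
    rfl

section form

variable {Q : Type*} [Group Q] {σ φ : Q}

theorem semi' (h : φ * σ = σ ^ q * φ) (i : ℕ) (a : ℤ) :
    φ ^ i * σ ^ a = σ ^ ((q : ℤ) ^ i * a) * φ ^ i := by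
  induction i generalizing a with
  | zero => simp
  | succ i ih =>
    have h1 : SemiconjBy φ σ (σ ^ q) := h
    have h3 : (σ ^ q) ^ a = σ ^ ((q : ℤ) * a) := by rw [zpow_mul, zpow_natCast]
    have h2 : φ * σ ^ a = (σ ^ q) ^ a * φ := (h1.zpow_right a).eq
    rw [pow_succ, mul_assoc, h2, ← mul_assoc, h3, ih, mul_assoc]
    congr 2
    ring

/-- Every element of `⟨φ, σ⟩` is `σ ^ a φ ^ b`. -/
theorem form' [Finite Q] (h : φ * σ = σ ^ q * φ) (k : Q)
    (hk : k ∈ Subgroup.closure ({φ, σ} : Set Q)) :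
    ∃ (a : ℤ) (b : ℕ), k = σ ^ a * φ ^ b := by
  have hmul : ∀ k k' : Q, (∃ (a : ℤ) (b : ℕ), k = σ ^ a * φ ^ b) →
      (∃ (a : ℤ) (b : ℕ), k' = σ ^ a * φ ^ b) → ∃ (a : ℤ) (b : ℕ), k * k' = σ ^ a * φ ^ b := by
    rintro _ _ ⟨a, b, rfl⟩ ⟨c, d, rfl⟩
    refine ⟨a + (q : ℤ) ^ b * c, b + d, ?_⟩
    rw [mul_assoc, ← mul_assoc (φ ^ b), semi' h, mul_assoc, ← mul_assoc, ← zpow_add, ← pow_add]
  have hone : ∃ (a : ℤ) (b : ℕ), (1 : Q) = σ ^ a * φ ^ b := ⟨0, 0, by simp⟩
  induction hk using Subgroup.closure_induction with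
  | mem k hk =>
    rcases hk with rfl | rfl
    · exact ⟨0, 1, by simp⟩
    · exact ⟨1, 0, by simp⟩
  | one => exact hone
  | mul a b _ _ ha hb => exact hmul a b ha hb
  | inv a _ ha =>
    have h1 : ∀ n : ℕ, ∃ (c : ℤ) (b : ℕ), a ^ n = σ ^ c * φ ^ b := by
      intro n
      induction n with
      | zero => rw [pow_zero]; exact hone
      | succ n ih => rw [pow_succ]; exact hmul _ _ ih ha
    have h2 : a⁻¹ = a ^ (orderOf a - 1) := by
      rw [inv_eq_iff_mul_eq_one, ← pow_succ', Nat.sub_add_cancel (orderOf_pos a),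
        pow_orderOf_eq_one]
    rw [h2]
    exact h1 _

theorem pw (h : φ * σ = σ ^ q * φ) (j f : ℕ) (m : ℕ) :
    ∃ c : ℤ, (σ ^ j * φ ^ f) ^ m = σ ^ c * φ ^ (f * m) := by
  induction m with
  | zero => exact ⟨0, by simp⟩
  | succ m ih =>
    obtain ⟨c, hc⟩ := ih
    refine ⟨c + (q : ℤ) ^ (f * m) * j, ?_⟩
    rw [pow_succ, hc, mul_assoc, ← mul_assoc (φ ^ (f * m)), ← zpow_natCast σ j, semi' h,
      zpow_add, Nat.mul_succ, pow_add]
    simp only [mul_assoc]

end form

/-- The stabiliser of `x` in `D` is generated by `sg ^ e` and `sg ^ j * ph ^ f` modulo every `N`. -/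
theorem Efj.gen (h : LG NN D sg ph q X) {x : X} {e f j : ℕ} (hE : Efj D sg ph x e f j)
    {N : Subgroup G} (hN : N ∈ NN) (hX : ∀ n ∈ N, ∀ x : X, n • x = x) {s : G} (hs : s ∈ D)
    (hx : s • x = x) :
    ∃ (a : ℤ) (b : ℕ), (((sg ^ e) ^ a) * ((sg ^ j * ph ^ f) ^ b))⁻¹ * s ∈ N := by
  have hNn := h.normal N hN
  have hNf := h.fin N hN
  obtain ⟨t, ht, htN⟩ := h.gen N hN s hs
  let π := QuotientGroup.mk' N
  have hπ : ∀ a b : G, π a = π b ↔ a⁻¹ * b ∈ N := fun a b => QuotientGroup.eq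
  have hact : ∀ a b : G, π a = π b → a • x = x → b • x = x := by
    intro a b hab ha
    have h1 := hX _ ((hπ a b).1 hab) x
    rw [mul_smul, inv_smul_eq_iff, ha] at h1
    exact h1
  have hrel : π ph * π sg = π sg ^ q * π ph := by
    have h2 := (hπ _ _).2 (h.rel N hN)
    rw [← map_mul, ← map_pow, h2, ← map_mul, inv_mul_cancel_right]
  have hfin : Finite (G ⧸ N) := inferInstance
  have htQ : π t ∈ Subgroup.closure ({π ph, π sg} : Set (G ⧸ N)) := by
    have h3 : (Subgroup.closure ({ph, sg} : Set G)).map π =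
        Subgroup.closure ({π ph, π sg} : Set (G ⧸ N)) := by
      rw [MonoidHom.map_closure, Set.image_pair]
    rw [← h3]
    exact ⟨t, ht, rfl⟩
  obtain ⟨a, b, hab⟩ := form' hrel _ htQ
  have hst : π s = π t := ((hπ t s).2 htN).symm
  have hs' : π s = π (sg ^ a * ph ^ b) := by
    rw [hst, hab, map_mul, map_zpow, map_pow]
  have hm := Nat.div_add_mod b f
  set m := b / f with hmdef
  set n := b % f with hndef
  obtain ⟨c, hc⟩ := pw hrel j f m
  have hc' : π ((sg ^ j * ph ^ f) ^ m) = π (sg ^ c * ph ^ (f * m)) := by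
    rw [map_pow, map_mul, map_pow, map_pow, hc, map_mul, map_zpow, map_pow]
  -- `s * (sg ^ j ph ^ f) ^ (-m)`
  have h4 : π (s * ((sg ^ j * ph ^ f) ^ m)⁻¹) = π (sg ^ (a - (q : ℤ) ^ n * c) * ph ^ n) := by
    have h5 : π ph ^ n * π sg ^ (-c) = π sg ^ ((q : ℤ) ^ n * (-c)) * π ph ^ n := semi' hrel n (-c)
    rw [map_mul, hs', map_inv, hc', map_mul, map_mul, map_zpow, map_zpow, map_pow, map_pow,
      mul_inv_rev, map_mul, map_zpow, map_pow, ← hm, add_comm (f * m) n, pow_add]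
    have h6 : π sg ^ a * (π ph ^ n * π ph ^ (f * m)) * ((π ph ^ (f * m))⁻¹ * (π sg ^ c)⁻¹) =
        π sg ^ a * (π ph ^ n * π sg ^ (-c)) := by
      rw [zpow_neg]
      group
    rw [h6, h5, ← mul_assoc, ← zpow_add]
    congr 2
    ring
  have hfixm : ((sg ^ j * ph ^ f) ^ m) • x = x := by
    have : ∀ m : ℕ, ((sg ^ j * ph ^ f) ^ m) • x = x := by
      intro m
      induction m with
      | zero => rw [pow_zero, one_smul]
      | succ m ih => rw [pow_succ, mul_smul, hE.ph_fix, ih]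
    exact this m
  have h7 : (s * ((sg ^ j * ph ^ f) ^ m)⁻¹) • x = x := by
    rw [mul_smul, inv_smul_eq_iff.2 hfixm.symm, hx]
  have h8 := hact _ _ h4 h7
  have hn0 : n = 0 := by
    by_contra hn0
    have h9 := hE.f_min n _ (Nat.pos_of_ne_zero hn0) h8
    exact absurd (Nat.mod_lt b hE.f_pos) (not_lt.2 h9)
  rw [hn0, pow_zero, pow_zero, mul_one, one_mul] at h8
  obtain ⟨l, hl⟩ := hE.e_min _ h8
  refine ⟨l, m, ?_⟩
  rw [← hπ]
  rw [hn0, pow_zero, pow_zero, mul_one, one_mul, hl] at h4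
  rw [map_mul, map_inv, mul_inv_eq_iff_eq_mul] at h4
  rw [h4, map_mul, ← zpow_natCast sg e, ← zpow_mul]

/-- The orbit formula for the local group. -/
theorem orb_inv [Finite X] (h : LG NN D sg ph q X) (x : X) :
    ∃ e f j : ℕ, Efj D sg ph x e f j ∧ ∀ B : G → G → X → ZMod 2,
      (∃ N ∈ NN, ∀ s ∈ D, ∀ t ∈ D, ∀ n ∈ N, n ∈ D → ∀ m ∈ N, m ∈ D → B (s * n) (t * m) = B s t) →
      (∀ s ∈ D, ∀ t ∈ D, ∀ u ∈ D, ∀ y ∈ orbit D x,
        B s t y + B (s * t) u y = B t u (s⁻¹ • y) + B s (t * u) y) →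
      inv (sg ^ e) (sg ^ j * ph ^ f) (q ^ f) (fun s t => B s t x) =
        inv sg ph q (fun s t => ∑ᶠ y : orbit D x, B s t y) := by
  classical
  obtain ⟨e, f, j, hE, hsg, hw⟩ := exists_efj_orbit h x
  refine ⟨e, f, j, hE, ?_⟩
  rintro B ⟨N1, hN1, hB1⟩ hB
  obtain ⟨N0, hN0, hX⟩ := h.triv
  have hN : N1 ⊓ N0 ∈ NN := h.inf_mem _ hN1 _ hN0
  set N := N1 ⊓ N0 with hNdef
  have hNn := h.normal N hN
  have : Fintype (orbit D x) := Fintype.ofFinite _
  -- the quotient group and its action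
  let H := D ⧸ (N.subgroupOf D)
  have hout : ∀ d : D, ∃ n : D, (n : G) ∈ N ∧ ((QuotientGroup.mk d : H).out : D) = d * n := by
    intro d
    refine ⟨d⁻¹ * (QuotientGroup.mk d : H).out, ?_, by group⟩
    have h1 : (QuotientGroup.mk d : H) = QuotientGroup.mk (QuotientGroup.mk d : H).out :=
      (Quotient.out_eq _).symm
    exact Subgroup.mem_subgroupOf.1 (QuotientGroup.eq.1 h1)
  have htriv : ∀ (n : D), (n : G) ∈ N → ∀ y : orbit D x, n • y = y := by
    intro n hn y
    ext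
    rw [orbit.coe_smul]
    exact hX _ hn.2 _
  have hsm : ∀ (d : D) (y : orbit D x), (QuotientGroup.mk d : H).out • y = d • y := by
    intro d y
    obtain ⟨n, hn, h1⟩ := hout d
    rw [h1, mul_smul, htriv n hn]
  letI act : MulAction H (orbit D x) :=
    { smul := fun k y => k.out • y
      one_smul := fun y => by
        change (1 : H).out • y = y
        have h1 := hsm 1 y
        rw [one_smul] at h1
        exact h1
      mul_smul := fun k k' y => by
        change (k * k').out • y = k.out • (k'.out • y)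
        have h1 : k * k' = QuotientGroup.mk (k.out * k'.out) := by
          rw [QuotientGroup.mk_mul, QuotientGroup.out_eq', QuotientGroup.out_eq']
        rw [h1, hsm, mul_smul] }
  have hact : ∀ (d : D) (y : orbit D x), (QuotientGroup.mk d : H) • y = d • y := hsm
  let B' : H → H → orbit D x → ZMod 2 := fun k k' y => B k.out k'.out y
  have hBq : ∀ (d d' : D) (y : X), B ((QuotientGroup.mk d : H).out : D)
      ((QuotientGroup.mk d' : H).out : D) y = B d d' y := by
    intro d d' y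
    obtain ⟨n, hn, h1⟩ := hout d
    obtain ⟨n', hn', h2⟩ := hout d'
    rw [h1, h2]
    exact congrFun (hB1 d d.2 d' d'.2 n hn.1 n.2 n' hn'.1 n'.2) y
  have hB' : Coc2 B' := by
    intro k k' k''
    funext y
    have e1 : k * k' = QuotientGroup.mk (k.out * k'.out) := by
      rw [QuotientGroup.mk_mul, QuotientGroup.out_eq', QuotientGroup.out_eq']
    have e2 : k' * k'' = QuotientGroup.mk (k'.out * k''.out) := by
      rw [QuotientGroup.mk_mul, QuotientGroup.out_eq', QuotientGroup.out_eq']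
    have e3 : k⁻¹ • y = (k.out)⁻¹ • y := by
      have h1 : k⁻¹ = QuotientGroup.mk (k.out)⁻¹ := by
        rw [QuotientGroup.mk_inv, QuotientGroup.out_eq']
      rw [h1, hact]
    have e4 : B ((k * k').out : D) (k''.out : D) y = B ((k.out : D) * (k'.out : D) : G) (k''.out : D) y := by
      have h1 := hBq (k.out * k'.out) k''.out y
      rw [QuotientGroup.out_eq', ← e1] at h1
      exact h1
    have e5 : B (k.out : D) ((k' * k'').out : D) y = B (k.out : D) ((k'.out : D) * (k''.out : D) : G) y := by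
      have h1 := hBq k.out (k'.out * k''.out) y
      rw [QuotientGroup.out_eq', ← e2] at h1
      exact h1
    change B (k.out : D) (k'.out : D) y + B ((k * k').out : D) (k''.out : D) y =
      B (k'.out : D) (k''.out : D) ((k⁻¹ • y : orbit D x) : X) + B (k.out : D) ((k' * k'').out : D) y
    rw [e3, e4, e5, orbit.coe_smul]
    exact hB _ k.out.2 _ k'.out.2 _ k''.out.2 y y.2
  set s0 : D := ⟨sg, h.sg_mem⟩ with hs0
  set p0 : D := ⟨ph, h.ph_mem⟩ with hp0
  have hrel : (QuotientGroup.mk p0 : H) * QuotientGroup.mk s0 =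
      (QuotientGroup.mk s0 : H) ^ q * QuotientGroup.mk p0 := by
    have h1 : (QuotientGroup.mk (s0 ^ q) : H) = QuotientGroup.mk (p0 * s0 * p0⁻¹) := by
      refine QuotientGroup.eq.2 (Subgroup.mem_subgroupOf.2 ?_)
      exact h.rel N hN
    rw [← QuotientGroup.mk_pow, h1, ← QuotientGroup.mk_mul, ← QuotientGroup.mk_mul]
    congr 1
    group
  have hr : ((QuotientGroup.mk s0 : H) ^ j * (QuotientGroup.mk p0 : H) ^ f) •
      (⟨x, mem_orbit_self x⟩ : orbit D x) = ⟨x, mem_orbit_self x⟩ := by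
    rw [← QuotientGroup.mk_pow, ← QuotientGroup.mk_pow, ← QuotientGroup.mk_mul, hact]
    ext
    rw [orbit.coe_smul]
    exact hE.ph_fix
  have he' : ∀ y : orbit D x, (QuotientGroup.mk s0 : H) ^ e • y = y := by
    intro y
    rw [← QuotientGroup.mk_pow, hact]
    ext
    rw [orbit.coe_smul]
    exact hsg y y.2
  have key := inv_stab hB' h.q_odd hrel hE.e_pos he' f j hr
  have hL : inv ((QuotientGroup.mk s0 : H) ^ e)
      ((QuotientGroup.mk s0 : H) ^ j * (QuotientGroup.mk p0 : H) ^ f) (q ^ f)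
      (fun s t => B' s t ⟨x, mem_orbit_self x⟩) =
      inv (sg ^ e) (sg ^ j * ph ^ f) (q ^ f) (fun s t => B s t x) := by
    unfold inv
    simp only [← QuotientGroup.mk_pow, ← QuotientGroup.mk_mul, B', hBq]
    rfl
  have hR : ∀ y : orbit D x, inv (QuotientGroup.mk s0 : H) (QuotientGroup.mk p0 : H) q
      (fun s t => B' s t y) = inv sg ph q (fun s t => B s t y) := by
    intro y
    unfold inv
    simp only [← QuotientGroup.mk_pow, B', hBq]
    rfl
  rw [hL] at key
  rw [key]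
  have h9 := hw (fun y => inv sg ph q (fun s t => B s t y))
  have h10 : ∑ i ∈ range f, ∑ l ∈ range e, inv (QuotientGroup.mk s0 : H) (QuotientGroup.mk p0 : H) q
      (fun s t => B' s t (((QuotientGroup.mk s0 : H) ^ j * (QuotientGroup.mk p0 : H) ^ i *
        (QuotientGroup.mk s0 : H) ^ (q * l))⁻¹ • (⟨x, mem_orbit_self x⟩ : orbit D x))) =
      ∑ i ∈ range f, ∑ l ∈ range e, inv sg ph q (fun s t => B s t
        (((s0 ^ j * p0 ^ i * s0 ^ (q * l))⁻¹ • (⟨x, mem_orbit_self x⟩ : orbit D x) : orbit D x) : X)) := by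
    refine sum_congr rfl fun i _ => sum_congr rfl fun l _ => ?_
    rw [hR, ← QuotientGroup.mk_pow, ← QuotientGroup.mk_pow, ← QuotientGroup.mk_pow,
      ← QuotientGroup.mk_mul, ← QuotientGroup.mk_mul, ← QuotientGroup.mk_inv, hact]
  rw [h10, h9, finsum_eq_sum_of_fintype]
  have h11 : ∀ s t, ∑ᶠ y : orbit D x, B s t y = ∑ y : orbit D x, B s t y := fun s t =>
    finsum_eq_sum_of_fintype _
  simp only [h11]
  unfold inv
  rw [sum_add_distrib, sum_add_distrib]
  congr 1
  rw [sum_comm]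

end Pool.Agent.SmN.F
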