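import Mathlib
import Pool.Agent.Lib.SmN.Sys

/-!
# SmN, block F: the field `corr` of `Sys.Ok` from classes ramified at one good place

PROOF. Sum over the finite support of `w` in `good` (`CocG` is closed under sums by `inf_mem`,
`top_mem` for the empty sum; `S.ac s` is additive).
-/

set_option autoImplicit false

namespace Pool.Agent.SmN.Sys

variable {G V V1 Pl : Type*} [Group G] [AddCommGroup V] [DistribMulAction G V]
    [AddCommGroup V1] [Module (ZMod 2) V1] (S : Sys G V V1 Pl)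

theorem cocG_sum (top_mem : ⊤ ∈ S.NN) (inf_mem : ∀ N ∈ S.NN, ∀ N' ∈ S.NN, N ⊓ N' ∈ S.NN)
    {I : Type*} (A : Finset I) (c : I → G → V1) (hc : ∀ i ∈ A, S.CocG (c i)) :
    S.CocG (fun s => ∑ i ∈ A, c i s) := by
  classical
  induction A using Finset.induction_on with
  | empty =>
    refine ⟨⟨⊤, top_mem, fun s n _ => ?_⟩, fun s t => ?_⟩
    · simp
    · simp
  | insert a A ha ih =>
    obtain ⟨⟨N, hN, hN'⟩, hcoc⟩ := ih (fun i hi => hc i (Finset.mem_insert_of_mem hi))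
    obtain ⟨⟨M, hM, hM'⟩, hcoc'⟩ := hc a (Finset.mem_insert_self a A)
    refine ⟨⟨M ⊓ N, inf_mem M hM N hN, fun s n hn => ?_⟩, fun s t => ?_⟩
    · have h1 := hN' s n hn.2
      have h2 := hM' s n hn.1
      change ∑ i ∈ A, c i (s * n) = ∑ i ∈ A, c i s at h1
      change ∑ i ∈ insert a A, c i (s * n) = ∑ i ∈ insert a A, c i s
      rw [Finset.sum_insert ha, Finset.sum_insert ha, h1, h2]
    · have h1 := hcoc s t
      have h2 := hcoc' s t
      change ∑ i ∈ A, c i (s * t) = ∑ i ∈ A, c i s + S.ac s (∑ i ∈ A, c i t) at h1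
      change ∑ i ∈ insert a A, c i (s * t) =
        ∑ i ∈ insert a A, c i s + S.ac s (∑ i ∈ insert a A, c i t)
      rw [Finset.sum_insert ha, Finset.sum_insert ha, Finset.sum_insert ha, h1, h2, map_add]
      exact add_add_add_comm _ _ _ _

theorem corr_of (top_mem : ⊤ ∈ S.NN) (inf_mem : ∀ N ∈ S.NN, ∀ N' ∈ S.NN, N ⊓ N' ∈ S.NN)
    (one : ∀ w ∈ S.good, ∀ x : V1, S.ac (S.phi w) x = x →
      ∃ c : G → V1, S.CocG c ∧ c (S.sg w) = x ∧ ∀ v ∈ S.good, v ≠ w → c (S.sg v) = 0) :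
    ∀ w : Pl → V1, {v | w v ≠ 0}.Finite → (∀ v ∈ S.good, S.ac (S.phi v) (w v) = w v) →
    ∃ c : G → V1, S.CocG c ∧ ∀ v ∈ S.good, c (S.sg v) = w v := by
  classical
  intro w hfin hw
  have key : ∀ v : Pl, ∃ c : G → V1, v ∈ S.good → S.CocG c ∧ c (S.sg v) = w v ∧
      ∀ v' ∈ S.good, v' ≠ v → c (S.sg v') = 0 := by
    intro v
    by_cases hv : v ∈ S.good
    · obtain ⟨c, hc⟩ := one v hv (w v) (hw v hv)
      exact ⟨c, fun _ => hc⟩
    · exact ⟨fun _ => 0, fun h => absurd h hv⟩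
  choose c hc using key
  refine ⟨fun s => ∑ i ∈ hfin.toFinset.filter (fun v => v ∈ S.good), c i s,
    S.cocG_sum top_mem inf_mem _ c (fun i hi => (hc i (Finset.mem_filter.1 hi).2).1), ?_⟩
  intro v hv
  have h0 : ∀ i ∈ hfin.toFinset.filter (fun v => v ∈ S.good), i ≠ v → c i (S.sg v) = 0 :=
    fun i hi hiv => (hc i (Finset.mem_filter.1 hi).2).2.2 v hv (Ne.symm hiv)
  by_cases hvA : v ∈ hfin.toFinset.filter (fun v => v ∈ S.good)
  · change ∑ i ∈ hfin.toFinset.filter (fun v => v ∈ S.good), c i (S.sg v) = w v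
    rw [Finset.sum_eq_single v h0 (fun h => absurd hvA h)]
    exact (hc v hv).2.1
  · change ∑ i ∈ hfin.toFinset.filter (fun v => v ∈ S.good), c i (S.sg v) = w v
    rw [Finset.sum_eq_zero (fun i hi => h0 i hi (fun h => hvA (h ▸ hi)))]
    by_contra hne
    exact hvA (Finset.mem_filter.2 ⟨hfin.mem_toFinset.2 (fun h => hne h.symm), hv⟩)

end Pool.Agent.SmN.Sys
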