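import Mathlib
import Pool.Agent.Lib.SmN.Sys

/-!
# SmN, block F: definitions

`X` = a finite transitive `G`-set (the roots of `f`), `|X|` odd; `V1` is a direct summand of the
permutation module `X → ZMod 2`. `H` = stabiliser of `x0` = absolute Galois group of `L = K(x0)`.
-/

set_option autoImplicit false

namespace Pool.Agent.SmN

open MulAction

/-- `V1` as a direct summand of the permutation module `X → ZMod 2`, `(s a) x = a (s⁻¹ x)`. -/
structure PermOk {G V V1 Pl : Type*} [Group G] [AddCommGroup V] [DistribMulAction G V]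
    [AddCommGroup V1] [Module (ZMod 2) V1] (S : Sys G V V1 Pl) (X : Type*) [Fintype X]
    [MulAction G X] (i : V1 →ₗ[ZMod 2] (X → ZMod 2)) (p : (X → ZMod 2) →ₗ[ZMod 2] V1) : Prop where
  /-- an `N` in `NN` acts trivially on `X` -/
  triv : ∃ N ∈ S.NN, ∀ n ∈ N, ∀ x : X, n • x = x
  p_i : ∀ w, p (i w) = w
  i_ac : ∀ s w x, i (S.ac s w) x = i w (s⁻¹ • x)
  p_ac : ∀ s a, p (fun x => a (s⁻¹ • x)) = S.ac s (p a)
  /-- `p` is adjoint to `i` -/
  adj : ∀ a w, S.e (p a) w = ∑ x, a x * i w x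

namespace Sys

variable {G V V1 Pl : Type*} [Group G] [AddCommGroup V] [DistribMulAction G V]
    [AddCommGroup V1] [Module (ZMod 2) V1] (S : Sys G V V1 Pl)

/-- `Hom(H, ZMod 2)`. -/
def HomH (H : Subgroup G) (b : G → ZMod 2) : Prop :=
  S.TFOn H b ∧ ∀ s ∈ H, ∀ t ∈ H, b (s * t) = b s + b t

end Sys

end Pool.Agent.SmN
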