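import Mathlib
import Pool.Agent.Lib.SmN.Sys

/-!
# SmN, block F: the field `dual` of `Sys.Ok` from the Lagrangian property of the global classes

PROOF (only `top_mem`, `inf_mem`, `nondeg`, `lag` are used). `T` = `T0`, the exceptional places of `W`
and the places where `xi` is not in `W`. On the families `T → V1 × V1` the form `B = ∑ sy v` is a
bijection onto the dual. `A` = the families `loc v om`, `om` a global cocycle unramified outside `T`;
`C` = the families with values in `W`. By hypothesis `B xi` kills `A ⊓ C`, and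
`(A ⊓ C)^0 = A^0 + C^0`, so `xi = a + c` with `B a` killing `A`, `B c` killing `C`; the left orthogonal
of `W v` is `W v` by dimension, so `c v ∈ W v`, and `lag` applies to `a = xi - c`.
-/

set_option autoImplicit false

namespace Pool.Agent.SmN.Sys

variable {G V V1 Pl : Type*} [Group G] [AddCommGroup V] [DistribMulAction G V]
    [AddCommGroup V1] [Module (ZMod 2) V1] (S : Sys G V V1 Pl)

/-- The Lagrangian property of the global cocycles unramified outside `T`. -/
def LagT (T : Finset Pl) : Prop :=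
  ∀ xi : Pl → V1 × V1, (∀ v ∈ T, xi v ∈ S.CP v) →
    (∀ b : G → V1, S.CocG b → (∀ v, v ∉ T → b (S.sg v) = 0) →
      ∑ v ∈ T, S.sy v (xi v) (S.loc v b) = 0) →
    ∃ om : G → V1, S.CocG om ∧ (∀ v, v ∉ T → om (S.sg v) = 0) ∧
      ∀ v ∈ T, ∃ z : V1, S.loc v om = xi v + S.cob v z

/-- `CP v` is closed under subtraction. -/
theorem cp_sub (inf_mem : ∀ N ∈ S.NN, ∀ N' ∈ S.NN, N ⊓ N' ∈ S.NN) (v : Pl) {x y : V1 × V1}
    (hx : x ∈ S.CP v) (hy : y ∈ S.CP v) : x - y ∈ S.CP v := by
  obtain ⟨c, ⟨N, hN, hc⟩, hc2, rfl⟩ := hx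
  obtain ⟨d, ⟨N', hN', hd⟩, hd2, rfl⟩ := hy
  refine ⟨fun s => c s - d s, ⟨N ⊓ N', inf_mem N hN N' hN', ?_⟩, ?_, ?_⟩
  · intro s hs n hn hnD
    simp only
    rw [hc s hs n hn.1 hnD, hd s hs n hn.2 hnD]
  · intro s hs t ht
    simp only
    rw [hc2 s hs t ht, hd2 s hs t ht, map_sub]
    abel
  · simp [loc]

/-- In the nondegenerate space `V1 × V1` an isotropic subgroup of half dimension is its own
left orthogonal. -/
theorem mem_of_orth [Finite V1] (v : Pl)
    (nondeg : ∀ x : V1 × V1, (∀ y, S.sy v x y = 0) → x = 0) (W : AddSubgroup (V1 × V1))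
    (hcard : Nat.card W = Nat.card V1) (hiso : ∀ x ∈ W, ∀ y ∈ W, S.sy v x y = 0)
    (x : V1 × V1) (hx : ∀ y ∈ W, S.sy v x y = 0) : x ∈ W := by
  classical
  set P : Submodule (ZMod 2) (V1 × V1) := AddSubgroup.toZModSubmodule 2 W with hP
  have hmem : ∀ z, z ∈ P ↔ z ∈ W := fun z => by rw [hP]; rfl
  have h1 : Nat.card P = Nat.card V1 := by
    rw [← hcard]
    rfl
  have h2 : Module.finrank (ZMod 2) P = Module.finrank (ZMod 2) V1 := by
    have a := Module.natCard_eq_pow_finrank (K := ZMod 2) (V := P)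
    have b := Module.natCard_eq_pow_finrank (K := ZMod 2) (V := V1)
    rw [h1, b] at a
    have h0 : 1 < Nat.card (ZMod 2) := by rw [Nat.card_zmod]; norm_num
    exact (Nat.pow_right_injective h0 a).symm
  have h3 : Module.finrank (ZMod 2) (V1 × V1)
      = Module.finrank (ZMod 2) V1 + Module.finrank (ZMod 2) V1 := Module.finrank_prod
  have h4 := Subspace.finrank_add_finrank_dualAnnihilator_eq P
  have h5 : Module.finrank (ZMod 2) P.dualAnnihilator = Module.finrank (ZMod 2) V1 := by omega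
  have hinj : Function.Injective (S.sy v) := by
    rw [← LinearMap.ker_eq_bot, LinearMap.ker_eq_bot']
    intro z hz
    exact nondeg z (fun y => by rw [hz]; rfl)
  set Q : Submodule (ZMod 2) (V1 × V1) := P.dualAnnihilator.comap (S.sy v) with hQ
  have hPQ : P ≤ Q := by
    intro z hz
    rw [hQ, Submodule.mem_comap, Submodule.mem_dualAnnihilator]
    intro w hw
    exact hiso z ((hmem z).1 hz) w ((hmem w).1 hw)
  have hle : Module.finrank (ZMod 2) Q ≤ Module.finrank (ZMod 2) P.dualAnnihilator := by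
    have := LinearMap.finrank_le_finrank_of_injective
      (f := ((S.sy v).restrict (p := Q) (q := P.dualAnnihilator) (fun z hz => hz))) (by
        intro a b hab
        apply Subtype.ext
        apply hinj
        exact congrArg Subtype.val hab)
    exact this
  have heq : P = Q := Submodule.eq_of_le_of_finrank_le hPQ (by omega)
  have : x ∈ Q := by
    rw [hQ, Submodule.mem_comap, Submodule.mem_dualAnnihilator]
    intro w hw
    exact hx w ((hmem w).1 hw)
  rw [← heq] at this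
  exact (hmem x).1 this

/-- The sum of the local pairings on the families indexed by `T`. -/
noncomputable def bigB (T : Finset Pl) :
    (T → V1 × V1) →ₗ[ZMod 2] Module.Dual (ZMod 2) (T → V1 × V1) :=
  LinearMap.mk₂ (ZMod 2) (fun x y => ∑ v : T, S.sy v (x v) (y v))
    (fun x y z => by simp [Finset.sum_add_distrib])
    (fun c x y => by simp [Finset.mul_sum])
    (fun x y z => by simp [Finset.sum_add_distrib])
    (fun c x y => by simp [Finset.mul_sum])

theorem bigB_apply (T : Finset Pl) (x y : T → V1 × V1) :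
    S.bigB T x y = ∑ v : T, S.sy v (x v) (y v) := rfl

theorem bigB_single [DecidableEq Pl] (T : Finset Pl) (x : T → V1 × V1) (v : T) (y : V1 × V1) :
    S.bigB T x (Pi.single v y) = S.sy v (x v) y := by
  rw [bigB_apply, Fintype.sum_eq_single v]
  · rw [Pi.single_eq_same]
  · intro w hw
    rw [Pi.single_eq_of_ne hw, map_zero]

theorem bigB_bij [Finite V1] (T : Finset Pl)
    (nondeg : ∀ v, ∀ x : V1 × V1, (∀ y, S.sy v x y = 0) → x = 0) :
    Function.Bijective (S.bigB T) := by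
  classical
  have hinj : Function.Injective (S.bigB T) := by
    rw [← LinearMap.ker_eq_bot, LinearMap.ker_eq_bot']
    intro x hx
    funext v
    apply nondeg v
    intro y
    rw [← bigB_single, hx]
    rfl
  refine ⟨hinj, ?_⟩
  exact (LinearMap.injective_iff_surjective_of_finrank_eq_finrank
    (Subspace.dual_finrank_eq (K := ZMod 2) (V := T → V1 × V1)).symm).1 hinj

/-- The families of global cocycles unramified outside `T`. -/
def glA (top_mem : ⊤ ∈ S.NN) (inf_mem : ∀ N ∈ S.NN, ∀ N' ∈ S.NN, N ⊓ N' ∈ S.NN)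
    (T : Finset Pl) : Submodule (ZMod 2) (T → V1 × V1) where
  carrier := {x | ∃ om : G → V1, S.CocG om ∧ (∀ v, v ∉ T → om (S.sg v) = 0) ∧
    ∀ v : T, x v = S.loc v om}
  add_mem' := by
    rintro x y ⟨c, ⟨⟨N, hN, hc⟩, hc2⟩, hcT, hcx⟩ ⟨d, ⟨⟨N', hN', hd⟩, hd2⟩, hdT, hdy⟩
    refine ⟨fun s => c s + d s, ⟨⟨N ⊓ N', inf_mem N hN N' hN', ?_⟩, ?_⟩, ?_, ?_⟩
    · intro s n hn
      simp only
      rw [hc s n hn.1, hd s n hn.2]
    · intro s t
      simp only
      rw [hc2 s t, hd2 s t, map_add]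
      abel
    · intro v hv
      simp only
      rw [hcT v hv, hdT v hv, add_zero]
    · intro v
      rw [Pi.add_apply, hcx v, hdy v]
      simp [loc]
  zero_mem' := by
    refine ⟨fun _ => 0, ⟨⟨⊤, top_mem, fun _ _ _ => rfl⟩, ?_⟩, fun _ _ => rfl, fun v => rfl⟩
    intro s t
    simp
  smul_mem' := by
    rintro r x ⟨c, ⟨⟨N, hN, hc⟩, hc2⟩, hcT, hcx⟩
    refine ⟨fun s => r • c s, ⟨⟨N, hN, ?_⟩, ?_⟩, ?_, ?_⟩
    · intro s n hn
      simp only
      rw [hc s n hn]
    · intro s t
      simp only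
      rw [hc2 s t, smul_add, map_smul]
    · intro v hv
      simp only
      rw [hcT v hv, smul_zero]
    · intro v
      rw [Pi.smul_apply, hcx v]
      simp [loc]

/-- The families with values in `W`. -/
def loW (W : Pl → AddSubgroup (V1 × V1)) (T : Finset Pl) :
    Submodule (ZMod 2) (T → V1 × V1) where
  carrier := {x | ∀ v : T, x v ∈ W v}
  add_mem' := fun hx hy v => (W v).add_mem (hx v) (hy v)
  zero_mem' := fun v => (W v).zero_mem
  smul_mem' := fun r _ hx v => ZMod.smul_mem (hx v) r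

theorem dual_of [Finite V1] (top_mem : ⊤ ∈ S.NN) (inf_mem : ∀ N ∈ S.NN, ∀ N' ∈ S.NN, N ⊓ N' ∈ S.NN)
    (nondeg : ∀ v, ∀ x : V1 × V1, (∀ y, S.sy v x y = 0) → x = 0)
    (sy_comm : ∀ v, ∀ x ∈ S.CP v, ∀ y ∈ S.CP v, S.sy v x y = S.sy v y x)
    (sy_cob : ∀ v, ∀ x ∈ S.CP v, ∀ z, S.sy v x (S.cob v z) = 0)
    (recip : ∀ c d : G → V1, S.CocG c → S.CocG d →
      ∑ᶠ v, S.sy v (S.loc v c) (S.loc v d) = 0)
    (T0 : Finset Pl)
    (unr0 : ∀ v, v ∉ T0 → ∀ x ∈ S.CP v, ∀ y ∈ S.CP v, x.1 = 0 → y.1 = 0 → S.sy v x y = 0)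
    (lag : ∀ T : Finset Pl, T0 ⊆ T → S.LagT T) :
    ∀ W : Pl → AddSubgroup (V1 × V1), (∀ v, (W v : Set (V1 × V1)) ⊆ S.CP v) →
    (∀ v z, S.cob v z ∈ W v) → (∀ v, Nat.card (W v) = Nat.card V1) →
    (∀ v, ∀ x ∈ W v, ∀ y ∈ W v, S.sy v x y = 0) →
    {v | ¬ ∀ x : V1 × V1, x ∈ W v ↔ x.1 = 0}.Finite →
    ∀ xi : Pl → V1 × V1, (∀ v, xi v ∈ S.CP v) → {v | xi v ∉ W v}.Finite →
    (∀ b : G → V1, S.CocG b → (∀ v, S.loc v b ∈ W v) →
      ∑ᶠ v, S.sy v (xi v) (S.loc v b) = 0) →
    ∃ om : G → V1, S.CocG om ∧ ∀ v, S.loc v om - xi v ∈ W v := by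
  classical
  intro W hWCP hWcob hWcard hWiso hWfin xi hxiCP hxifin hxi
  set T : Finset Pl := T0 ∪ hWfin.toFinset ∪ hxifin.toFinset with hT
  have hT0 : T0 ⊆ T := by
    intro v hv
    rw [hT, Finset.mem_union, Finset.mem_union]
    exact Or.inl (Or.inl hv)
  have hout1 : ∀ v, v ∉ T → ∀ x : V1 × V1, x ∈ W v ↔ x.1 = 0 := by
    intro v hv
    by_contra h
    apply hv
    rw [hT, Finset.mem_union, Finset.mem_union]
    refine Or.inl (Or.inr ?_)
    rw [Set.Finite.mem_toFinset]
    exact h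
  have hout2 : ∀ v, v ∉ T → xi v ∈ W v := by
    intro v hv
    by_contra h
    apply hv
    rw [hT, Finset.mem_union, Finset.mem_union]
    refine Or.inr ?_
    rw [Set.Finite.mem_toFinset]
    exact h
  -- the element of the dual
  have hmem : S.bigB T (fun v => xi v) ∈
      (S.glA top_mem inf_mem T ⊓ loW W T).dualAnnihilator := by
    rw [Submodule.mem_dualAnnihilator]
    rintro y ⟨⟨om, hom, homT, hy⟩, hyW⟩
    have hlW : ∀ v, S.loc v om ∈ W v := by
      intro v
      by_cases hv : v ∈ T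
      · have h1 := hyW ⟨v, hv⟩
        rw [hy ⟨v, hv⟩] at h1
        exact h1
      · rw [hout1 v hv]
        exact homT v hv
    have h2 := hxi om hom hlW
    rw [finsum_eq_sum_of_support_subset (s := T)] at h2
    · rw [bigB_apply]
      refine Eq.trans ?_ h2
      rw [← Finset.sum_coe_sort T]
      refine Finset.sum_congr rfl ?_
      intro v _
      rw [hy v]
    · intro v hv
      by_contra hvT
      exact hv (hWiso v _ (hout2 v hvT) _ (hlW v))
  rw [Subspace.dualAnnihilator_inf_eq, Submodule.mem_sup] at hmem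
  obtain ⟨f, hf, g, hg, hfg⟩ := hmem
  obtain ⟨a, rfl⟩ := (S.bigB_bij T nondeg).2 f
  obtain ⟨c, rfl⟩ := (S.bigB_bij T nondeg).2 g
  have hsum : a + c = fun v : T => xi v := by
    apply (S.bigB_bij T nondeg).1
    rw [map_add, hfg]
  have hcW : ∀ v : T, c v ∈ W v := by
    intro v
    apply S.mem_of_orth v (nondeg v) (W v) (hWcard v) (hWiso v)
    intro y hy
    rw [← S.bigB_single T c v y]
    rw [Submodule.mem_dualAnnihilator] at hg
    apply hg
    intro w
    by_cases hw : w = v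
    · subst hw
      rw [Pi.single_eq_same]
      exact hy
    · rw [Pi.single_eq_of_ne hw]
      exact (W w).zero_mem
  -- the corrected family
  let xi' : Pl → V1 × V1 := fun v => if hv : v ∈ T then a ⟨v, hv⟩ else 0
  have hxi' : ∀ v : T, xi' v = a v := by
    intro v
    simp only [xi', dif_pos v.2]
  have hac : ∀ v : T, a v = xi v - c v := by
    intro v
    rw [← congrFun hsum v, Pi.add_apply, add_sub_cancel_right]
  obtain ⟨om, hom, homT, hz⟩ := lag T hT0 xi' (by
    intro v hv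
    rw [hxi' ⟨v, hv⟩, hac ⟨v, hv⟩]
    exact S.cp_sub inf_mem v (hxiCP v) (hWCP v (hcW ⟨v, hv⟩))) (by
    intro b hb hbT
    rw [Submodule.mem_dualAnnihilator] at hf
    have h3 := hf (fun v => S.loc v b) ⟨b, hb, hbT, fun v => rfl⟩
    rw [bigB_apply] at h3
    refine Eq.trans ?_ h3
    rw [← Finset.sum_coe_sort T]
    refine Finset.sum_congr rfl ?_
    intro v _
    rw [hxi' v])
  refine ⟨om, hom, ?_⟩
  intro v
  by_cases hv : v ∈ T
  · obtain ⟨z, hz⟩ := hz v hv
    have h4 : S.loc v om - xi v = S.cob v z - c ⟨v, hv⟩ := by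
      rw [hz, hxi' ⟨v, hv⟩, hac ⟨v, hv⟩]
      abel
    rw [h4]
    exact (W v).sub_mem (hWcob v z) (hcW ⟨v, hv⟩)
  · apply (W v).sub_mem _ (hout2 v hv)
    rw [hout1 v hv]
    exact homT v hv

end Pool.Agent.SmN.Sys
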