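import Pool.Agent.Lib.SmN.F.Main
import Pool.Agent.Lib.SmN.F.LInst
import Pool.Agent.Lib.SmN.Ch.Defs

/-!
# SmN, block F: output

For a standard `S` (`IsStd`: `NN = NP K Om`, `D = dvK`, `sg = sgK`, `phi = phK`) with `LocD S qK` and
`PermOk S X i p`, `X` transitive with stabiliser `Gal(Om / L)`:
* `exists_ET`: exponents `E` and a finite set `T0`, independent of `S`, with `OrbE` and `LOk`;
* `lagV_std`: `LagV S T` for every finite `T ⊇ T0` with `S.goodᶜ ⊆ T`;
* `recip_std`, `dual_std`, `corr_std`, `hasse_std'`: the fields of `Sys.Ok`.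
-/

set_option autoImplicit false
set_option linter.unusedSectionVars false

namespace Pool.Agent.SmN.F

open MulAction Pool.Agent.GBU Pool.Agent.BSDFF Pool.Agent.Lib.SmD Loc

section congr

variable {G V V1 Pl X : Type*} [Group G] [AddCommGroup V] [DistribMulAction G V]
    [AddCommGroup V1] [Module (ZMod 2) V1] {S S' : Sys G V V1 Pl} {q : Pl → ℕ}
    [MulAction G X] {E : Pl → X → ℕ × ℕ × ℕ}

theorem OrbE.congr (h : OrbE S q E) (h1 : S'.NN = S.NN) (h2 : S'.D = S.D) (h3 : S'.sg = S.sg)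
    (h4 : S'.phi = S.phi) : OrbE S' q E := by
  obtain ⟨NN, D, phi, sg, eps, iota, ac, e, sy, good⟩ := S
  obtain ⟨NN', D', phi', sg', eps', iota', ac', e', sy', good'⟩ := S'
  dsimp only at h1 h2 h3 h4
  subst h1 h2 h3 h4
  exact ⟨h.efj, h.formula⟩

theorem LOk.congr {x0 : X} {r : X → G} {T0 : Finset Pl} (h : LOk S q E x0 r T0)
    (h1 : S'.NN = S.NN) (h2 : S'.D = S.D) (h3 : S'.sg = S.sg) (h4 : S'.phi = S.phi) :
    LOk S' q E x0 r T0 := by
  obtain ⟨NN, D, phi, sg, eps, iota, ac, e, sy, good⟩ := S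
  obtain ⟨NN', D', phi', sg', eps', iota', ac', e', sy', good'⟩ := S'
  dsimp only at h1 h2 h3 h4
  subst h1 h2 h3 h4
  exact ⟨h.unr, h.recip, h.inj, h.lag, h.one, h.hasse⟩

end congr

section abs

variable {G V V1 Pl : Type} [Group G] [AddCommGroup V] [DistribMulAction G V]
    [AddCommGroup V1] [Module (ZMod 2) V1] {S : Sys G V V1 Pl} {q : Pl → ℕ} {X : Type*}
    [Fintype X] [MulAction G X] {E : Pl → X → ℕ × ℕ × ℕ}
    {i : V1 →ₗ[ZMod 2] (X → ZMod 2)} {p : (X → ZMod 2) →ₗ[ZMod 2] V1}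
    {x0 : X} {r : X → G} {T0 : Finset Pl}

/-- `LagV` from the statements over `L`. -/
theorem lagV_of (hL : LocD S q) (hP : PermOk S X i p) (hE : OrbE S q E)
    (hG : ∀ v, LG S.NN (S.D v) (S.sg v) (S.phi v) (q v) X) (top_mem : ⊤ ∈ S.NN)
    (inf_mem : ∀ N ∈ S.NN, ∀ N' ∈ S.NN, N ⊓ N' ∈ S.NN) (hr : ∀ x, r x • x = x0)
    (hK : LOk S q E x0 r T0) {T : Set Pl} (hT : T.Finite) (hT0 : ↑T0 ⊆ T) (hbad : S.goodᶜ ⊆ T) :
    Ch.LagV S T := by
  classical
  have hsub : T0 ⊆ hT.toFinset := by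
    intro v hv
    exact hT.mem_toFinset.2 (hT0 hv)
  have hmem : ∀ v, v ∉ hT.toFinset ↔ v ∉ T := fun v => by rw [hT.mem_toFinset]
  refine ⟨hT, hbad, ?_, ?_, ?_⟩
  · intro b hb h
    exact injV hP hE hr hK hsub hb.1 (fun v hv => hb.2 v ((hmem v).1 hv))
      fun v hv => h v (hT.mem_toFinset.1 hv)
  · intro xi hxi horth
    obtain ⟨om, hom, h1, h3⟩ := lagV hL hP hE hG inf_mem hr hK hsub xi (fun v _ => hxi v) (by
      intro b hb hbu
      have h4 := horth b ⟨hb, fun v hv => hbu v ((hmem v).2 hv)⟩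
      rw [← h4, finsum_mem_eq_finite_toFinset_sum _ hT])
    exact ⟨om, ⟨hom, fun v hv => h1 v ((hmem v).2 hv)⟩, fun v hv => h3 v (hT.mem_toFinset.2 hv)⟩
  · intro w hw x hx
    obtain ⟨c, hc, h1, h3⟩ := oneV hL hP hE inf_mem hr hG top_mem hK hsub ((hmem w).2 hw) hx
    exact ⟨c, hc, h1, fun v hv => h3 v ((hmem v).2 hv)⟩

end abs

variable {k K L : Type} [Field k] [Finite k] [Field K] [Algebra k K] [Algebra (RatFunc k) K]
  [IsScalarTower k (RatFunc k) K] [FiniteDimensional (RatFunc k) K]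
  [Algebra.IsSeparable (RatFunc k) K]
  [Field L] [Algebra k L] [Algebra (RatFunc k) L]
  [IsScalarTower k (RatFunc k) L] [FiniteDimensional (RatFunc k) L]
  [Algebra.IsSeparable (RatFunc k) L] [Algebra K L] [FiniteDimensional K L]
  {Om : Type} [Field Om] [Algebra K Om] [IsSepClosure K Om] [Algebra L Om] [IsSepClosure L Om]
  [IsScalarTower K L Om]
  {X : Type} [MulAction (Om ≃ₐ[K] Om) X] [Fintype X]
  {V V1 : Type} [AddCommGroup V] [DistribMulAction (Om ≃ₐ[K] Om) V] [AddCommGroup V1]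
  [Module (ZMod 2) V1]

variable (V V1) in
/-- The exponents and the finite set, for all standard `S`. -/
theorem exists_ET [Nonempty X] (h2 : (2 : k) ≠ 0) {x0 : X} {r : X → (Om ≃ₐ[K] Om)}
    (hr : ∀ x, r x • x = x0) (hst : stabilizer (Om ≃ₐ[K] Om) x0 = rg K L Om)
    (htriv : ∃ N ∈ NP K Om, ∀ n ∈ N, ∀ x : X, n • x = x) (hH : HasseZ L Om) :
    ∃ (E : Place k K → X → ℕ × ℕ × ℕ) (T0 : Finset (Place k K)),
      ∀ S : Sys (Om ≃ₐ[K] Om) V V1 (Place k K), IsStd S →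
        OrbE S (fun v => qK v) E ∧ LOk S (fun v => qK v) E x0 r T0 := by
  let S0 : Sys (Om ≃ₐ[K] Om) V V1 (Place k K) :=
    { NN := NP K Om
      D := fun v => dvK Om v
      phi := fun v => phK Om v
      sg := fun v => sgK Om v
      eps := fun _ => 0
      iota := 0
      ac := 1
      e := 0
      sy := fun _ => 0
      good := ∅ }
  have hS0 : IsStd S0 := ⟨rfl, fun _ => rfl, fun _ => rfl, fun _ => rfl⟩
  obtain ⟨E, hE⟩ := exists_orbE S0 (fun v => qK v) (X := X) (fun v => lg_std h2 hS0 htriv v)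
  obtain ⟨T0, hT0⟩ := lOk (L := L) h2 hS0 hr hst htriv hE hH
  refine ⟨E, T0, fun S hS => ?_⟩
  have e2 : S.D = S0.D := funext fun v => hS.D v
  have e3 : S.sg = S0.sg := funext fun v => hS.sg v
  have e4 : S.phi = S0.phi := funext fun v => hS.phi v
  exact ⟨hE.congr hS.NN e2 e3 e4, hT0.congr hS.NN e2 e3 e4⟩

end Pool.Agent.SmN.F
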