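import Mathlib
import Pool.Agent.Lib.SmN.F.Defs
import Pool.Agent.Lib.SmN.F.Shap

/-!
# SmN, block F: the field `hasse` of `Sys.Ok` from the Hasse principle over `L`

PROOF. `C s t x := i (c s t) x` is a 2-cocycle with values in `X → ZMod 2` (`F.IsCoc2`, by `i_ac`;
`c s t + c (s*t) u = ac s (c t u) + c s (t*u)`). Let `c0 s t := C s t x0`. For `v`, `g`: put
`x = g⁻¹ x0`; on `D v` the cocycle `c` is the coboundary of `b`, so `C s t x = i(b s) x + i (b t) (s⁻¹ x)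
+ i (b (s t)) x`; for `s, t ∈ D v ∩ Stab x`: coboundary of `s ↦ i (b s) x`. The computation of `F.coc2_loc`
(with `g` in place of `r x`: use `F.coc2_key` with `gx = gy = gz = g`) shows that `c0` is a coboundary on
`g (D v ∩ Stab x) g⁻¹ = H ∩ g D v g⁻¹`, of the function
`s ↦ i (b s') x + C g s' x0 + C s g x0`, `s' = g⁻¹ s g` (`NN`-finite on that subgroup: `N` is normal,
intersect the `N` of `b`, of `c` and the one acting trivially on `X`). `hL` gives `c0 = d be` on `H`;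
`F.coc2_cob` gives `C s t x = B s x + B t (s⁻¹ x) + B (s t) x` with
`B s x = be (r x * s * (r (s⁻¹ x))⁻¹) + C (r x) s x0 + C (r x * s * (r (s⁻¹ x))⁻¹) (r (s⁻¹ x)) x0`.
`b s := p (B s)`: `c s t = p (i (c s t)) = p (B s) + ac s (p (B t)) + p (B (s t))` by `p_ac`. `B` is
`NN`-finite: `N` normal with `N ≤ H`, acting trivially on `X`.
-/

set_option autoImplicit false

namespace Pool.Agent.SmN.Sys

open MulAction

variable {G V V1 Pl X : Type*} [Group G] [AddCommGroup V] [DistribMulAction G V]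
    [AddCommGroup V1] [Module (ZMod 2) V1] (S : Sys G V V1 Pl) [Fintype X] [MulAction G X]

theorem hasse_of (inf_mem : ∀ N ∈ S.NN, ∀ N' ∈ S.NN, N ⊓ N' ∈ S.NN)
    (normal : ∀ N ∈ S.NN, N.Normal)
    {i : V1 →ₗ[ZMod 2] (X → ZMod 2)} {p : (X → ZMod 2) →ₗ[ZMod 2] V1} (hP : PermOk S X i p)
    {x0 : X} {r : X → G} (hr : ∀ x, r x • x = x0)
    (hL : ∀ c : G → G → ZMod 2, S.TF2 c →
      (∀ s ∈ stabilizer G x0, ∀ t ∈ stabilizer G x0, ∀ u ∈ stabilizer G x0,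
        c s t + c (s * t) u = c t u + c s (t * u)) →
      (∀ (v : Pl) (g : G), ∃ b : G → ZMod 2,
        S.TFOn (stabilizer G x0 ⊓ (S.D v).map (MulAut.conj g).toMonoidHom) b ∧
        ∀ s ∈ stabilizer G x0, g⁻¹ * s * g ∈ S.D v → ∀ t ∈ stabilizer G x0, g⁻¹ * t * g ∈ S.D v →
          c s t = b s + b t + b (s * t)) →
      ∃ b : G → ZMod 2, S.TFOn (stabilizer G x0) b ∧
        ∀ s ∈ stabilizer G x0, ∀ t ∈ stabilizer G x0, c s t = b s + b t + b (s * t)) :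
    ∀ c : G → G → V1, S.TF2 c →
    (∀ s t w, c s t + c (s * t) w = S.ac s (c t w) + c s (t * w)) →
    (∀ v, ∃ b : G → V1, S.TFOn (S.D v) b ∧
      ∀ s ∈ S.D v, ∀ t ∈ S.D v, c s t = b s + S.ac s (b t) + b (s * t)) →
    ∃ b : G → V1, S.TF b ∧ ∀ s t, c s t = b s + S.ac s (b t) + b (s * t) := by
  classical
  intro c hc2 hcoc hloc
  have hN1 : ∀ N : Subgroup G, N ∈ S.NN → ∀ n ∈ N, ∀ g : G, g * n * g⁻¹ ∈ N :=
    fun N hN n hn g => (normal N hN).conj_mem n hn g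
  have hN2 : ∀ N : Subgroup G, N ∈ S.NN → ∀ n ∈ N, ∀ g : G, g⁻¹ * n * g ∈ N := by
    intro N hN n hn g
    have h := (normal N hN).conj_mem n hn g⁻¹
    rwa [inv_inv] at h
  obtain ⟨Nc, hNc, hcN⟩ := hc2
  obtain ⟨NX, hNX, hXN⟩ := hP.triv
  set C : G → G → X → ZMod 2 := fun s t x => i (c s t) x with hC
  have hCl : ∀ s t x, ∀ m ∈ Nc, C s (t * m) x = C s t x := by
    intro s t x m hm
    have h := hcN s t 1 Nc.one_mem m hm
    rw [mul_one] at h
    change i (c s (t * m)) x = i (c s t) x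
    rw [h]
  have hCr : ∀ s t x, ∀ n ∈ Nc, C (s * n) t x = C s t x := by
    intro s t x n hn
    have h := hcN s t n hn 1 Nc.one_mem
    rw [mul_one] at h
    change i (c (s * n) t) x = i (c s t) x
    rw [h]
  have hC2 : F.IsCoc2 C := by
    intro s t u x
    have h := congrFun (congrArg i (hcoc s t u)) x
    rw [map_add, map_add, Pi.add_apply, Pi.add_apply, hP.i_ac] at h
    exact h
  -- the local conditions
  have hloc0 : ∀ (v : Pl) (g : G), ∃ b : G → ZMod 2,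
      S.TFOn (stabilizer G x0 ⊓ (S.D v).map (MulAut.conj g).toMonoidHom) b ∧
      ∀ s ∈ stabilizer G x0, g⁻¹ * s * g ∈ S.D v → ∀ t ∈ stabilizer G x0, g⁻¹ * t * g ∈ S.D v →
        C s t x0 = b s + b t + b (s * t) := by
    intro v g
    obtain ⟨b, ⟨Nb, hNb, hbN⟩, hb⟩ := hloc v
    refine ⟨fun s => i (b (g⁻¹ * s * g)) (g⁻¹ • x0) + C g (g⁻¹ * s * g) x0 + C s g x0,
      ⟨Nb ⊓ Nc, inf_mem Nb hNb Nc hNc, ?_⟩, ?_⟩
    · intro s hs n hn hnH
      have hD : ∀ s ∈ stabilizer G x0 ⊓ (S.D v).map (MulAut.conj g).toMonoidHom,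
          g⁻¹ * s * g ∈ S.D v := by
        intro s hs
        obtain ⟨d, hd, hds⟩ := Subgroup.mem_map.1 hs.2
        have hds' : g * d * g⁻¹ = s := hds
        rw [← hds', show g⁻¹ * (g * d * g⁻¹) * g = d by group]
        exact hd
      have e1 : g⁻¹ * (s * n) * g = (g⁻¹ * s * g) * (g⁻¹ * n * g) := by group
      change i (b (g⁻¹ * (s * n) * g)) (g⁻¹ • x0) + C g (g⁻¹ * (s * n) * g) x0 + C (s * n) g x0
        = i (b (g⁻¹ * s * g)) (g⁻¹ • x0) + C g (g⁻¹ * s * g) x0 + C s g x0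
      rw [e1, hbN _ (hD s hs) _ (hN2 Nb hNb n hn.1 g) (hD n hnH),
        hCl _ _ _ _ (hN2 Nc hNc n hn.2 g), hCr _ _ _ _ hn.2]
    · intro s hs hsD t ht htD
      have hsx : s • x0 = x0 := hs
      have htx : t • x0 = x0 := ht
      have hs' : (g⁻¹ * s * g) • (g⁻¹ • x0) = g⁻¹ • x0 := by
        rw [mul_smul, smul_inv_smul, mul_smul, hsx]
      have hs'' : (g⁻¹ * s * g)⁻¹ • (g⁻¹ • x0) = g⁻¹ • x0 := by
        rw [inv_smul_eq_iff, hs']
      have h0 : (g * (g⁻¹ * s * g) * g⁻¹) • x0 = x0 := by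
        rw [show g * (g⁻¹ * s * g) * g⁻¹ = s by group, hsx]
      have h1 := F.coc2_key hC2 (s := g⁻¹ * s * g) (t := g⁻¹ * t * g) (gx := g) (gy := g) (gz := g)
        (x := g⁻¹ • x0) (smul_inv_smul g x0) h0
      rw [show g * (g⁻¹ * s * g) * g⁻¹ = s by group, show g * (g⁻¹ * t * g) * g⁻¹ = t by group,
        show g⁻¹ * s * g * (g⁻¹ * t * g) = g⁻¹ * (s * t) * g by group,
        show g * (g⁻¹ * (s * t) * g) * g⁻¹ = s * t by group] at h1
      have h2 := congrFun (congrArg i (hb _ hsD _ htD)) (g⁻¹ • x0)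
      rw [map_add, map_add, Pi.add_apply, Pi.add_apply, hP.i_ac, hs'',
        show g⁻¹ * s * g * (g⁻¹ * t * g) = g⁻¹ * (s * t) * g by group] at h2
      have h3 : C (g⁻¹ * s * g) (g⁻¹ * t * g) (g⁻¹ • x0) = i (b (g⁻¹ * s * g)) (g⁻¹ • x0)
          + i (b (g⁻¹ * t * g)) (g⁻¹ • x0) + i (b (g⁻¹ * (s * t) * g)) (g⁻¹ • x0) := h2
      rw [h3] at h1
      change C s t x0 = (i (b (g⁻¹ * s * g)) (g⁻¹ • x0) + C g (g⁻¹ * s * g) x0 + C s g x0)
        + (i (b (g⁻¹ * t * g)) (g⁻¹ • x0) + C g (g⁻¹ * t * g) x0 + C t g x0)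
        + (i (b (g⁻¹ * (s * t) * g)) (g⁻¹ • x0) + C g (g⁻¹ * (s * t) * g) x0 + C (s * t) g x0)
      have e1 := F.z2_add_self (C g (g⁻¹ * s * g) x0 + C s g x0)
      have e2 := F.z2_add_self (C g (g⁻¹ * t * g) x0 + C t g x0)
      have e3 := F.z2_add_self (C g (g⁻¹ * (s * t) * g) x0 + C (s * t) g x0)
      linear_combination (-1 : ZMod 2) * h1 - e1 - e2 - e3
  obtain ⟨be, ⟨Ne, hNe, heN⟩, hbe⟩ := hL (fun s t => C s t x0)
    ⟨Nc, hNc, fun s t n hn m hm => by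
      change C (s * n) (t * m) x0 = C s t x0
      rw [hCr _ _ _ _ hn, hCl _ _ _ _ hm]⟩
    (fun s hs t _ u _ => by
      have h := hC2 s t u x0
      have hs' : s⁻¹ • x0 = x0 := by
        rw [inv_smul_eq_iff]
        exact (mem_stabilizer_iff.1 hs).symm
      rw [hs'] at h
      exact h) hloc0
  have hcob := F.coc2_cob hr hC2 (be := be) hbe
  set B : G → X → ZMod 2 := fun s x => be (r x * s * (r (s⁻¹ • x))⁻¹) + C (r x) s x0
    + C (r x * s * (r (s⁻¹ • x))⁻¹) (r (s⁻¹ • x)) x0 with hB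
  have hcob' : ∀ s t, i (c s t) = B s + (fun x => B t (s⁻¹ • x)) + B (s * t) := by
    intro s t
    funext x
    have h := hcob s t x
    have e : B t (s⁻¹ • x) = be (r (s⁻¹ • x) * t * (r (t⁻¹ • s⁻¹ • x))⁻¹) + C (r (s⁻¹ • x)) t x0
        + C (r (s⁻¹ • x) * t * (r (t⁻¹ • s⁻¹ • x))⁻¹) (r (t⁻¹ • s⁻¹ • x)) x0 := rfl
    rw [← e] at h
    exact h
  refine ⟨fun s => p (B s), ⟨Ne ⊓ Nc ⊓ NX, inf_mem _ (inf_mem _ hNe _ hNc) _ hNX, ?_⟩, ?_⟩
  · intro s n hn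
    have hne := hn.1.1
    have hnc := hn.1.2
    have hnx := hn.2
    have h : B (s * n) = B s := by
      funext x
      have h1 : (s * n)⁻¹ • x = s⁻¹ • x := by
        rw [mul_inv_rev, mul_smul, hXN _ (NX.inv_mem hnx)]
      change be (r x * (s * n) * (r ((s * n)⁻¹ • x))⁻¹) + C (r x) (s * n) x0
        + C (r x * (s * n) * (r ((s * n)⁻¹ • x))⁻¹) (r ((s * n)⁻¹ • x)) x0
        = be (r x * s * (r (s⁻¹ • x))⁻¹) + C (r x) s x0
        + C (r x * s * (r (s⁻¹ • x))⁻¹) (r (s⁻¹ • x)) x0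
      rw [h1, hCl _ _ _ _ hnc]
      have h2 : r x * (s * n) * (r (s⁻¹ • x))⁻¹
          = (r x * s * (r (s⁻¹ • x))⁻¹) * (r (s⁻¹ • x) * n * (r (s⁻¹ • x))⁻¹) := by group
      rw [h2, hCr _ _ _ _ (hN1 Nc hNc n hnc _),
        heN _ (F.sh_mem hr s x) _ (hN1 Ne hNe n hne _)
          (mem_stabilizer_iff.2 (hXN _ (hN1 NX hNX n hnx _) x0))]
    change p (B (s * n)) = p (B s)
    rw [h]
  · intro s t
    change c s t = p (B s) + S.ac s (p (B t)) + p (B (s * t))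
    rw [← hP.p_i (c s t), hcob' s t, map_add, map_add, hP.p_ac]

end Pool.Agent.SmN.Sys
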