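import Pool.Agent.Lib.SmN.F.Defs
import Pool.Agent.Lib.SmN.F.OrbL
import Pool.Agent.Lib.SmN.Loc.Sy

/-!
# SmN, block F: the statements over `L` (the field of the root `x0`)

`H = stabilizer G x0` = absolute Galois group of `L`. A place of `L` above `v` is an orbit of `D v`
on `X`. For `x : X` the elements `sgx v x`, `phx v x` of `D v ∩ Stab x` are a tame generator and a
Frobenius for the completion of `L` at the place of the orbit of `x` (transported to `x0` by `r x`).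
`LOk` = reciprocity, injectivity, duality, approximation and the Hasse principle over `L`.
-/

set_option autoImplicit false

namespace Pool.Agent.SmN.F

open MulAction Loc

/-- The Hilbert symbol of two homomorphisms in terms of the values at a tame generator and at a
Frobenius. -/
def sym (ep : ZMod 2) (a b : ZMod 2 × ZMod 2) : ZMod 2 := a.1 * b.2 + a.2 * b.1 + ep * (a.1 * b.1)

variable {G V V1 Pl : Type*} [Group G] [AddCommGroup V] [DistribMulAction G V]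
    [AddCommGroup V1] [Module (ZMod 2) V1] (S : Sys G V V1 Pl) (q : Pl → ℕ) {X : Type*}
    [MulAction G X] (E : Pl → X → ℕ × ℕ × ℕ)

/-- tame generator at `(v, x)` -/
def sgx (v : Pl) (x : X) : G := S.sg v ^ (E v x).1

/-- Frobenius at `(v, x)` -/
def phx (v : Pl) (x : X) : G := S.sg v ^ (E v x).2.2 * S.phi v ^ (E v x).2.1

/-- order of the residue field at `(v, x)` -/
def qx (v : Pl) (x : X) : ℕ := q v ^ (E v x).2.1

/-- `(q_w - 1) / 2` -/
def epx (v : Pl) (x : X) : ZMod 2 := (((qx q E v x - 1) / 2 : ℕ) : ZMod 2)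

/-- the pair of values at `(v, x)` of a homomorphism on `H` -/
def lp (r : X → G) (v : Pl) (x : X) (b : G → ZMod 2) : ZMod 2 × ZMod 2 :=
  (b (r x * sgx S E v x * (r x)⁻¹), b (r x * phx S E v x * (r x)⁻¹))

/-- The exponents. -/
structure OrbE : Prop where
  efj : ∀ v x, Efj (S.D v) (S.sg v) (S.phi v) x (E v x).1 (E v x).2.1 (E v x).2.2
  formula : ∀ v x, ∀ B : G → G → X → ZMod 2,
      (∃ N ∈ S.NN, ∀ s ∈ S.D v, ∀ t ∈ S.D v, ∀ n ∈ N, n ∈ S.D v → ∀ m ∈ N, m ∈ S.D v →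
        B (s * n) (t * m) = B s t) →
      (∀ s ∈ S.D v, ∀ t ∈ S.D v, ∀ u ∈ S.D v, ∀ y ∈ orbit (S.D v) x,
        B s t y + B (s * t) u y = B t u (s⁻¹ • y) + B s (t * u) y) →
      inv (sgx S E v x) (phx S E v x) (qx q E v x) (fun s t => B s t x) =
        inv (S.sg v) (S.phi v) (q v) (fun s t => ∑ᶠ y : orbit (S.D v) x, B s t y)

theorem exists_orbE [Finite X]
    (hG : ∀ v, LG S.NN (S.D v) (S.sg v) (S.phi v) (q v) X) :
    ∃ E : Pl → X → ℕ × ℕ × ℕ, OrbE S q E := by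
  choose e f j h1 h2 using fun v x => orb_inv (X := X) (hG v) x
  exact ⟨fun v x => (e v x, f v x, j v x), ⟨fun v x => h1 v x, fun v x => h2 v x⟩⟩

/-- The statements over `L`. -/
structure LOk (x0 : X) (r : X → G) (T0 : Finset Pl) : Prop where
  /-- finitely many places ramified in `L` -/
  unr : ∀ v, v ∉ T0 → ∀ x : X, S.sg v • x = x
  recip : ∀ b b' : G → ZMod 2, S.HomH (stabilizer G x0) b → S.HomH (stabilizer G x0) b' →
    ∑ᶠ v, ∑ᶠ o : orbitRel.Quotient (S.D v) X,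
      sym (epx q E v o.out) (lp S E r v o.out b) (lp S E r v o.out b') = 0
  inj : ∀ T : Finset Pl, T0 ⊆ T → ∀ b : G → ZMod 2, S.HomH (stabilizer G x0) b →
    (∀ v, v ∉ T → ∀ x, (lp S E r v x b).1 = 0) → (∀ v ∈ T, ∀ x, lp S E r v x b = 0) →
    ∀ s ∈ stabilizer G x0, b s = 0
  lag : ∀ T : Finset Pl, T0 ⊆ T → ∀ xi : ∀ v : Pl, orbitRel.Quotient (S.D v) X → ZMod 2 × ZMod 2,
    (∀ b : G → ZMod 2, S.HomH (stabilizer G x0) b → (∀ v, v ∉ T → ∀ x, (lp S E r v x b).1 = 0) →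
      ∑ v ∈ T, ∑ᶠ o : orbitRel.Quotient (S.D v) X,
        sym (epx q E v o.out) (xi v o) (lp S E r v o.out b) = 0) →
    ∃ b : G → ZMod 2, S.HomH (stabilizer G x0) b ∧ (∀ v, v ∉ T → ∀ x, (lp S E r v x b).1 = 0) ∧
      ∀ v ∈ T, ∀ o : orbitRel.Quotient (S.D v) X, lp S E r v o.out b = xi v o
  one : ∀ T : Finset Pl, T0 ⊆ T → ∀ w, w ∉ T → ∀ o : orbitRel.Quotient (S.D w) X,
    ∃ b : G → ZMod 2, S.HomH (stabilizer G x0) b ∧
      (∀ v, v ∉ T → v ≠ w → ∀ x, (lp S E r v x b).1 = 0) ∧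
      (∀ x, x ∈ orbit (S.D w) o.out → (lp S E r w x b).1 = 1) ∧
      (∀ x, x ∉ orbit (S.D w) o.out → (lp S E r w x b).1 = 0)
  hasse : ∀ c : G → G → ZMod 2, S.TF2 c →
      (∀ s ∈ stabilizer G x0, ∀ t ∈ stabilizer G x0, ∀ u ∈ stabilizer G x0,
        c s t + c (s * t) u = c t u + c s (t * u)) →
      (∀ (v : Pl) (g : G), ∃ b : G → ZMod 2,
        S.TFOn (stabilizer G x0 ⊓ (S.D v).map (MulAut.conj g).toMonoidHom) b ∧
        ∀ s ∈ stabilizer G x0, g⁻¹ * s * g ∈ S.D v → ∀ t ∈ stabilizer G x0, g⁻¹ * t * g ∈ S.D v →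
          c s t = b s + b t + b (s * t)) →
      ∃ b : G → ZMod 2, S.TFOn (stabilizer G x0) b ∧
        ∀ s ∈ stabilizer G x0, ∀ t ∈ stabilizer G x0, c s t = b s + b t + b (s * t)

end Pool.Agent.SmN.F
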