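import Pool.Agent.Lib.SmN.Loc.Sy

/-!
# SmN, block F: the bilinear form `sy v` is nondegenerate on `V1 × V1`

`sy v x y = e(x2, F y1) + e(N_q x1, A^q y2) + ∑ e(N_i x1, A^i y1)`, and `N_q = 1 + A + .. + A^(q-1)` is
injective: if `N_q x = 0` then `A^q x = x`, and `ker (A^q - 1) = F ker (A - 1)`, so `A x = x`, `N_q x = q x
= x`.
-/

set_option autoImplicit false

open Finset

namespace Pool.Agent.SmN.F

open Loc

variable {G V V1 Pl : Type*} [Group G] [AddCommGroup V] [DistribMulAction G V]
    [AddCommGroup V1] [Module (ZMod 2) V1] {S : Sys G V V1 Pl} {q : Pl → ℕ}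

theorem nrm_sub (A : V1 ≃ₗ[ZMod 2] V1) (n : ℕ) (x : V1) :
    A (nrm A n x) - nrm A n x = (A ^ n) x - x := by
  induction n with
  | zero => simp [nrm_apply]
  | succ n ih =>
    rw [nrm_succ, map_add, pow_succ']
    change A (nrm A n x) + A ((A ^ n) x) - (nrm A n x + (A ^ n) x) = A ((A ^ n) x) - x
    have h1 : A (nrm A n x) = nrm A n x + ((A ^ n) x - x) := by rw [← ih]; abel
    rw [h1]
    abel

theorem nrm_fix (A : V1 ≃ₗ[ZMod 2] V1) {x : V1} (hx : A x = x) {n : ℕ} (hn : Odd n) :
    nrm A n x = x := by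
  have h1 : ∀ m : ℕ, (A ^ m) x = x := by
    intro m
    induction m with
    | zero => rfl
    | succ m ih =>
      rw [pow_succ]
      change (A ^ m) (A x) = x
      rw [hx, ih]
  rw [nrm_apply, sum_congr rfl fun j _ => h1 j, sum_const, card_range]
  obtain ⟨m, rfl⟩ := hn
  rw [add_smul, one_smul, mul_comm, mul_smul, two_smul, ZModModule.add_self, smul_zero, zero_add]

theorem nrm_inj [Finite V1] {A F : V1 ≃ₗ[ZMod 2] V1} {n : ℕ} (hn : Odd n)
    (h : F * A = A ^ n * F) {x : V1} (hx : nrm A n x = 0) : x = 0 := by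
  have h1 : (A ^ n) x = x := by
    have h2 := nrm_sub A n x
    rw [hx, map_zero, sub_zero] at h2
    exact sub_eq_zero.1 h2.symm
  -- the fixed points of `A ^ n` and of `A`
  let P : Set V1 := {y | (A ^ n) y = y}
  let Q : Set V1 := {y | A y = y}
  have hQP : Q ⊆ P := by
    intro y hy
    change (A ^ n) y = y
    have h3 : ∀ m : ℕ, (A ^ m) y = y := by
      intro m
      induction m with
      | zero => rfl
      | succ m ih =>
        rw [pow_succ]
        change (A ^ m) (A y) = y
        have h4 : A y = y := hy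
        rw [h4, ih]
    exact h3 n
  have hF : ∀ y ∈ P, F.symm y ∈ Q := by
    intro y hy
    change A (F.symm y) = F.symm y
    apply F.injective
    have h3 : (F * A) (F.symm y) = (A ^ n * F) (F.symm y) := by rw [h]
    change F (A (F.symm y)) = (A ^ n) (F (F.symm y)) at h3
    rw [h3, LinearEquiv.apply_symm_apply]
    exact hy
  have hPQ : P = Q := by
    have h3 : Nat.card P ≤ Nat.card Q :=
      Nat.card_le_card_of_injective (fun y : P => (⟨F.symm y, hF y y.2⟩ : Q)) (by
        intro a b hab
        exact Subtype.ext (F.symm.injective (congrArg Subtype.val hab)))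
    exact (Set.eq_of_subset_of_ncard_le hQP (by simpa [Nat.card_coe_set_eq] using h3)
      (Set.toFinite _)).symm
  have h5 : A x = x := by
    have h6 : x ∈ P := h1
    rw [hPQ] at h6
    exact h6
  rw [nrm_fix A h5 hn] at hx
  exact hx

theorem sy_nondeg [Finite V1] (h : LocD S q) (e_nondeg : ∀ w, (∀ w', S.e w w' = 0) → w = 0)
    (v : Pl) (x : V1 × V1) (hx : ∀ y, S.sy v x y = 0) : x = 0 := by
  obtain ⟨x1, x2⟩ := x
  simp only [h.sy_eq, syf_apply] at hx
  have h1 : x1 = 0 := by
    refine nrm_inj (h.q_odd v) (A := S.ac (S.sg v)) (F := S.ac (S.phi v)) ?_ (e_nondeg _ fun w' => ?_)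
    · rw [← map_mul, h.ac_rel, map_mul, map_pow]
    · have h2 := hx (0, (S.ac (S.sg v) ^ q v).symm w')
      simp only [map_zero, zero_add, LinearEquiv.apply_symm_apply, sum_const_zero, add_zero] at h2
      exact h2
  have h2 : x2 = 0 := by
    refine e_nondeg _ fun w' => ?_
    have h3 := hx ((S.ac (S.phi v)).symm w', 0)
    simp only [h1, map_zero, LinearEquiv.apply_symm_apply, LinearMap.zero_apply, sum_const_zero,
      add_zero] at h3
    exact h3
  rw [h1, h2]
  rfl

end Pool.Agent.SmN.F
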