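import Pool.Agent.Lib.SmN.F.VL
import Pool.Agent.Lib.SmN.F.LocLin
import Pool.Agent.Lib.SmN.F.DualV
import Pool.Agent.Lib.SmN.F.CorrV
import Pool.Agent.Lib.SmN.F.HasseV

/-!
# SmN, block F: the fields `hasse`, `recip`, `corr`, `dual` of `Sys.Ok` from the statements over `L`
-/

set_option autoImplicit false

namespace Pool.Agent.SmN.F

open MulAction Loc

variable {G V V1 Pl : Type*} [Group G] [AddCommGroup V] [DistribMulAction G V]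
    [AddCommGroup V1] [Module (ZMod 2) V1] {S : Sys G V V1 Pl} {q : Pl → ℕ} {X : Type*}
    [Fintype X] [MulAction G X] {E : Pl → X → ℕ × ℕ × ℕ}
    {i : V1 →ₗ[ZMod 2] (X → ZMod 2)} {p : (X → ZMod 2) →ₗ[ZMod 2] V1}
    {x0 : X} {r : X → G} {T0 : Finset Pl}

/-- The field `dual`. -/
theorem dualV [Finite V1] (hL : LocD S q) (hP : PermOk S X i p) (hE : OrbE S q E)
    (hG : ∀ v, LG S.NN (S.D v) (S.sg v) (S.phi v) (q v) X) (top_mem : ⊤ ∈ S.NN)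
    (inf_mem : ∀ N ∈ S.NN, ∀ N' ∈ S.NN, N ⊓ N' ∈ S.NN)
    (e_nondeg : ∀ w, (∀ w', S.e w w' = 0) → w = 0) (hr : ∀ x, r x • x = x0)
    (hK : LOk S q E x0 r T0) :
    ∀ W : Pl → AddSubgroup (V1 × V1), (∀ v, (W v : Set (V1 × V1)) ⊆ S.CP v) →
    (∀ v z, S.cob v z ∈ W v) → (∀ v, Nat.card (W v) = Nat.card V1) →
    (∀ v, ∀ x ∈ W v, ∀ y ∈ W v, S.sy v x y = 0) →
    {v | ¬ ∀ x : V1 × V1, x ∈ W v ↔ x.1 = 0}.Finite →
    ∀ xi : Pl → V1 × V1, (∀ v, xi v ∈ S.CP v) → {v | xi v ∉ W v}.Finite →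
    (∀ b : G → V1, S.CocG b → (∀ v, S.loc v b ∈ W v) →
      ∑ᶠ v, S.sy v (xi v) (S.loc v b) = 0) →
    ∃ om : G → V1, S.CocG om ∧ ∀ v, S.loc v om - xi v ∈ W v := by
  refine S.dual_of top_mem inf_mem (sy_nondeg hL e_nondeg) (fun v x hx y hy => hL.sy_comm v x hx y hy)
    (fun v x hx z => hL.sy_cob v x hx z) (fun c d hc hd => recipV hL hP hE inf_mem hr hK hc hd) T0 ?_
    (fun T hT => lagV hL hP hE hG inf_mem hr hK hT)
  intro v _ x _ y _ hx hy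
  rw [hL.sy_eq, syf_apply, hx, hy]
  simp

/-- The field `corr`. -/
theorem corrV (hL : LocD S q) (hP : PermOk S X i p) (hE : OrbE S q E)
    (hG : ∀ v, LG S.NN (S.D v) (S.sg v) (S.phi v) (q v) X) (top_mem : ⊤ ∈ S.NN)
    (inf_mem : ∀ N ∈ S.NN, ∀ N' ∈ S.NN, N ⊓ N' ∈ S.NN) (hr : ∀ x, r x • x = x0)
    (hK : LOk S q E x0 r T0) (good_fin : S.goodᶜ.Finite) (hgood : ∀ v ∈ S.good, v ∉ T0) :
    ∀ w : Pl → V1, {v | w v ≠ 0}.Finite → (∀ v ∈ S.good, S.ac (S.phi v) (w v) = w v) →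
    ∃ c : G → V1, S.CocG c ∧ ∀ v ∈ S.good, c (S.sg v) = w v := by
  refine S.corr_of top_mem inf_mem fun w hw x hx => ?_
  have hT : T0 ⊆ good_fin.toFinset := by
    intro v hv
    rw [good_fin.mem_toFinset]
    exact fun h => hgood v h hv
  obtain ⟨c, hc, h1, h2⟩ := oneV hL hP hE inf_mem hr hG top_mem hK hT (w := w)
    (by rw [good_fin.mem_toFinset]; exact fun h => h hw) hx
  refine ⟨c, hc, h1, fun v hv hvw => h2 v ?_ hvw⟩
  rw [good_fin.mem_toFinset]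
  exact fun h => h hv

/-- The field `hasse`. -/
theorem hasseV (hL : LocD S q) (hP : PermOk S X i p)
    (inf_mem : ∀ N ∈ S.NN, ∀ N' ∈ S.NN, N ⊓ N' ∈ S.NN) (hr : ∀ x, r x • x = x0)
    (hK : LOk S q E x0 r T0) :
    ∀ c : G → G → V1, S.TF2 c →
    (∀ s t w, c s t + c (s * t) w = S.ac s (c t w) + c s (t * w)) →
    (∀ v, ∃ b : G → V1, S.TFOn (S.D v) b ∧
      ∀ s ∈ S.D v, ∀ t ∈ S.D v, c s t = b s + S.ac s (b t) + b (s * t)) →
    ∃ b : G → V1, S.TF b ∧ ∀ s t, c s t = b s + S.ac s (b t) + b (s * t) :=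
  S.hasse_of inf_mem hL.normal hP hr hK.hasse

end Pool.Agent.SmN.F
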