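import Pool.Agent.Lib.SmN.F.LOk
import Pool.Agent.Lib.SmN.F.Shap

/-!
# SmN, block F: the local pairing as a sum of Hilbert symbols over the orbits
-/

set_option autoImplicit false

open Finset

namespace Pool.Agent.SmN.F

open MulAction Loc

section inv

variable {G : Type*} [Group G]

theorem inv_sum {ι : Type*} (J : Finset ι) (sg ph : G) (q : ℕ) (c : ι → G → G → ZMod 2) :
    inv sg ph q (fun s t => ∑ i ∈ J, c i s t) = ∑ i ∈ J, inv sg ph q (c i) := by
  classical
  induction J using Finset.induction_on with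
  | empty => simp [inv]
  | insert i J hi ih =>
    simp only [sum_insert hi]
    rw [inv_add, ih]

/-- The invariant of the cup product of two homomorphisms. -/
theorem inv_hom {sg ph : G} {q : ℕ} (hq : Odd q) (c : G → G → ZMod 2) {a b a' b' : ZMod 2}
    (h1 : c ph sg = b * a') (h2 : c (sg ^ q) ph = a * b')
    (h3 : ∀ i : ℕ, c (sg ^ i) sg = i * (a * a')) :
    inv sg ph q c = sym (((q - 1) / 2 : ℕ) : ZMod 2) (a, b) (a', b') := by
  unfold inv sym
  rw [h1, h2, sum_congr rfl fun i _ => h3 i, ← sum_mul]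
  obtain ⟨m, rfl⟩ := hq
  have h4 : ∀ n : ℕ, ∑ i ∈ Ico 1 (n + 1), (i : ZMod 2) = ((n * (n + 1) / 2 : ℕ) : ZMod 2) := by
    intro n
    induction n with
    | zero => simp
    | succ n ih =>
      rw [sum_Ico_succ_top (by omega), ih, ← Nat.cast_add]
      congr 1
      have h5 : (n + 1) * (n + 1 + 1) = n * (n + 1) + 2 * (n + 1) := by ring
      rw [h5, Nat.add_mul_div_left _ _ (by norm_num)]
  rw [h4]
  have h6 : 2 * m * (2 * m + 1) / 2 = m * (2 * m + 1) := by
    rw [mul_assoc]
    exact Nat.mul_div_cancel_left _ (by norm_num)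
  have h7 : (2 * m + 1 - 1) / 2 = m := by omega
  rw [h6, h7]
  push_cast
  have e1 : (2 : ZMod 2) = 0 := by decide
  linear_combination (m : ZMod 2) * m * (a * a') * e1

end inv

variable {G V V1 Pl : Type*} [Group G] [AddCommGroup V] [DistribMulAction G V]
    [AddCommGroup V1] [Module (ZMod 2) V1] {S : Sys G V V1 Pl} {q : Pl → ℕ} {X : Type*}
    [Fintype X] [MulAction G X] {E : Pl → X → ℕ × ℕ × ℕ}
    {i : V1 →ₗ[ZMod 2] (X → ZMod 2)} {p : (X → ZMod 2) →ₗ[ZMod 2] V1}

/-- A cocycle in `V1` is a cocycle in `X → ZMod 2`. -/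
theorem isCoc_i (hP : PermOk S X i p) {D : Subgroup G} {c : G → V1} (hc : Coc S.ac D c) :
    IsCoc D (fun s => i (c s)) := by
  intro s hs t ht x
  change i (c (s * t)) x = i (c s) x + i (c t) (s⁻¹ • x)
  rw [hc s hs t ht, map_add, Pi.add_apply, hP.i_ac]

/-- The projection of a cocycle. -/
theorem coc_p (hP : PermOk S X i p) {D : Subgroup G} {B : G → X → ZMod 2} (hB : IsCoc D B) :
    Coc S.ac D (fun s => p (B s)) := by
  intro s hs t ht
  change p (B (s * t)) = p (B s) + S.ac s (p (B t))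
  rw [← hP.p_ac, ← map_add]
  congr 1
  funext x
  exact hB s hs t ht x

omit [Fintype X] in
/-- A cocycle restricted to the stabiliser: powers. -/
theorem IsCoc.pow_fix {D : Subgroup G} {B : G → X → ZMod 2} (hB : IsCoc D B) {s : G} (hs : s ∈ D)
    {x : X} (hx : s • x = x) (n : ℕ) : B (s ^ n) x = n * B s x := by
  have hx' : s⁻¹ • x = x := by rw [inv_smul_eq_iff, hx]
  induction n with
  | zero => rw [pow_zero, hB.one, Nat.cast_zero, zero_mul]
  | succ n ih =>
    rw [pow_succ', hB s hs _ (D.pow_mem hs n), hx', ih]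
    push_cast
    ring

omit [Fintype X] [MulAction G X] in
theorem sgx_mem (hL : LocD S q) (v : Pl) (x : X) : sgx S E v x ∈ S.D v :=
  (S.D v).pow_mem (hL.sg_mem v) _

omit [Fintype X] [MulAction G X] in
theorem phx_mem (hL : LocD S q) (v : Pl) (x : X) : phx S E v x ∈ S.D v :=
  (S.D v).mul_mem ((S.D v).pow_mem (hL.sg_mem v) _) ((S.D v).pow_mem (hL.phi_mem v) _)

/-- The local pairing as a sum over the orbits. -/
theorem sy_orb (hL : LocD S q) (hP : PermOk S X i p) (hE : OrbE S q E)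
    (inf_mem : ∀ N ∈ S.NN, ∀ N' ∈ S.NN, N ⊓ N' ∈ S.NN) (v : Pl)
    {c : G → V1} (hc : Coc S.ac (S.D v) c) (hcf : S.TFOn (S.D v) c)
    {B : G → X → ZMod 2} (hB : IsCoc (S.D v) B) (hBf : S.TFOn (S.D v) B) :
    S.sy v (S.loc v c) (S.loc v (fun s => p (B s))) =
      ∑ᶠ o : orbitRel.Quotient (S.D v) X,
        sym (epx q E v o.out)
          (i (c (sgx S E v o.out)) o.out, i (c (phx S E v o.out)) o.out)
          (B (sgx S E v o.out) o.out, B (phx S E v o.out) o.out) := by
  classical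
  have : Finite (orbitRel.Quotient (S.D v) X) := Quotient.finite _
  have : Fintype (orbitRel.Quotient (S.D v) X) := Fintype.ofFinite _
  rw [hL.sy_loc v hc, finsum_eq_sum_of_fintype]
  -- the cocycle
  let B2 : G → G → X → ZMod 2 := fun s t x => i (c s) x * B t (s⁻¹ • x)
  have hcup : ∀ s t, cup S.ac S.e c (fun s => p (B s)) s t = ∑ x, B2 s t x := by
    intro s t
    unfold cup
    rw [← hP.p_ac, hL.e_comm, hP.adj]
    exact sum_congr rfl fun x _ => mul_comm _ _
  have hsplit : ∀ f : X → ZMod 2, ∑ x, f x =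
      ∑ o : orbitRel.Quotient (S.D v) X, ∑ᶠ y : orbit (S.D v) o.out, f y := by
    intro f
    have e := selfEquivSigmaOrbits (S.D v) X
    have h1 : ∀ o : orbitRel.Quotient (S.D v) X, Fintype (orbit (S.D v) o.out) :=
      fun o => Fintype.ofFinite _
    rw [← (selfEquivSigmaOrbits (S.D v) X).symm.sum_comp, Fintype.sum_sigma]
    refine sum_congr rfl fun o _ => ?_
    rw [finsum_eq_sum_of_fintype]
    rfl
  have hinv : inv (S.sg v) (S.phi v) (q v) (cup S.ac S.e c (fun s => p (B s))) =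
      ∑ o : orbitRel.Quotient (S.D v) X, inv (S.sg v) (S.phi v) (q v)
        (fun s t => ∑ᶠ y : orbit (S.D v) o.out, B2 s t y) := by
    rw [← inv_sum]
    unfold inv
    simp only [hcup, hsplit]
  rw [hinv]
  refine sum_congr rfl fun o _ => ?_
  set x := o.out with hx
  rw [← hE.formula v x B2]
  · have hs := (hE.efj v x).sg_fix
    have hp := (hE.efj v x).ph_fix
    have hsm := sgx_mem (E := E) hL v x
    have hpm := phx_mem (E := E) hL v x
    have hs' : (sgx S E v x)⁻¹ • x = x := by rw [inv_smul_eq_iff]; exact hs.symm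
    have hp' : (phx S E v x)⁻¹ • x = x := by rw [inv_smul_eq_iff]; exact hp.symm
    have hci := isCoc_i hP hc
    have hsn : ∀ n : ℕ, (sgx S E v x ^ n)⁻¹ • x = x := by
      intro n
      induction n with
      | zero => rw [pow_zero, inv_one, one_smul]
      | succ n ih => rw [pow_succ', mul_inv_rev, mul_smul, hs', ih]
    have hqo : Odd (qx q E v x) := (hL.q_odd v).pow
    refine inv_hom hqo _ ?_ ?_ ?_
    · change i (c (phx S E v x)) x * B (sgx S E v x) ((phx S E v x)⁻¹ • x) = _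
      rw [hp']
    · change i (c (sgx S E v x ^ qx q E v x)) x * B (phx S E v x) ((sgx S E v x ^ qx q E v x)⁻¹ • x) = _
      rw [hsn]
      have h1 := hci.pow_fix hsm hs (qx q E v x)
      change i (c (sgx S E v x ^ qx q E v x)) x = _ at h1
      rw [h1]
      have h2 : ((qx q E v x : ℕ) : ZMod 2) = 1 := by
        obtain ⟨m, hm⟩ := hqo
        rw [hm]
        push_cast
        have e1 : (2 : ZMod 2) = 0 := by decide
        rw [e1, zero_mul, zero_add]
      rw [h2, one_mul]
    · intro n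
      change i (c (sgx S E v x ^ n)) x * B (sgx S E v x) ((sgx S E v x ^ n)⁻¹ • x) = _
      rw [hsn]
      have h1 := hci.pow_fix hsm hs n
      change i (c (sgx S E v x ^ n)) x = _ at h1
      rw [h1, mul_assoc]
  · -- finite level
    obtain ⟨N1, hN1, h1⟩ := hcf
    obtain ⟨N2, hN2, h2⟩ := hBf
    obtain ⟨N0, hN0, h0⟩ := hP.triv
    refine ⟨N1 ⊓ N2 ⊓ N0, inf_mem _ (inf_mem _ hN1 _ hN2) _ hN0, ?_⟩
    intro s hs t ht n hn hnD m hm hmD
    funext y
    change i (c (s * n)) y * B (t * m) ((s * n)⁻¹ • y) = i (c s) y * B t (s⁻¹ • y)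
    have h3 : (s * n)⁻¹ • y = s⁻¹ • y := by
      rw [mul_inv_rev, mul_smul]
      exact h0 _ (N0.inv_mem hn.2) _
    rw [h1 s hs n hn.1.1 hnD, h2 t ht m hm.1.2 hmD, h3]
  · intro s hs t ht u hu y _
    change i (c s) y * B t (s⁻¹ • y) + i (c (s * t)) y * B u ((s * t)⁻¹ • y) =
      i (c t) (s⁻¹ • y) * B u (t⁻¹ • s⁻¹ • y) + i (c s) y * B (t * u) (s⁻¹ • y)
    have h1 := isCoc_i hP hc s hs t ht y
    change i (c (s * t)) y = i (c s) y + i (c t) (s⁻¹ • y) at h1
    rw [h1, hB t ht u hu, mul_inv_rev, mul_smul]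
    ring

end Pool.Agent.SmN.F
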