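import Pool.Agent.Lib.SmN.F.LInst

/-!
# SmN, block F: the localisation of the quadratic characters of `L` at the places above one place

`surj_std`: every family of pairs of values, indexed by the orbits of `D v` on `X` (= the places of
`L` above `v`), is the family of the pairs of a quadratic character of `L` (weak approximation).
-/

set_option autoImplicit false
set_option linter.unusedSectionVars false

open IsLocalRing

namespace Pool.Agent.SmN.F

open MulAction Pool.Agent.GBU Pool.Agent.BSDFF Pool.Agent.Lib.SmD Loc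

variable {k K L : Type} [Field k] [Finite k] [Field K] [Algebra k K] [Algebra (RatFunc k) K]
  [IsScalarTower k (RatFunc k) K] [FiniteDimensional (RatFunc k) K]
  [Algebra.IsSeparable (RatFunc k) K]
  [Field L] [Algebra k L] [Algebra (RatFunc k) L]
  [IsScalarTower k (RatFunc k) L] [FiniteDimensional (RatFunc k) L]
  [Algebra.IsSeparable (RatFunc k) L] [Algebra K L] [FiniteDimensional K L]
  {Om : Type} [Field Om] [Algebra K Om] [IsSepClosure K Om] [Algebra L Om] [IsSepClosure L Om]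
  [IsScalarTower K L Om]
  {X : Type} [MulAction (Om ≃ₐ[K] Om) X]
  {V V1 : Type} [AddCommGroup V] [DistribMulAction (Om ≃ₐ[K] Om) V] [AddCommGroup V1]
  [Module (ZMod 2) V1]
  {S : Sys (Om ≃ₐ[K] Om) V V1 (Place k K)}
  [Fintype X] {x0 : X} {r : X → (Om ≃ₐ[K] Om)} {E : Place k K → X → ℕ × ℕ × ℕ}

theorem surj_std [Nonempty X] (h2 : (2 : k) ≠ 0) (hS : IsStd S) (hr : ∀ x, r x • x = x0)
    (hst : stabilizer (Om ≃ₐ[K] Om) x0 = rg K L Om)
    (htriv : ∃ N ∈ NP K Om, ∀ n ∈ N, ∀ x : X, n • x = x) (hE : OrbE S (fun v => qK v) E)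
    (v : Place k K) (a : orbitRel.Quotient (S.D v) X → ZMod 2 × ZMod 2) :
    ∃ b : (Om ≃ₐ[K] Om) → ZMod 2, S.HomH (stabilizer (Om ≃ₐ[K] Om) x0) b ∧
      ∀ o : orbitRel.Quotient (S.D v) X, lp S E r v o.out b = a o := by
  classical
  have hgalK : IsGalois K Om := inferInstance
  have h2' : (2 : L) ≠ 0 := two_ne_K h2
  have hfinQ : Finite (orbitRel.Quotient (S.D v) X) := Quotient.finite _
  -- the elements over `L`
  have hsL : ∀ x, ∃ s : Om ≃ₐ[L] Om, res K s = r x * sgx S E v x * (r x)⁻¹ := by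
    intro x
    obtain ⟨s, hs⟩ := (conj_mem_rg (L := L) hr hst (s := sgx S E v x) (x := x)).2 (hE.efj v x).sg_fix
    exact ⟨s, hs⟩
  have hpL : ∀ x, ∃ s : Om ≃ₐ[L] Om, res K s = r x * phx S E v x * (r x)⁻¹ := by
    intro x
    obtain ⟨s, hs⟩ := (conj_mem_rg (L := L) hr hst (s := phx S E v x) (x := x)).2 (hE.efj v x).ph_fix
    exact ⟨s, hs⟩
  choose s' hs' using hsL
  choose p' hp' using hpL
  have hLV := fun x => (lval_pL (L := L) hr hst h2 hS htriv hE v x (hs' x) (hp' x)).1
  -- the local elements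
  choose f hf0 hf using fun o : orbitRel.Quotient (S.D v) X => (hLV o.out).exists_pair h2 (a o)
  have hinj : ∀ o o' : orbitRel.Quotient (S.D v) X, pL L r v o.out = pL L r v o'.out → o = o' := by
    intro o o' h
    have h1 := (pO_bij (L := L) hr hst hS).1 (a₁ := ⟨v, o⟩) (a₂ := ⟨v, o'⟩) h
    exact eq_of_heq (Sigma.mk.inj_iff.1 h1).2
  let c : Place k L → L := fun u => if h : ∃ o : orbitRel.Quotient (S.D v) X, pL L r v o.out = u
    then f h.choose else 1
  have hc : ∀ o : orbitRel.Quotient (S.D v) X, c (pL L r v o.out) = f o := by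
    intro o
    have hex : ∃ o' : orbitRel.Quotient (S.D v) X, pL L r v o'.out = pL L r v o.out := ⟨o, rfl⟩
    change dite _ _ _ = _
    rw [dif_pos hex]
    congr 1
    exact hinj _ _ hex.choose_spec
  have hfin : (Set.range fun o : orbitRel.Quotient (S.D v) X => pL L r v o.out).Finite :=
    Set.finite_range _
  obtain ⟨u, hu0, hu⟩ := exists_class (k := k) (K := L) h2 hfin c (by
    rintro _ ⟨o, rfl⟩
    rw [hc]
    exact hf0 o)
  have hom : HomO (chi L u : (Om ≃ₐ[L] Om) → ZMod 2) := homO_chi h2' hu0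
  refine ⟨extZ (chi L u), homH_extZ h2 hS hst htriv hom, fun o => ?_⟩
  have h1 : lp S E r v o.out (extZ (chi L u)) = (chi L u (s' o.out), chi L u (p' o.out)) := by
    change (extZ (chi L u) (r o.out * sgx S E v o.out * (r o.out)⁻¹),
      extZ (chi L u) (r o.out * phx S E v o.out * (r o.out)⁻¹)) = _
    rw [← hs', ← hp', extZ_res, extZ_res]
  have hv := hu _ ⟨o, rfl⟩
  rw [hc, (hLV o.out).isSquare_iff h2 (div_ne_zero hu0 (hf0 o))] at hv
  have h3 : ∀ s : Om ≃ₐ[L] Om, chi L u s = chi L (u / f o) s + chi L (f o) s := by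
    intro s
    rw [← Pool.Agent.SmF.chi_mul_elt h2' (div_ne_zero hu0 (hf0 o)) (hf0 o),
      div_mul_cancel₀ _ (hf0 o)]
  rw [h1, h3, h3, hv.1, hv.2, zero_add, zero_add, hf]

end Pool.Agent.SmN.F
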