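import Pool.Agent.Lib.SmN.F.Pair
import Pool.Agent.Lib.SmN.F.DualV

/-!
# SmN, block F: from `L` to `V1`: reciprocity, duality, injectivity, one ramified place

`LOk` (statements over the field `L` of the root `x0`) gives: `recip`, `LagT`, and
`injV`: a global cocycle unramified outside `T` and locally a coboundary on `T` is a coboundary;
`oneV`: cocycles ramified at one given place outside `T`.
-/

set_option autoImplicit false

open Finset

namespace Pool.Agent.SmN.F

open MulAction Loc

variable {G V V1 Pl : Type*} [Group G] [AddCommGroup V] [DistribMulAction G V]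
    [AddCommGroup V1] [Module (ZMod 2) V1] {S : Sys G V V1 Pl} {q : Pl → ℕ} {X : Type*}
    [Fintype X] [MulAction G X] {E : Pl → X → ℕ × ℕ × ℕ}
    {i : V1 →ₗ[ZMod 2] (X → ZMod 2)} {p : (X → ZMod 2) →ₗ[ZMod 2] V1}
    {x0 : X} {r : X → G} {T0 : Finset Pl}

/-- The `x0`-component of a global cocycle. -/
def comp0 (i : V1 →ₗ[ZMod 2] (X → ZMod 2)) (x0 : X) (c : G → V1) (s : G) : ZMod 2 := i (c s) x0

theorem cocG_iff {c : G → V1} : S.CocG c ↔ S.TF c ∧ Coc S.ac ⊤ c := by
  unfold Sys.CocG Coc
  constructor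
  · rintro ⟨h1, h2⟩
    exact ⟨h1, fun s _ t _ => h2 s t⟩
  · rintro ⟨h1, h2⟩
    exact ⟨h1, fun s t => h2 s trivial t trivial⟩

theorem coc_mono {D : Subgroup G} {c : G → V1} (hc : Coc S.ac ⊤ c) : Coc S.ac D c :=
  fun s _ t _ => hc s trivial t trivial

theorem tfOn_of_tf {α : Type*} {f : G → α} (h : S.TF f) (D : Subgroup G) : S.TFOn D f := by
  obtain ⟨N, hN, h⟩ := h
  exact ⟨N, hN, fun s _ n hn _ => h s n hn⟩

theorem homH_comp0 (hP : PermOk S X i p) {c : G → V1} (hc : S.CocG c) :
    S.HomH (stabilizer G x0) (comp0 i x0 c) := by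
  obtain ⟨⟨N, hN, h1⟩, h2⟩ := cocG_iff.1 hc
  refine ⟨⟨N, hN, fun s _ n hn _ => ?_⟩, fun s hs t ht => ?_⟩
  · unfold comp0
    rw [h1 s n hn]
  · have h3 := isCoc_i hP h2 s trivial t trivial x0
    have h4 : s⁻¹ • x0 = x0 := (stabilizer G x0).inv_mem hs
    rw [h4] at h3
    exact h3

omit [Fintype X] in
theorem sgx_fix (hE : OrbE S q E) (v : Pl) (x : X) : sgx S E v x • x = x := (hE.efj v x).sg_fix

omit [Fintype X] in
theorem phx_fix (hE : OrbE S q E) (v : Pl) (x : X) : phx S E v x • x = x := (hE.efj v x).ph_fix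

/-- The component at `x` in terms of the component at `x0`. -/
theorem comp_at (hP : PermOk S X i p) (hr : ∀ x, r x • x = x0) {c : G → V1} (hc : S.CocG c)
    {s : G} {x : X} (hx : s • x = x) : comp0 i x0 c (r x * s * (r x)⁻¹) = i (c s) x := by
  have h := (isCoc_i hP (cocG_iff.1 hc).2).conj (g := r x) (s := s) trivial trivial hx
  rw [hr] at h
  exact h

theorem lp_comp0 (hP : PermOk S X i p) (hE : OrbE S q E) (hr : ∀ x, r x • x = x0) {c : G → V1}
    (hc : S.CocG c) (v : Pl) (x : X) :
    lp S E r v x (comp0 i x0 c) = (i (c (sgx S E v x)) x, i (c (phx S E v x)) x) := by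
  unfold lp
  rw [comp_at hP hr hc (sgx_fix hE v x), comp_at hP hr hc (phx_fix hE v x)]

/-- Reciprocity for `V1`. -/
theorem recipV (hL : LocD S q) (hP : PermOk S X i p) (hE : OrbE S q E)
    (inf_mem : ∀ N ∈ S.NN, ∀ N' ∈ S.NN, N ⊓ N' ∈ S.NN) (hr : ∀ x, r x • x = x0)
    (hK : LOk S q E x0 r T0) {c d : G → V1} (hc : S.CocG c) (hd : S.CocG d) :
    ∑ᶠ v, S.sy v (S.loc v c) (S.loc v d) = 0 := by
  rw [← hK.recip _ _ (homH_comp0 hP hc) (homH_comp0 hP hd)]
  refine finsum_congr fun v => ?_
  have h1 : d = fun s => p ((fun s => i (d s)) s) := by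
    funext s
    exact (hP.p_i _).symm
  have h2 : S.sy v (S.loc v c) (S.loc v d) =
      S.sy v (S.loc v c) (S.loc v (fun s => p ((fun s => i (d s)) s))) := by rw [← h1]
  rw [h2, sy_orb hL hP hE inf_mem v (coc_mono (cocG_iff.1 hc).2) (tfOn_of_tf hc.1 _)
    (isCoc_i hP (coc_mono (cocG_iff.1 hd).2)) (by
      obtain ⟨N, hN, h3⟩ := hd.1
      exact ⟨N, hN, fun s _ n hn _ => congrArg i (h3 s n hn)⟩)]
  refine finsum_congr fun o => ?_
  rw [lp_comp0 hP hE hr hc, lp_comp0 hP hE hr hd]

section lift

variable (hr : ∀ x, r x • x = x0)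

include hr

theorem sh_tf (hP : PermOk S X i p) (normal : ∀ N ∈ S.NN, N.Normal)
    (inf_mem : ∀ N ∈ S.NN, ∀ N' ∈ S.NN, N ⊓ N' ∈ S.NN) {b : G → ZMod 2}
    (hb : S.TFOn (stabilizer G x0) b) : S.TF (sh r b) := by
  obtain ⟨N, hN, h1⟩ := hb
  obtain ⟨N0, hN0, h0⟩ := hP.triv
  refine ⟨N ⊓ N0, inf_mem _ hN _ hN0, fun s n hn => ?_⟩
  funext x
  unfold sh
  have h2 : (s * n)⁻¹ • x = s⁻¹ • x := by
    rw [mul_inv_rev, mul_smul]
    exact h0 _ (N0.inv_mem hn.2) _
  rw [h2]
  have h3 : r x * (s * n) * (r (s⁻¹ • x))⁻¹ =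
      r x * s * (r (s⁻¹ • x))⁻¹ * (r (s⁻¹ • x) * n * (r (s⁻¹ • x))⁻¹) := by group
  rw [h3]
  refine h1 _ (sh_mem hr s x) _ ((normal N hN).conj_mem _ hn.1 _) ?_
  exact h0 _ ((normal N0 hN0).conj_mem _ hn.2 _) _

theorem sh_cocG (hP : PermOk S X i p) (normal : ∀ N ∈ S.NN, N.Normal)
    (inf_mem : ∀ N ∈ S.NN, ∀ N' ∈ S.NN, N ⊓ N' ∈ S.NN) {b : G → ZMod 2}
    (hb : S.HomH (stabilizer G x0) b) : S.CocG (fun s => p (sh r b s)) := by
  refine cocG_iff.2 ⟨?_, coc_p hP (sh_coc hr hb.2)⟩
  obtain ⟨N, hN, h1⟩ := sh_tf hr hP normal inf_mem hb.1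
  exact ⟨N, hN, fun s n hn => congrArg p (h1 s n hn)⟩

omit hr in
theorem lp_sh (hE : OrbE S q E) (b : G → ZMod 2) (v : Pl) (x : X) :
    (sh r b (sgx S E v x) x, sh r b (phx S E v x) x) = lp S E r v x b := by
  unfold lp
  rw [sh_self b (sgx_fix hE v x), sh_self b (phx_fix hE v x)]

omit hr [Fintype X] in
/-- At a place where `sg v` acts trivially `e = 1`. -/
theorem sgx_eq (hE : OrbE S q E) {v : Pl} {x : X} (hv : S.sg v • x = x) :
    sgx S E v x = S.sg v := by
  have h1 := (hE.efj v x).e_min 1 (by rw [zpow_one]; exact hv)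
  have h2 := (hE.efj v x).e_pos
  have h3 : (E v x).1 = 1 := by
    have := Int.le_of_dvd one_pos h1
    omega
  unfold sgx
  rw [h3, pow_one]

omit hr in
/-- `sh r b` at an unramified place. -/
theorem sh_sg (hE : OrbE S q E) {v : Pl} (hv : ∀ x : X, S.sg v • x = x) (b : G → ZMod 2) :
    sh r b (S.sg v) = fun x => (lp S E r v x b).1 := by
  funext x
  rw [← lp_sh hE b v x, sgx_eq hE (hv x)]

end lift

/-- Duality for `V1`. -/
theorem lagV (hL : LocD S q) (hP : PermOk S X i p) (hE : OrbE S q E)
    (hG : ∀ v, LG S.NN (S.D v) (S.sg v) (S.phi v) (q v) X)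
    (inf_mem : ∀ N ∈ S.NN, ∀ N' ∈ S.NN, N ⊓ N' ∈ S.NN) (hr : ∀ x, r x • x = x0)
    (hK : LOk S q E x0 r T0) {T : Finset Pl} (hT : T0 ⊆ T) : S.LagT T := by
  classical
  intro xi hxi horth
  choose! γ hγf hγ hγl using hxi
  have hγc : ∀ v ∈ T, Coc S.ac (S.D v) (γ v) := fun v hv => hγ v hv
  obtain ⟨b, hb, hbu, hbx⟩ := hK.lag T hT
    (fun v o => (i (γ v (sgx S E v o.out)) o.out, i (γ v (phx S E v o.out)) o.out)) (by
      intro b hb hbu
      have h1 := horth (fun s => p (sh r b s)) (sh_cocG hr hP hL.normal inf_mem hb) (by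
        intro v hv
        change p (sh r b (S.sg v)) = 0
        rw [sh_sg hE (hK.unr v fun h => hv (hT h)) b]
        have h2 : (fun x => (lp S E r v x b).1) = 0 := by
          funext x
          exact hbu v hv x
        rw [h2, map_zero])
      rw [← h1]
      refine sum_congr rfl fun v hv => ?_
      rw [← hγl v hv, sy_orb hL hP hE inf_mem v (hγc v hv) (hγf v hv)
        ((sh_coc hr hb.2).mono le_top) (tfOn_of_tf (sh_tf hr hP hL.normal inf_mem hb.1) _)]
      refine finsum_congr fun o => ?_
      rw [lp_sh hE])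
  refine ⟨fun s => p (sh r b s), sh_cocG hr hP hL.normal inf_mem hb, ?_, ?_⟩
  · intro v hv
    change p (sh r b (S.sg v)) = 0
    rw [sh_sg hE (hK.unr v fun h => hv (hT h)) b]
    have h2 : (fun x => (lp S E r v x b).1) = 0 := by
      funext x
      exact hbu v hv x
    rw [h2, map_zero]
  · intro v hv
    -- the difference of the two cocycles on `D v`
    have hc1 : IsCoc (S.D v) (fun s => i (γ v s)) := isCoc_i hP (hγc v hv)
    have hc2 : IsCoc (S.D v) (sh r b) := (sh_coc hr hb.2).mono le_top
    let C : G → X → ZMod 2 := fun s x => i (γ v s) x + sh r b s x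
    have hc : IsCoc (S.D v) C := hc1.add hc2
    obtain ⟨z, hz⟩ := hc.cob (by
      intro x
      -- the representative of the orbit of `x`
      set o : orbitRel.Quotient (S.D v) X := Quotient.mk _ x with ho
      have h1 : o.out ∈ orbit (S.D v) x := Quotient.mk_out (s := orbitRel (S.D v) X) x
      obtain ⟨g, hg⟩ := h1
      refine ⟨g, g.2, ?_⟩
      change (g : G) • x = o.out at hg
      rw [hg]
      intro s hs hsx
      obtain ⟨N1, hN1, h2⟩ := hγf v hv
      obtain ⟨N2, hN2, h3⟩ := sh_tf hr hP hL.normal inf_mem hb.1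
      obtain ⟨N0, hN0, h0⟩ := hP.triv
      have hN : N1 ⊓ N2 ⊓ N0 ∈ S.NN := inf_mem _ (inf_mem _ hN1 _ hN2) _ hN0
      obtain ⟨a, m, ham⟩ := (hE.efj v o.out).gen (hG v) hN (fun n hn x => h0 n hn.2 x) hs hsx
      set u : G := ((S.sg v ^ (E v o.out).1) ^ a *
        (S.sg v ^ (E v o.out).2.2 * S.phi v ^ (E v o.out).2.1) ^ m) with hu
      have hsu : s = u * (u⁻¹ * s) := by group
      have hsm := sgx_mem (E := E) hL v o.out
      have hpm := phx_mem (E := E) hL v o.out
      have huD : u ∈ S.D v := (S.D v).mul_mem ((S.D v).zpow_mem hsm a) ((S.D v).pow_mem hpm m)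
      have hnD : u⁻¹ * s ∈ S.D v := (S.D v).mul_mem ((S.D v).inv_mem huD) hs
      have hval : i (γ v s) o.out + sh r b s o.out = i (γ v u) o.out + sh r b u o.out := by
        rw [hsu]
        rw [h2 u huD _ ham.1.1 hnD, h3 u _ ham.1.2]
      change i (γ v s) o.out + sh r b s o.out = 0
      rw [hval]
      -- values at `sgx`, `phx` agree
      have hx1 := hbx v hv o
      have e1 : sh r b (sgx S E v o.out) o.out = i (γ v (sgx S E v o.out)) o.out := by
        have := congrArg Prod.fst ((lp_sh hE b v o.out).trans hx1)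
        exact this
      have e2 : sh r b (phx S E v o.out) o.out = i (γ v (phx S E v o.out)) o.out := by
        have := congrArg Prod.snd ((lp_sh hE b v o.out).trans hx1)
        exact this
      have hsf := (hE.efj v o.out).sg_fix
      have hpf := (hE.efj v o.out).ph_fix
      change sgx S E v o.out • o.out = o.out at hsf
      change phx S E v o.out • o.out = o.out at hpf
      -- the sum cocycle vanishes at the generators
      have g1 : C (sgx S E v o.out) o.out = 0 := by
        change i (γ v (sgx S E v o.out)) o.out + sh r b (sgx S E v o.out) o.out = 0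
        rw [e1]; exact z2_add_self _
      have g2 : C (phx S E v o.out) o.out = 0 := by
        change i (γ v (phx S E v o.out)) o.out + sh r b (phx S E v o.out) o.out = 0
        rw [e2]; exact z2_add_self _
      have g3 : ∀ n : ℤ, C (sgx S E v o.out ^ n) o.out = 0 := by
        intro n
        obtain ⟨k, rfl | rfl⟩ := n.eq_nat_or_neg
        · rw [zpow_natCast, hc.pow_fix hsm hsf, g1, mul_zero]
        · have h5 : sgx S E v o.out ^ k • o.out = o.out := by
            induction k with
            | zero => rw [pow_zero, one_smul]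
            | succ k ih => rw [pow_succ, mul_smul, hsf, ih]
          rw [zpow_neg, zpow_natCast, hc.inv ((S.D v).pow_mem hsm k), h5,
            hc.pow_fix hsm hsf, g1, mul_zero]
      have g4 : C (phx S E v o.out ^ m) o.out = 0 := by
        rw [hc.pow_fix hpm hpf, g2, mul_zero]
      have h6 := hc (sgx S E v o.out ^ a) ((S.D v).zpow_mem hsm a) (phx S E v o.out ^ m)
        ((S.D v).pow_mem hpm m) o.out
      have h7 : (sgx S E v o.out ^ a)⁻¹ • o.out = o.out := by
        have h8 : sgx S E v o.out ∈ stabilizer G o.out := hsf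
        exact (stabilizer G o.out).inv_mem ((stabilizer G o.out).zpow_mem h8 a)
      rw [h7, g3, g4, add_zero] at h6
      exact h6)
    refine ⟨p z, ?_⟩
    have hz' : ∀ s ∈ S.D v, p (sh r b s) = γ v s + (S.ac s (p z) - p z) := by
      intro s hs
      have h1 : sh r b s = i (γ v s) + ((fun x => z (s⁻¹ • x)) + z) := by
        funext x
        have h2 := hz s hs x
        have h3 := z2_add_self (i (γ v s) x)
        change sh r b s x = i (γ v s) x + (z (s⁻¹ • x) + z x)
        have h4 : i (γ v s) x + sh r b s x = z x + z (s⁻¹ • x) := h2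
        linear_combination h4 - h3
      rw [h1, map_add, map_add, hP.p_i, hP.p_ac]
      have h5 : p z = - p z := by
        have h6 : p z + p z = 0 := by
          rw [← map_add]
          have : z + z = 0 := by
            funext x
            exact z2_add_self _
          rw [this, map_zero]
        exact eq_neg_of_add_eq_zero_left h6
      rw [sub_eq_add_neg, ← h5]
    rw [← hγl v hv]
    exact Prod.ext (hz' _ (hL.sg_mem v)) (hz' _ (hL.phi_mem v))

/-- A class unramified outside `T` and locally trivial on `T` is trivial. -/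
theorem injV (hP : PermOk S X i p) (hE : OrbE S q E) (hr : ∀ x, r x • x = x0)
    (hK : LOk S q E x0 r T0) {T : Finset Pl} (hT : T0 ⊆ T) {b : G → V1} (hb : S.CocG b)
    (hu : ∀ v, v ∉ T → b (S.sg v) = 0) (ht : ∀ v ∈ T, ∃ z, S.loc v b = S.cob v z) :
    ∃ z : V1, ∀ s, b s = S.ac s z - z := by
  have hbc := (cocG_iff.1 hb).2
  have h1 : ∀ s ∈ stabilizer G x0, comp0 i x0 b s = 0 := by
    refine hK.inj T hT _ (homH_comp0 hP hb) ?_ ?_
    · intro v hv x
      rw [lp_comp0 hP hE hr hb, sgx_eq hE (hK.unr v (fun h => hv (hT h)) x), hu v hv, map_zero]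
      rfl
    · intro v hv x
      rw [lp_comp0 hP hE hr hb]
      obtain ⟨z, hz⟩ := ht v hv
      have h2 : b (S.sg v) = S.ac (S.sg v) z - z := congrArg Prod.fst hz
      have h3 : b (S.phi v) = S.ac (S.phi v) z - z := congrArg Prod.snd hz
      have hpow : ∀ s : G, b s = S.ac s z - z → ∀ n : ℕ, b (s ^ n) = S.ac (s ^ n) z - z := by
        intro s hs n
        induction n with
        | zero =>
          rw [pow_zero, hbc.one, map_one]
          change (0 : V1) = z - z
          rw [sub_self]
        | succ n ih =>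
          rw [pow_succ, hbc _ trivial s trivial, ih, hs, map_sub, map_mul]
          change _ = (S.ac (s ^ n)) ((S.ac s) z) - z
          abel
      have hmul : ∀ s t : G, b s = S.ac s z - z → b t = S.ac t z - z →
          b (s * t) = S.ac (s * t) z - z := by
        intro s t hs ht
        rw [hbc _ trivial t trivial, hs, ht, map_sub, map_mul]
        change _ = (S.ac s) ((S.ac t) z) - z
        abel
      have h4 : b (sgx S E v x) = S.ac (sgx S E v x) z - z := hpow _ h2 _
      have h5 : b (phx S E v x) = S.ac (phx S E v x) z - z := hmul _ _ (hpow _ h2 _) (hpow _ h3 _)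
      have h6 : ∀ s : G, s • x = x → i (S.ac s z - z) x = 0 := by
        intro s hs
        have h7 : s⁻¹ • x = x := by rw [inv_smul_eq_iff, hs]
        rw [map_sub, Pi.sub_apply, hP.i_ac, h7, sub_self]
      rw [h4, h5, h6 _ (sgx_fix hE v x), h6 _ (phx_fix hE v x)]
      rfl
  obtain ⟨z, hz⟩ := coc_sh hr (isCoc_i hP hbc)
  refine ⟨p z, fun s => ?_⟩
  have h2 : i (b s) = (fun x => z (s⁻¹ • x)) + z := by
    funext x
    have h3 := hz s x
    have h4 : sh r (fun t => i (b t) x0) s x = 0 := h1 _ (sh_mem hr s x)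
    rw [h4, zero_add] at h3
    change i (b s) x = z (s⁻¹ • x) + z x
    rw [h3, add_comm]
  rw [← hP.p_i (b s), h2, map_add, hP.p_ac]
  have h5 : p z = - p z := by
    have h6 : p z + p z = 0 := by
      rw [← map_add]
      have : z + z = 0 := by
        funext x
        exact z2_add_self _
      rw [this, map_zero]
    exact eq_neg_of_add_eq_zero_left h6
  rw [sub_eq_add_neg, ← h5]

/-- Classes ramified at one given place outside `T`. -/
theorem oneV (hL : LocD S q) (hP : PermOk S X i p) (hE : OrbE S q E)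
    (inf_mem : ∀ N ∈ S.NN, ∀ N' ∈ S.NN, N ⊓ N' ∈ S.NN) (hr : ∀ x, r x • x = x0)
    (hG : ∀ v, LG S.NN (S.D v) (S.sg v) (S.phi v) (q v) X)
    (top_mem : ⊤ ∈ S.NN)
    (hK : LOk S q E x0 r T0) {T : Finset Pl} (hT : T0 ⊆ T) {w : Pl} (hw : w ∉ T) {y : V1}
    (hy : S.ac (S.phi w) y = y) :
    ∃ c : G → V1, S.CocG c ∧ c (S.sg w) = y ∧ ∀ v, v ∉ T → v ≠ w → c (S.sg v) = 0 := by
  classical
  have : Finite (orbitRel.Quotient (S.D w) X) := Quotient.finite _
  have : Fintype (orbitRel.Quotient (S.D w) X) := Fintype.ofFinite _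
  choose b hb h1 h2 h3 using hK.one T hT w hw
  have hwX := hK.unr w fun h => hw (hT h)
  let B : G → ZMod 2 := fun s => ∑ o, i y o.out * b o s
  have hB : S.HomH (stabilizer G x0) B := by
    constructor
    · have key : ∀ J : Finset (orbitRel.Quotient (S.D w) X),
          S.TFOn (stabilizer G x0) (fun s => ∑ o ∈ J, i y o.out * b o s) := by
        intro J
        induction J using Finset.induction_on with
        | empty => exact ⟨⊤, top_mem, fun s _ n _ _ => rfl⟩
        | insert o J ho ih =>
          obtain ⟨N, hN, h4⟩ := ih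
          obtain ⟨N', hN', h5⟩ := (hb o).1
          refine ⟨N ⊓ N', inf_mem _ hN _ hN', fun s hs n hn hnH => ?_⟩
          have h6 := h4 s hs n hn.1 hnH
          beta_reduce at h6 ⊢
          rw [sum_insert ho, sum_insert ho, h6, h5 s hs n hn.2 hnH]
      exact key univ
    · intro s hs t ht
      change ∑ o, i y o.out * b o (s * t) = ∑ o, i y o.out * b o s + ∑ o, i y o.out * b o t
      rw [← sum_add_distrib]
      exact sum_congr rfl fun o _ => by rw [(hb o).2 s hs t ht, mul_add]
  have hlp : ∀ v x, (lp S E r v x B).1 = ∑ o, i y o.out * (lp S E r v x (b o)).1 := fun v x => rfl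
  refine ⟨fun s => p (sh r B s), sh_cocG hr hP hL.normal inf_mem hB, ?_, ?_⟩
  · change p (sh r B (S.sg w)) = y
    rw [sh_sg hE hwX B]
    have h4 : (fun x => (lp S E r w x B).1) = i y := by
      funext x
      rw [hlp]
      set o : orbitRel.Quotient (S.D w) X := Quotient.mk _ x with ho
      have h5 : x ∈ orbit (S.D w) o.out := by
        have h6 : o.out ∈ orbit (S.D w) x := Quotient.mk_out (s := orbitRel (S.D w) X) x
        exact (orbit_eq_iff.2 h6) ▸ mem_orbit_self x
      rw [sum_eq_single o]
      · rw [h2 o x h5, mul_one]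
        -- `i y` is constant on the orbit
        obtain ⟨g, hg⟩ := h5
        change (g : G) • o.out = x at hg
        rw [← hg]
        -- invariance under `D w`
        have hinv : ∀ s ∈ S.D w, S.ac s y = y := by
          obtain ⟨N0, hN0, h0⟩ := hP.triv
          obtain ⟨N1, hN1, h9⟩ := hL.ac_fin
          have hsg : S.ac (S.sg w) y = y := by
            have h10 : i (S.ac (S.sg w) y) = i y := by
              funext x
              rw [hP.i_ac]
              have : (S.sg w)⁻¹ • x = x := by rw [inv_smul_eq_iff, hwX]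
              rw [this]
            rw [← hP.p_i (S.ac (S.sg w) y), h10, hP.p_i]
          intro s hs
          obtain ⟨t, ht, htN⟩ := (hG w).gen N1 hN1 s hs
          have h11 : S.ac s = S.ac t := by
            have h12 := h9 _ htN
            rw [map_mul, map_inv, inv_mul_eq_one] at h12
            exact h12.symm
          rw [h11]
          clear htN h11
          induction ht using Subgroup.closure_induction with
          | mem t ht' =>
            rcases ht' with rfl | rfl
            · exact hy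
            · exact hsg
          | one => rw [map_one]; rfl
          | mul a b _ _ ha hb =>
            rw [map_mul]
            change S.ac a (S.ac b y) = y
            rw [hb, ha]
          | inv a _ ha =>
            rw [map_inv]
            have h13 : (S.ac a)⁻¹ (S.ac a y) = y := by
              change ((S.ac a)⁻¹ * S.ac a) y = y
              rw [inv_mul_cancel]; rfl
            rw [ha] at h13
            exact h13
        have h14 := hP.i_ac (g : G) y ((g : G) • o.out)
        rw [hinv _ g.2, inv_smul_smul] at h14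
        exact h14.symm
      · intro o' _ ho'
        rw [h3 o' x, mul_zero]
        intro h6
        apply ho'
        have h7 : o' = Quotient.mk _ x := by
          rw [← Quotient.out_eq o']
          exact (Quotient.sound (s := orbitRel (S.D w) X) h6).symm
        exact h7
      · intro h; exact absurd (mem_univ _) h
    rw [h4, hP.p_i]
  · intro v hv hvw
    change p (sh r B (S.sg v)) = 0
    rw [sh_sg hE (hK.unr v fun h => hv (hT h)) B]
    have h4 : (fun x => (lp S E r v x B).1) = 0 := by
      funext x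
      rw [hlp]
      exact sum_eq_zero fun o _ => by rw [h1 o v hv hvw x, mul_zero]
    rw [h4, map_zero]

end Pool.Agent.SmN.F
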